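import Pool.Agent.H352R3.SA.Defs
import Pool.Agent.H761R2.SV.Pomp

/-!
# Fubini for Cauchy potentials (module FUB)
-/

set_option autoImplicit false

open MeasureTheory Complex Filter Topology Metric
open scoped ComplexConjugate

namespace Pool.Agent.H352R3.SA

namespace FubAux

theorem int_ind : Integrable ((ball (0 : ℂ) 1).indicator (fun w : ℂ => ‖w‖⁻¹)) :=
  (integrable_indicator_iff measurableSet_ball).2
    (Pool.Agent.H761R2.SV.integrableOn_norm_inv 1)

theorem norm_int {f : ℂ → ℂ} (hf : Continuous f) (hc : HasCompactSupport f) :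
    ∃ C : ℝ, 0 ≤ C ∧ ∀ z, ∫ w, ‖f w * (z - w)⁻¹‖ ≤ C := by
  obtain ⟨M, hM⟩ := hc.exists_bound_of_continuous hf
  have hM0 : 0 ≤ M := (norm_nonneg _).trans (hM 0)
  have hfi : Integrable f := hf.integrable_of_hasCompactSupport hc
  set g : ℂ → ℝ := (ball (0 : ℂ) 1).indicator (fun w : ℂ => ‖w‖⁻¹) with hg
  have hgi : Integrable g := int_ind
  have hg0 : ∀ w, 0 ≤ g w := fun w => Set.indicator_nonneg (fun _ _ => by positivity) w
  refine ⟨M * (∫ w, g w) + ∫ w, ‖f w‖, ?_, fun z => ?_⟩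
  · have h1 : 0 ≤ ∫ w, g w := integral_nonneg hg0
    have h2 : 0 ≤ ∫ w, ‖f w‖ := integral_nonneg fun w => norm_nonneg _
    positivity
  · have h1 : Integrable (fun w => g (z - w)) := hgi.comp_sub_left z
    have h2 : ∫ w, g (z - w) = ∫ w, g w := integral_sub_left_eq_self g volume z
    rw [← h2, ← integral_const_mul, ← integral_add (h1.const_mul M) hfi.norm]
    refine integral_mono_of_nonneg (Eventually.of_forall fun w => norm_nonneg _)
      ((h1.const_mul M).add hfi.norm) (Eventually.of_forall fun w => ?_)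
    simp only [Pi.add_apply]
    rw [norm_mul, norm_inv]
    by_cases hw : ‖z - w‖ < 1
    · have h3 : g (z - w) = ‖z - w‖⁻¹ := by
        rw [hg, Set.indicator_of_mem]
        simpa using hw
      rw [h3]
      have h4 : ‖f w‖ * ‖z - w‖⁻¹ ≤ M * ‖z - w‖⁻¹ :=
        mul_le_mul_of_nonneg_right (hM w) (by positivity)
      have h5 := norm_nonneg (f w)
      linarith
    · have h3 : ‖z - w‖⁻¹ ≤ 1 := inv_le_one_of_one_le₀ (not_lt.1 hw)
      have h4 : ‖f w‖ * ‖z - w‖⁻¹ ≤ ‖f w‖ * 1 := mul_le_mul_of_nonneg_left h3 (norm_nonneg _)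
      have h5 : 0 ≤ M * g (z - w) := mul_nonneg hM0 (hg0 _)
      linarith

theorem int_prod {φ ψ : ℂ → ℂ} (hφ : Integrable φ) (hψ : Continuous ψ)
    (cψ : HasCompactSupport ψ) :
    Integrable (fun p : ℂ × ℂ => φ p.1 * (ψ p.2 * (p.1 - p.2)⁻¹))
      ((volume : Measure ℂ).prod volume) := by
  obtain ⟨C, hC0, hC⟩ := norm_int hψ cψ
  have hm : AEStronglyMeasurable (fun p : ℂ × ℂ => φ p.1 * (ψ p.2 * (p.1 - p.2)⁻¹))
      ((volume : Measure ℂ).prod volume) := by
    refine hφ.aestronglyMeasurable.comp_fst.mul ?_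
    refine Measurable.aestronglyMeasurable ?_
    exact (hψ.measurable.comp measurable_snd).mul (measurable_fst.sub measurable_snd).inv
  rw [integrable_prod_iff hm]
  refine ⟨Eventually.of_forall fun z => ?_, ?_⟩
  · exact (Pool.Agent.H761R2.SV.integrable_mul_cauchy hψ cψ z).const_mul (φ z)
  · refine Integrable.mono' (hφ.norm.mul_const C) hm.norm.integral_prod_right' ?_
    refine Eventually.of_forall fun z => ?_
    have h1 : ∫ w, ‖φ z * (ψ w * (z - w)⁻¹)‖ = ‖φ z‖ * ∫ w, ‖ψ w * (z - w)⁻¹‖ := by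
      rw [← integral_const_mul]
      exact integral_congr_ae (Eventually.of_forall fun w => norm_mul _ _)
    have h2 : 0 ≤ ∫ w, ‖φ z * (ψ w * (z - w)⁻¹)‖ := integral_nonneg fun w => norm_nonneg _
    rw [Real.norm_of_nonneg h2]
    show ∫ w, ‖φ z * (ψ w * (z - w)⁻¹)‖ ≤ _
    rw [h1]
    exact mul_le_mul_of_nonneg_left (hC z) (norm_nonneg _)

theorem iter_eq (φ ψ : ℂ → ℂ) : ∫ z, φ z * pot ψ z = ∫ z, ∫ w, φ z * (ψ w * (z - w)⁻¹) := by
  refine integral_congr_ae (Eventually.of_forall fun z => ?_)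
  show φ z * pot ψ z = ∫ w, φ z * (ψ w * (z - w)⁻¹)
  rw [integral_const_mul, pot]

theorem ae_ne (z : ℂ) : ∀ᵐ w : ℂ, w ≠ z := by
  have h : ({z} : Set ℂ)ᶜ ∈ ae (volume : Measure ℂ) :=
    compl_mem_ae_iff.2 (measure_singleton z)
  filter_upwards [h] with w hw using hw

end FubAux

open FubAux

theorem anti {φ ψ : ℂ → ℂ} (hφ : Continuous φ) (cφ : HasCompactSupport φ)
    (hψ : Continuous ψ) (cψ : HasCompactSupport ψ) :
    ∫ z, φ z * pot ψ z = - ∫ z, ψ z * pot φ z := by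
  have h1 := int_prod (hφ.integrable_of_hasCompactSupport cφ) hψ cψ
  rw [iter_eq, integral_integral_swap h1, ← integral_neg]
  refine integral_congr_ae (Eventually.of_forall fun w => ?_)
  show ∫ z, φ z * (ψ w * (z - w)⁻¹) = -(ψ w * pot φ w)
  rw [pot, ← integral_const_mul, ← integral_neg]
  refine integral_congr_ae (Eventually.of_forall fun z => ?_)
  show φ z * (ψ w * (z - w)⁻¹) = -(ψ w * (φ z * (w - z)⁻¹))
  rw [← neg_sub w z, inv_neg]
  ring

theorem pot_sq {κ : ℂ → ℂ} (hκ : Continuous κ) (cκ : HasCompactSupport κ) (z : ℂ) :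
    pot κ z ^ 2 = 2 * pot (fun w => κ w * pot κ w) z := by
  have hi := Pool.Agent.H761R2.SV.integrable_mul_cauchy hκ cκ z
  have hf := int_prod hi hκ cκ
  set f : ℂ × ℂ → ℂ := fun p => (κ p.1 * (z - p.1)⁻¹) * (κ p.2 * (p.1 - p.2)⁻¹) with hfd
  have hfs : Integrable (fun p : ℂ × ℂ => f p.swap) ((volume : Measure ℂ).prod volume) :=
    hf.swap
  have e1 : pot κ z ^ 2 = ∫ y, ∫ y', (κ y * (z - y)⁻¹) * (κ y' * (z - y')⁻¹) := by
    rw [pow_two]
    unfold pot
    rw [← integral_mul_const]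
    refine integral_congr_ae (Eventually.of_forall fun y => ?_)
    show (κ y * (z - y)⁻¹) * ∫ w, κ w * (z - w)⁻¹ = _
    rw [← integral_const_mul]
  have e2 : ∫ y, ∫ y', (κ y * (z - y)⁻¹) * (κ y' * (z - y')⁻¹) =
      ∫ y, ∫ y', (f (y, y') + f (y, y').swap) := by
    refine integral_congr_ae ?_
    filter_upwards [ae_ne z] with y hy
    refine integral_congr_ae ?_
    filter_upwards [ae_ne z, ae_ne y] with y' hy' hyy'
    simp only [hfd, Prod.swap]
    have a1 : z - y ≠ 0 := sub_ne_zero.2 hy.symm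
    have a2 : z - y' ≠ 0 := sub_ne_zero.2 hy'.symm
    have a3 : y - y' ≠ 0 := sub_ne_zero.2 hyy'.symm
    have a4 : y' - y ≠ 0 := sub_ne_zero.2 hyy'
    have a5 : (z - y)⁻¹ * (z - y')⁻¹ = (z - y)⁻¹ * (y - y')⁻¹ + (z - y')⁻¹ * (y' - y)⁻¹ := by
      rw [← neg_sub y y', inv_neg]
      field_simp
      ring
    calc (κ y * (z - y)⁻¹) * (κ y' * (z - y')⁻¹) = κ y * κ y' * ((z - y)⁻¹ * (z - y')⁻¹) := by ring
      _ = κ y * κ y' * ((z - y)⁻¹ * (y - y')⁻¹ + (z - y')⁻¹ * (y' - y)⁻¹) := by rw [a5]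
      _ = _ := by ring
  have e3 : ∫ y, ∫ y', (f (y, y') + f (y, y').swap) =
      ∫ p, (f p + f p.swap) ∂((volume : Measure ℂ).prod volume) :=
    (integral_prod (fun p : ℂ × ℂ => f p + f p.swap) (hf.add hfs)).symm
  have e4 : ∫ p, f p ∂((volume : Measure ℂ).prod volume) = pot (fun w => κ w * pot κ w) z := by
    rw [integral_prod f hf]
    unfold pot
    refine integral_congr_ae (Eventually.of_forall fun y => ?_)
    show ∫ y', (κ y * (z - y)⁻¹) * (κ y' * (y - y')⁻¹) = _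
    rw [integral_const_mul]
    ring
  rw [e1, e2, e3, integral_add hf hfs, integral_prod_swap, e4]
  ring

end Pool.Agent.H352R3.SA
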