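import Pool.Agent.H352R3.SA.Pot
import Pool.Agent.H352R3.SA.Fub

set_option autoImplicit false

/-!
# Module ENE: antisymmetry of `cop`, energy estimate, uniqueness
-/

open MeasureTheory Complex Filter Topology
open scoped ComplexConjugate BoundedContinuousFunction

namespace Pool.Agent.H352R3.SA

/-! ## Energy identities -/

namespace Ene

theorem den_cont {g : ℂ → ℝ} (hg : Continuous g) {u : ℂ → ℂ} (hu : Continuous u) :
    Continuous fun z => (g z : ℂ) * u z := (continuous_ofReal.comp hg).mul hu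

theorem den_supp {g : ℂ → ℝ} (cg : HasCompactSupport g) (u : ℂ → ℂ) :
    HasCompactSupport fun z => (g z : ℂ) * u z := by
  have h1 : HasCompactSupport fun z => (g z : ℂ) := cg.comp_left (g := fun x : ℝ => (x : ℂ)) (by simp)
  exact h1.mul_right

theorem conj_cont {u : ℂ → ℂ} (hu : Continuous u) : Continuous fun z => conj (u z) :=
  continuous_conj.comp hu

theorem den_int {g : ℂ → ℝ} (hg : Continuous g) (cg : HasCompactSupport g) {u : ℂ → ℂ}
    (hu : Continuous u) : Integrable fun z => (g z : ℂ) * u z :=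
  (den_cont hg hu).integrable_of_hasCompactSupport (den_supp cg u)

theorem real_int {g : ℂ → ℝ} (hg : Continuous g) (cg : HasCompactSupport g) {u : ℂ → ℝ}
    (hu : Continuous u) : Integrable fun z => g z * u z :=
  (hg.mul hu).integrable_of_hasCompactSupport cg.mul_right

end Ene

open Ene

theorem cop_continuous {g : ℂ → ℝ} (hg : Continuous g) (cg : HasCompactSupport g) {f : ℂ → ℂ}
    (hf : Continuous f) : Continuous (cop g f) := by
  have := pot_continuous (den_cont hg (conj_cont hf)) (den_supp cg fun z => conj (f z))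
  exact this.neg

theorem cop_anti {g h : ℂ → ℝ} {u v : ℂ → ℂ} (hg : Continuous g) (cg : HasCompactSupport g)
    (hh : Continuous h) (ch : HasCompactSupport h) (hu : Continuous u) (hv : Continuous v) :
    ∫ z, (g z : ℂ) * conj (u z) * cop h v z = - ∫ z, (h z : ℂ) * conj (v z) * cop g u z := by
  have h1 := anti (den_cont hg (conj_cont hu)) (den_supp cg fun z => conj (u z))
    (den_cont hh (conj_cont hv)) (den_supp ch fun z => conj (v z))
  simp only [cop, mul_neg]
  rw [integral_neg, integral_neg, h1]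

theorem sol_sub {g : ℂ → ℝ} (hg : Continuous g) (cg : HasCompactSupport g)
    {s t L K s' t' L' K' : ℂ → ℂ} (h : Sol g s t L K) (h' : Sol g s' t' L' K') :
    Sol g (s - s') (t - t') (L - L') (K - K') := by
  have key : ∀ u v : ℂ → ℂ, Continuous u → Continuous v → ∀ z,
      cop g (u - v) z = cop g u z - cop g v z := by
    intro u v hu hv z
    have i1 := pot_integrable (den_cont hg (conj_cont hu)) (den_supp cg fun z => conj (u z)) z
    have i2 := pot_integrable (den_cont hg (conj_cont hv)) (den_supp cg fun z => conj (v z)) z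
    have e : ∫ w, (g w : ℂ) * conj ((u - v) w) * (z - w)⁻¹ =
        (∫ w, (g w : ℂ) * conj (u w) * (z - w)⁻¹) - ∫ w, (g w : ℂ) * conj (v w) * (z - w)⁻¹ := by
      rw [← integral_sub i1 i2]
      apply integral_congr_ae
      refine Eventually.of_forall fun w => ?_
      simp only [Pi.sub_apply, map_sub]
      ring
    simp only [cop, pot]
    rw [e]
    ring
  refine ⟨h.cL.sub h'.cL, h.cK.sub h'.cK, ?_, ?_⟩
  · intro z
    rw [key _ _ h.cK h'.cK]
    simp only [Pi.sub_apply]
    rw [h.eL, h'.eL]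
    ring
  · intro z
    rw [key _ _ h.cL h'.cL]
    simp only [Pi.sub_apply]
    rw [h.eK, h'.eK]
    ring

theorem sol_energy {g : ℂ → ℝ} (hg : Den g) {s t L K : ℂ → ℂ} (h : Sol g s t L K) :
    ∫ z, g z * (‖L z‖ ^ 2 + ‖K z‖ ^ 2) ≤ ∫ z, g z * (‖s z‖ ^ 2 + ‖t z‖ ^ 2) := by
  have hcK := cop_continuous hg.cont hg.supp h.cK
  have hcL := cop_continuous hg.cont hg.supp h.cL
  have hs : Continuous s := by
    have : s = fun z => L z - cop g K z := by
      funext z; rw [h.eL z]; ring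
    rw [this]; exact h.cL.sub hcK
  have ht : Continuous t := by
    have : t = fun z => K z - cop g L z := by
      funext z; rw [h.eK z]; ring
    rw [this]; exact h.cK.sub hcL
  set F1 : ℂ → ℂ := fun z => (g z : ℂ) * (conj (L z) * cop g K z) with hF1
  set F2 : ℂ → ℂ := fun z => (g z : ℂ) * (conj (K z) * cop g L z) with hF2
  have iF1 : Integrable F1 := den_int hg.cont hg.supp ((conj_cont h.cL).mul hcK)
  have iF2 : Integrable F2 := den_int hg.cont hg.supp ((conj_cont h.cK).mul hcL)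
  have hanti : ∫ z, F1 z = - ∫ z, F2 z := by
    have := cop_anti hg.cont hg.supp hg.cont hg.supp h.cL h.cK
    simpa only [hF1, hF2, mul_assoc] using this
  set M : ℂ → ℝ := fun z => g z * (conj (L z) * s z + conj (K z) * t z).re with hM
  have iM : Integrable M := real_int hg.cont hg.supp
    (continuous_re.comp (((conj_cont h.cL).mul hs).add ((conj_cont h.cK).mul ht)))
  have iI : Integrable fun z => g z * (‖L z‖ ^ 2 + ‖K z‖ ^ 2) := real_int hg.cont hg.supp
    ((h.cL.norm.pow 2).add (h.cK.norm.pow 2))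
  have iJ : Integrable fun z => g z * (‖s z‖ ^ 2 + ‖t z‖ ^ 2) := real_int hg.cont hg.supp
    ((hs.norm.pow 2).add (ht.norm.pow 2))
  have hnsq : ∀ w : ℂ, ‖w‖ ^ 2 = (conj w * w).re := by
    intro w
    rw [← Complex.normSq_eq_norm_sq, Complex.normSq_apply]
    simp
  have e1 : ∫ z, g z * (‖L z‖ ^ 2 + ‖K z‖ ^ 2) = ∫ z, M z := by
    have e2 : ∀ z, g z * (‖L z‖ ^ 2 + ‖K z‖ ^ 2) = M z + (F1 z + F2 z).re := by
      intro z
      rw [hnsq, hnsq]
      nth_rewrite 2 [h.eL z]
      nth_rewrite 2 [h.eK z]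
      simp only [hM, hF1, hF2]
      rw [mul_add (conj (L z)), mul_add (conj (K z))]
      simp only [Complex.add_re, Complex.re_ofReal_mul]
      ring
    have e3 : ∫ z, (F1 z + F2 z).re = 0 := by
      have := integral_re (iF1.add iF2)
      have e4 : ∫ z, (F1 z + F2 z).re = (∫ z, (F1 z + F2 z)).re := this
      rw [e4, integral_add iF1 iF2, hanti]
      simp
    have iR : Integrable fun z => (F1 z + F2 z).re := (iF1.add iF2).re
    calc ∫ z, g z * (‖L z‖ ^ 2 + ‖K z‖ ^ 2) = ∫ z, (M z + (F1 z + F2 z).re) :=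
          integral_congr_ae (Eventually.of_forall e2)
      _ = ∫ z, M z := by rw [integral_add iM iR, e3, add_zero]
  have e5 : ∫ z, M z ≤ ∫ z, (g z * (‖L z‖ ^ 2 + ‖K z‖ ^ 2) + g z * (‖s z‖ ^ 2 + ‖t z‖ ^ 2)) / 2 := by
    apply integral_mono iM ((iI.add iJ).div_const 2)
    intro z
    show M z ≤ (g z * (‖L z‖ ^ 2 + ‖K z‖ ^ 2) + g z * (‖s z‖ ^ 2 + ‖t z‖ ^ 2)) / 2
    have h0 := hg.nonneg z
    have hre : ∀ u v : ℂ, (conj u * v).re ≤ (‖u‖ ^ 2 + ‖v‖ ^ 2) / 2 := by
      intro u v
      have h1 : (conj u * v).re ≤ ‖conj u * v‖ := Complex.re_le_norm _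
      rw [norm_mul, RCLike.norm_conj] at h1
      nlinarith [sq_nonneg (‖u‖ - ‖v‖)]
    have h1 := hre (L z) (s z)
    have h2 := hre (K z) (t z)
    simp only [hM, Complex.add_re]
    have h3 : (conj (L z) * s z).re + (conj (K z) * t z).re ≤
      (‖L z‖ ^ 2 + ‖K z‖ ^ 2 + (‖s z‖ ^ 2 + ‖t z‖ ^ 2)) / 2 := by linarith
    have h4 := mul_le_mul_of_nonneg_left h3 h0
    linarith
  rw [integral_div, integral_add iI iJ] at e5
  linarith

theorem sol_unique {g : ℂ → ℝ} (hg : Den g) {s t L K L' K' : ℂ → ℂ} (h : Sol g s t L K)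
    (h' : Sol g s t L' K') : L = L' ∧ K = K' := by
  have hS := sol_sub hg.cont hg.supp h h'
  rw [sub_self, sub_self] at hS
  have hE := sol_energy hg hS
  set dL := L - L' with hdL
  set dK := K - K' with hdK
  have h0 : ∫ z, g z * (‖(0 : ℂ → ℂ) z‖ ^ 2 + ‖(0 : ℂ → ℂ) z‖ ^ 2) = 0 := by simp
  rw [h0] at hE
  have hc : Continuous fun z => g z * (‖dL z‖ ^ 2 + ‖dK z‖ ^ 2) :=
    hg.cont.mul ((hS.cL.norm.pow 2).add (hS.cK.norm.pow 2))
  have hi : Integrable fun z => g z * (‖dL z‖ ^ 2 + ‖dK z‖ ^ 2) :=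
    real_int hg.cont hg.supp ((hS.cL.norm.pow 2).add (hS.cK.norm.pow 2))
  have hnn : ∀ z, 0 ≤ g z * (‖dL z‖ ^ 2 + ‖dK z‖ ^ 2) := fun z =>
    mul_nonneg (hg.nonneg z) (by positivity)
  have hz : ∀ z, g z * (‖dL z‖ ^ 2 + ‖dK z‖ ^ 2) = 0 := by
    have h1 : ∫ z, g z * (‖dL z‖ ^ 2 + ‖dK z‖ ^ 2) = 0 :=
      le_antisymm hE (integral_nonneg hnn)
    have h2 := (integral_eq_zero_iff_of_nonneg hnn hi).1 h1
    have h3 := (Continuous.ae_eq_iff_eq (volume : Measure ℂ) hc continuous_zero).1 h2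
    intro z
    exact congrFun h3 z
  have hcop : ∀ u : ℂ → ℂ, (∀ z, g z = 0 ∨ u z = 0) → ∀ z, cop g u z = 0 := by
    intro u hu z
    simp only [cop, pot]
    have : ∀ w, (g w : ℂ) * conj (u w) * (z - w)⁻¹ = 0 := by
      intro w
      rcases hu w with h | h
      · rw [h]; simp
      · rw [h]; simp
    simp only [this, integral_zero, neg_zero]
  have hor : ∀ z, g z = 0 ∨ (dL z = 0 ∧ dK z = 0) := by
    intro z
    rcases mul_eq_zero.1 (hz z) with h1 | h1
    · exact Or.inl h1
    · right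
      have h2 : 0 ≤ ‖dL z‖ ^ 2 := by positivity
      have h3 : 0 ≤ ‖dK z‖ ^ 2 := by positivity
      have h4 : ‖dL z‖ ^ 2 = 0 := by linarith
      have h5 : ‖dK z‖ ^ 2 = 0 := by linarith
      exact ⟨by simpa using h4, by simpa using h5⟩
  have hLz : dL = 0 := by
    funext z
    rw [hS.eL z, hcop dK (fun z => (hor z).imp id And.right) z]
    simp
  have hKz : dK = 0 := by
    funext z
    rw [hS.eK z, hcop dL (fun z => (hor z).imp id And.left) z]
    simp
  exact ⟨sub_eq_zero.1 hLz, sub_eq_zero.1 hKz⟩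

end Pool.Agent.H352R3.SA
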