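import Pool.Agent.H352R3.SA.Defs
import Pool.Agent.H761R2.SV.Pomp

/-!
# Module BND: bounds of potentials (sup bound, Hölder `1/2`, Schur `L²` bound)
-/

set_option autoImplicit false

open MeasureTheory Complex Filter Topology Metric Set
open scoped ComplexConjugate BoundedContinuousFunction

namespace Pool.Agent.H352R3.SA

namespace BndAux

theorem hcs {φ : ℂ → ℂ} {R : ℝ} (h : ∀ z, R < ‖z‖ → φ z = 0) : HasCompactSupport φ := by
  apply HasCompactSupport.of_support_subset_isCompact (isCompact_closedBall (0 : ℂ) R)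
  intro w hw
  by_contra hn
  apply hw
  apply h
  simpa using hn

theorem integrableOn_rpow (r : ℝ) :
    IntegrableOn (fun w : ℂ => ‖w‖ ^ (-(3 / 2) : ℝ)) (ball (0 : ℂ) r) := by
  rw [integrableOn_fun_norm_addHaar (volume : Measure ℂ) (f := fun y : ℝ => y ^ (-(3 / 2) : ℝ))]
  have h1 : IntegrableOn (fun y : ℝ => y ^ (-(1 / 2) : ℝ)) (Ioo 0 r) := by
    rcases le_or_gt r 0 with hr | hr
    · rw [Ioo_eq_empty (by linarith)]
      exact integrableOn_empty
    · have h2 : IntervalIntegrable (fun y : ℝ => y ^ (-(1 / 2) : ℝ)) volume 0 r :=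
        intervalIntegral.intervalIntegrable_rpow' (by norm_num)
      rw [intervalIntegrable_iff_integrableOn_Ioo_of_le hr.le] at h2
      exact h2
  refine h1.congr_fun ?_ measurableSet_Ioo
  intro y hy
  have hy0 : 0 < y := hy.1
  simp only [Complex.finrank_real_complex, smul_eq_mul]
  have h3 : y ^ (2 - 1) = y ^ (1 : ℝ) := by simp
  rw [h3, ← Real.rpow_add hy0]
  norm_num

/-- the integral of a singular kernel over a ball, uniformly in the centre -/
theorem kern {k : ℂ → ℝ} (hk0 : ∀ u, 0 ≤ k u) (hk1 : ∀ u, 1 ≤ ‖u‖ → k u ≤ 1)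
    (hki : IntegrableOn k (ball (0 : ℂ) 1)) (hkm : Measurable k) (R : ℝ) (z : ℂ) :
    Integrable ((closedBall (0 : ℂ) R).indicator fun w => k (z - w)) ∧
    ∫ w, (closedBall (0 : ℂ) R).indicator (fun w => k (z - w)) w ≤
      (∫ u in ball (0 : ℂ) 1, k u) + (volume (closedBall (0 : ℂ) R)).toReal := by
  have h1 : Integrable ((ball (0 : ℂ) 1).indicator k) :=
    (integrable_indicator_iff measurableSet_ball).2 hki
  have h2 : Integrable (fun w : ℂ => (ball (0 : ℂ) 1).indicator k (z - w)) := h1.comp_sub_left z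
  have h3 : Integrable ((closedBall (0 : ℂ) R).indicator fun _ => (1 : ℝ)) :=
    (integrable_indicator_iff measurableSet_closedBall).2
      (integrableOn_const (isCompact_closedBall (0 : ℂ) R).measure_lt_top.ne)
  have hle : ∀ w, (closedBall (0 : ℂ) R).indicator (fun w => k (z - w)) w ≤
      (ball (0 : ℂ) 1).indicator k (z - w) + (closedBall (0 : ℂ) R).indicator (fun _ => (1 : ℝ)) w := by
    intro w
    have hn : 0 ≤ (ball (0 : ℂ) 1).indicator k (z - w) := indicator_nonneg (fun u _ => hk0 u) _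
    by_cases hw : w ∈ closedBall (0 : ℂ) R
    · rw [indicator_of_mem hw, indicator_of_mem hw]
      by_cases hz : z - w ∈ ball (0 : ℂ) 1
      · rw [indicator_of_mem hz]
        linarith
      · have h4 : 1 ≤ ‖z - w‖ := by simpa using hz
        have := hk1 _ h4
        linarith
    · rw [indicator_of_notMem hw, indicator_of_notMem hw]
      linarith
  have hnn : ∀ w, 0 ≤ (closedBall (0 : ℂ) R).indicator (fun w => k (z - w)) w :=
    fun w => indicator_nonneg (fun u _ => hk0 _) _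
  have hint : Integrable ((closedBall (0 : ℂ) R).indicator fun w => k (z - w)) := by
    refine (h2.add h3).mono' ?_ (Eventually.of_forall fun w => ?_)
    · apply Measurable.aestronglyMeasurable
      apply Measurable.indicator _ measurableSet_closedBall
      fun_prop
    · rw [Real.norm_of_nonneg (hnn w)]
      exact hle w
  refine ⟨hint, ?_⟩
  refine (integral_mono hint (h2.add h3) hle).trans ?_
  simp only [Pi.add_apply]
  rw [integral_add h2 h3, integral_sub_left_eq_self (fun w => (ball (0 : ℂ) 1).indicator k w) volume z,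
    integral_indicator measurableSet_ball, integral_indicator measurableSet_closedBall]
  simp [Measure.real]

theorem real_ineq {s t d : ℝ} (hs : 0 < s) (ht : 0 < t) (hd : 0 ≤ d) (h : d ≤ s + t) :
    d / (s * t) ≤ d ^ (1 / 2 : ℝ) * (s ^ (-(3 / 2) : ℝ) + t ^ (-(3 / 2) : ℝ)) := by
  obtain ⟨x, hx, hxs⟩ : ∃ x : ℝ, 0 < x ∧ s = x ^ 2 := ⟨√s, Real.sqrt_pos.2 hs, (Real.sq_sqrt hs.le).symm⟩
  obtain ⟨y, hy, hyt⟩ : ∃ y : ℝ, 0 < y ∧ t = y ^ 2 := ⟨√t, Real.sqrt_pos.2 ht, (Real.sq_sqrt ht.le).symm⟩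
  obtain ⟨D, hD, hDd⟩ : ∃ D : ℝ, 0 ≤ D ∧ d = D ^ 2 := ⟨√d, Real.sqrt_nonneg d, (Real.sq_sqrt hd).symm⟩
  have e1 : d ^ (1 / 2 : ℝ) = D := by
    rw [hDd, ← Real.sqrt_eq_rpow, Real.sqrt_sq hD]
  have e2 : ∀ {u v : ℝ}, 0 < v → u = v ^ 2 → u ^ (-(3 / 2) : ℝ) = (v ^ 3)⁻¹ := by
    intro u v hv huv
    rw [huv, ← Real.rpow_natCast v 2, ← Real.rpow_mul hv.le, ← Real.rpow_natCast v 3,
      ← Real.rpow_neg hv.le]
    norm_num
  rw [e1, e2 hx hxs, e2 hy hyt, hxs, hyt, hDd]
  have hDxy : D ≤ x + y := by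
    have : D ^ 2 ≤ (x + y) ^ 2 := by nlinarith
    exact (sq_le_sq₀ hD (by positivity)).1 this
  rw [div_le_iff₀ (by positivity)]
  have e3 : D * ((x ^ 3)⁻¹ + (y ^ 3)⁻¹) * (x ^ 2 * y ^ 2) = D * ((x ^ 3 + y ^ 3) / (x * y)) := by
    field_simp
    ring
  rw [e3, sq]
  apply mul_le_mul_of_nonneg_left _ hD
  rw [le_div_iff₀ (by positivity)]
  calc D * (x * y) ≤ (x + y) * (x * y) := by
        apply mul_le_mul_of_nonneg_right hDxy (by positivity)
    _ ≤ x ^ 3 + y ^ 3 := by nlinarith [mul_nonneg (add_nonneg hx.le hy.le) (sq_nonneg (x - y))]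

end BndAux

open BndAux

theorem pot_bound (R : ℝ) : ∃ C : ℝ, 0 ≤ C ∧ ∀ (φ : ℂ → ℂ) (M : ℝ), Continuous φ →
    (∀ z, R < ‖z‖ → φ z = 0) → (∀ z, ‖φ z‖ ≤ M) → ∀ z, ‖pot φ z‖ ≤ C * M := by
  have hk := fun z : ℂ => kern (k := fun u : ℂ => ‖u‖⁻¹) (fun u => by positivity)
    (fun u hu => inv_le_one_of_one_le₀ hu)
    (Pool.Agent.H761R2.SV.integrableOn_norm_inv 1) (by fun_prop) R z
  refine ⟨(∫ u in ball (0 : ℂ) 1, ‖u‖⁻¹) + (volume (closedBall (0 : ℂ) R)).toReal, ?_, ?_⟩
  · apply add_nonneg _ ENNReal.toReal_nonneg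
    apply integral_nonneg
    intro u
    positivity
  · intro φ M hφ h0 hM z
    have hM0 : 0 ≤ M := (norm_nonneg _).trans (hM 0)
    obtain ⟨h1, h2⟩ := hk z
    have h3 : ‖pot φ z‖ ≤ ∫ w, M * (closedBall (0 : ℂ) R).indicator (fun w => ‖z - w‖⁻¹) w := by
      unfold pot
      apply norm_integral_le_of_norm_le (h1.const_mul M)
      refine Eventually.of_forall fun w => ?_
      rw [norm_mul, norm_inv]
      by_cases hw : w ∈ closedBall (0 : ℂ) R
      · rw [indicator_of_mem hw]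
        exact mul_le_mul_of_nonneg_right (hM w) (by positivity)
      · rw [indicator_of_notMem hw, h0 w (by simpa using hw)]
        simp
    refine h3.trans ?_
    rw [integral_const_mul, mul_comm]
    exact mul_le_mul_of_nonneg_right h2 hM0

theorem pot_holder (R : ℝ) : ∃ C : ℝ, 0 ≤ C ∧ ∀ (φ : ℂ → ℂ) (M : ℝ), Continuous φ →
    (∀ z, R < ‖z‖ → φ z = 0) → (∀ z, ‖φ z‖ ≤ M) →
    ∀ z z', ‖pot φ z - pot φ z'‖ ≤ C * M * ‖z - z'‖ ^ (1 / 2 : ℝ) := by
  have hk := fun z : ℂ => kern (k := fun u : ℂ => ‖u‖ ^ (-(3 / 2) : ℝ)) (fun u => by positivity)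
    (fun u hu => Real.rpow_le_one_of_one_le_of_nonpos hu (by norm_num))
    (integrableOn_rpow 1) (by fun_prop) R z
  set C0 := (∫ u in ball (0 : ℂ) 1, ‖u‖ ^ (-(3 / 2) : ℝ)) + (volume (closedBall (0 : ℂ) R)).toReal
    with hC0
  have hC00 : 0 ≤ C0 := by
    apply add_nonneg _ ENNReal.toReal_nonneg
    apply integral_nonneg
    intro u
    positivity
  refine ⟨2 * C0, by positivity, ?_⟩
  intro φ M hφ h0 hM z z'
  have hM0 : 0 ≤ M := (norm_nonneg _).trans (hM 0)
  obtain ⟨h1, h2⟩ := hk z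
  obtain ⟨h1', h2'⟩ := hk z'
  have hcs := hcs h0
  have hi := Pool.Agent.H761R2.SV.integrable_mul_cauchy hφ hcs z
  have hi' := Pool.Agent.H761R2.SV.integrable_mul_cauchy hφ hcs z'
  have e1 : pot φ z - pot φ z' = ∫ w, (φ w * (z - w)⁻¹ - φ w * (z' - w)⁻¹) := by
    unfold pot
    rw [integral_sub hi hi']
  rw [e1]
  have h3 : ‖∫ w, (φ w * (z - w)⁻¹ - φ w * (z' - w)⁻¹)‖ ≤
      ∫ w, (M * ‖z - z'‖ ^ (1 / 2 : ℝ)) *
        ((closedBall (0 : ℂ) R).indicator (fun w => ‖z - w‖ ^ (-(3 / 2) : ℝ)) w +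
        (closedBall (0 : ℂ) R).indicator (fun w => ‖z' - w‖ ^ (-(3 / 2) : ℝ)) w) := by
    apply norm_integral_le_of_norm_le ((h1.add h1').const_mul _)
    have hz : ∀ᵐ w : ℂ, w ≠ z := by
      rw [ae_iff]; simp
    have hz' : ∀ᵐ w : ℂ, w ≠ z' := by
      rw [ae_iff]; simp
    filter_upwards [hz, hz'] with w hwz hwz'
    by_cases hw : w ∈ closedBall (0 : ℂ) R
    · rw [Pi.add_apply, indicator_of_mem hw, indicator_of_mem hw]
      have ha : z - w ≠ 0 := sub_ne_zero.2 hwz.symm
      have hb : z' - w ≠ 0 := sub_ne_zero.2 hwz'.symm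
      rw [← mul_sub, norm_mul, mul_assoc]
      have e2 : ‖(z - w)⁻¹ - (z' - w)⁻¹‖ = ‖z - z'‖ / (‖z - w‖ * ‖z' - w‖) := by
        rw [inv_sub_inv ha hb, norm_div, norm_mul]
        congr 1
        rw [← norm_neg]
        congr 1
        ring
      rw [e2]
      apply mul_le_mul (hM w) _ (by positivity) hM0
      apply real_ineq (norm_pos_iff.2 ha) (norm_pos_iff.2 hb) (norm_nonneg _)
      calc ‖z - z'‖ = ‖(z - w) - (z' - w)‖ := by congr 1; ring
        _ ≤ _ := norm_sub_le _ _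
    · rw [Pi.add_apply, indicator_of_notMem hw, indicator_of_notMem hw]
      rw [h0 w (by simpa using hw)]
      simp
  refine h3.trans ?_
  rw [integral_const_mul, integral_add h1 h1']
  have h4 : 0 ≤ M * ‖z - z'‖ ^ (1 / 2 : ℝ) := by positivity
  calc _ ≤ (M * ‖z - z'‖ ^ (1 / 2 : ℝ)) * (C0 + C0) :=
        mul_le_mul_of_nonneg_left (add_le_add h2 h2') h4
    _ = _ := by ring

theorem schur (R M : ℝ) : ∃ C : ℝ, 0 ≤ C ∧ ∀ (p q : ℂ → ℝ) (f : ℂ → ℂ), Den p → Den q →
    Continuous f → (∀ z, R < ‖z‖ → p z = 0) → (∀ z, R < ‖z‖ → q z = 0) →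
    (∀ z, p z ≤ M) → (∀ z, q z ≤ M) →
    ∫ z, p z * ‖pot (fun w => (q w : ℂ) * f w) z‖ ^ 2 ≤ C * ∫ z, q z * ‖f z‖ ^ 2 := by
  set g : ℂ → ℝ := (ball (0 : ℂ) (2 * R + 1)).indicator (fun u => ‖u‖⁻¹) with hg
  have hgi : Integrable g := (integrable_indicator_iff measurableSet_ball).2
    (Pool.Agent.H761R2.SV.integrableOn_norm_inv _)
  have hg0 : ∀ u, 0 ≤ g u := fun u => indicator_nonneg (fun u _ => by positivity) _
  set c1 : ℝ := ∫ u, g u with hc1
  have hc10 : 0 ≤ c1 := integral_nonneg hg0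
  have hgsym : ∀ u, g (-u) = g u := by
    intro u
    rw [hg]
    unfold indicator
    simp
  refine ⟨(|M| * c1 + 1) ^ 2, by positivity, ?_⟩
  intro p q f hp hq hf hpR hqR hpM hqM
  have hM0 : 0 ≤ M := (hp.nonneg 0).trans (hpM 0)
  rw [abs_of_nonneg hM0]
  set c : ℝ := M * c1 + 1 with hc
  have hcpos : 0 < c := by positivity
  set G : ℂ → ℝ := fun w => q w * ‖f w‖ ^ 2 with hG
  have hGc : Continuous G := hq.cont.mul (hf.norm.pow 2)
  have hGs : HasCompactSupport G := hq.supp.mul_right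
  have hGi : Integrable G := hGc.integrable_of_hasCompactSupport hGs
  have hG0 : ∀ w, 0 ≤ G w := fun w => mul_nonneg (hq.nonneg w) (by positivity)
  have hgz : ∀ z, Integrable (fun w => g (z - w)) := fun z => hgi.comp_sub_left z
  -- a bounded continuous function times the kernel
  have hbd : ∀ (F : ℂ → ℝ), Continuous F → HasCompactSupport F → ∀ z,
      Integrable (fun w => F w * g (z - w)) := by
    intro F hF hFs z
    obtain ⟨B, hB⟩ := hFs.exists_bound_of_continuous hF
    exact (hgz z).bdd_mul hF.aestronglyMeasurable (Eventually.of_forall hB)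
  have hqi := hbd q hq.cont hq.supp
  have hqfi := hbd (fun w => q w * ‖f w‖) (hq.cont.mul hf.norm) hq.supp.mul_right
  have hGgi := hbd G hGc hGs
  -- pointwise bound
  have hpt : ∀ z, ‖z‖ ≤ R → ‖pot (fun w => (q w : ℂ) * f w) z‖ ^ 2 ≤ c * ∫ w, G w * g (z - w) := by
    intro z hz
    set X : ℝ := ∫ w, q w * ‖f w‖ * g (z - w) with hX
    have hX1 : ‖pot (fun w => (q w : ℂ) * f w) z‖ ≤ X := by
      unfold pot
      apply norm_integral_le_of_norm_le (hqfi z)
      refine Eventually.of_forall fun w => ?_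
      rw [norm_mul, norm_mul, norm_inv, Complex.norm_real, Real.norm_of_nonneg (hq.nonneg w)]
      rcases lt_or_ge R ‖w‖ with hw | hw
      · rw [hqR w hw]
        simp
      · have hmem : z - w ∈ ball (0 : ℂ) (2 * R + 1) := by
          rw [mem_ball_zero_iff]
          have := norm_sub_le z w
          linarith
        rw [hg, indicator_of_mem hmem]
    have hX0 : 0 ≤ X := (norm_nonneg _).trans hX1
    have hA : ∫ w, q w * g (z - w) ≤ M * c1 := by
      calc ∫ w, q w * g (z - w) ≤ ∫ w, M * g (z - w) :=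
            integral_mono (hqi z) ((hgz z).const_mul M)
              fun w => mul_le_mul_of_nonneg_right (hqM w) (hg0 _)
        _ = M * c1 := by
            rw [integral_const_mul, integral_sub_left_eq_self g volume z]
    set H : ℝ := ∫ w, G w * g (z - w) with hH
    have hl : 2 * (X / c) * X ≤ (X / c) ^ 2 * c + H := by
      set l := X / c with hl
      have h1 : 2 * l * X = ∫ w, 2 * l * (q w * ‖f w‖ * g (z - w)) := by
        rw [integral_const_mul]
      have h2 : ∫ w, 2 * l * (q w * ‖f w‖ * g (z - w)) ≤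
          ∫ w, (l ^ 2 * (q w * g (z - w)) + G w * g (z - w)) := by
        apply integral_mono ((hqfi z).const_mul _) (((hqi z).const_mul _).add (hGgi z))
        intro w
        show 2 * l * (q w * ‖f w‖ * g (z - w)) ≤ l ^ 2 * (q w * g (z - w)) + q w * ‖f w‖ ^ 2 * g (z - w)
        have h3 : 0 ≤ q w * g (z - w) := mul_nonneg (hq.nonneg w) (hg0 _)
        nlinarith [mul_nonneg h3 (sq_nonneg (l - ‖f w‖))]
      rw [h1]
      refine h2.trans ?_
      rw [integral_add ((hqi z).const_mul _) (hGgi z), integral_const_mul]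
      have h4 : l ^ 2 * ∫ w, q w * g (z - w) ≤ l ^ 2 * c := by
        apply mul_le_mul_of_nonneg_left _ (sq_nonneg _)
        linarith
      linarith
    have e1 : (X / c) ^ 2 * c = X ^ 2 / c := by field_simp
    have e2 : 2 * (X / c) * X = 2 * (X ^ 2 / c) := by ring
    rw [e1, e2] at hl
    have h5 : X ^ 2 / c ≤ H := by linarith
    rw [div_le_iff₀ hcpos] at h5
    calc ‖pot (fun w => (q w : ℂ) * f w) z‖ ^ 2 ≤ X ^ 2 := by
          exact pow_le_pow_left₀ (norm_nonneg _) hX1 2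
      _ ≤ c * H := by linarith
  -- Fubini
  have hprod : Integrable (fun x : ℂ × ℂ => G x.2 * g (x.1 - x.2)) (volume.prod volume) := by
    have := hGi.convolution_integrand (ContinuousLinearMap.mul ℝ ℝ) hgi
    simpa using this
  have hprod2 : Integrable (fun x : ℂ × ℂ => p x.1 * (G x.2 * g (x.1 - x.2)))
      (volume.prod volume) := by
    obtain ⟨B, hB⟩ := hp.supp.exists_bound_of_continuous hp.cont
    exact hprod.bdd_mul (hp.cont.comp continuous_fst).aestronglyMeasurable
      (Eventually.of_forall fun x => hB x.1)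
  have hH : Integrable (fun z => ∫ w, p z * (G w * g (z - w))) := hprod2.integral_prod_left
  have hswap : ∫ z, ∫ w, p z * (G w * g (z - w)) = ∫ w, ∫ z, p z * (G w * g (z - w)) :=
    integral_integral_swap (f := fun z w => p z * (G w * g (z - w))) hprod2
  have hfin : ∫ w, ∫ z, p z * (G w * g (z - w)) ≤ ∫ w, c * G w := by
    apply integral_mono hprod2.swap.integral_prod_left (hGi.const_mul c)
    intro w
    show ∫ z, p z * (G w * g (z - w)) ≤ c * G w
    have h1 : ∀ z, p z * (G w * g (z - w)) = G w * (p z * g (w - z)) := by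
      intro z
      rw [← hgsym (z - w), neg_sub]
      ring
    simp_rw [h1]
    rw [integral_const_mul, mul_comm]
    apply mul_le_mul_of_nonneg_right _ (hG0 w)
    calc ∫ z, p z * g (w - z) ≤ ∫ z, M * g (w - z) :=
          integral_mono (hbd p hp.cont hp.supp w) ((hgz w).const_mul M)
            fun z => mul_le_mul_of_nonneg_right (hpM z) (hg0 _)
      _ = M * c1 := by
          rw [integral_const_mul, integral_sub_left_eq_self g volume w]
      _ ≤ c := by linarith
  have hmain : ∫ z, p z * ‖pot (fun w => (q w : ℂ) * f w) z‖ ^ 2 ≤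
      ∫ z, c * ∫ w, p z * (G w * g (z - w)) := by
    apply integral_mono_of_nonneg
    · exact Eventually.of_forall fun z => mul_nonneg (hp.nonneg z) (by positivity)
    · exact hH.const_mul c
    · refine Eventually.of_forall fun z => ?_
      show p z * ‖pot (fun w => (q w : ℂ) * f w) z‖ ^ 2 ≤ c * ∫ w, p z * (G w * g (z - w))
      rw [integral_const_mul]
      rcases lt_or_ge R ‖z‖ with hz | hz
      · rw [hpR z hz]
        simp
      · calc p z * ‖pot (fun w => (q w : ℂ) * f w) z‖ ^ 2 ≤ p z * (c * ∫ w, G w * g (z - w)) :=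
              mul_le_mul_of_nonneg_left (hpt z hz) (hp.nonneg z)
          _ = _ := by ring
  rw [integral_const_mul, hswap] at hmain
  calc _ ≤ c * ∫ w, ∫ z, p z * (G w * g (z - w)) := hmain
    _ ≤ c * ∫ w, c * G w := mul_le_mul_of_nonneg_left hfin hcpos.le
    _ = c ^ 2 * ∫ z, q z * ‖f z‖ ^ 2 := by
        rw [integral_const_mul]
        ring

end Pool.Agent.H352R3.SA
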