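import Pool.Agent.H352R3.SA.Pot
import Pool.Agent.H352R3.SA.Bnd
import Pool.Agent.H352R3.SA.Ene

/-!
# Module OPR: existence and differentiability of the solutions (Fredholm alternative)
-/

set_option autoImplicit false

open MeasureTheory Complex Filter Topology
open scoped ComplexConjugate BoundedContinuousFunction

namespace Pool.Agent.H352R3.SA

namespace OprAux

/-- a continuous function with compact support lives in a ball -/
theorem exists_radius {g : ℂ → ℝ} (cg : HasCompactSupport g) :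
    ∃ R : ℝ, 0 < R ∧ ∀ z, R < ‖z‖ → g z = 0 := by
  obtain ⟨R, hR⟩ := cg.isCompact.isBounded.subset_closedBall (0 : ℂ)
  refine ⟨max R 1, lt_of_lt_of_le one_pos (le_max_right _ _), fun z hz => ?_⟩
  by_contra hne
  have h1 : z ∈ tsupport g := subset_tsupport g hne
  have h2 := hR h1
  rw [Metric.mem_closedBall, dist_zero_right] at h2
  exact absurd (h2.trans (le_max_left R 1)) (not_le.2 hz)

theorem exists_bound {g : ℂ → ℝ} (hg : Continuous g) (cg : HasCompactSupport g) :
    ∃ G : ℝ, 0 ≤ G ∧ ∀ z, |g z| ≤ G := by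
  obtain ⟨G, hG⟩ := hg.bounded_above_of_compact_support cg
  exact ⟨G, (norm_nonneg _).trans (hG 0), fun z => hG z⟩

theorem dens_cont {g : ℂ → ℝ} (hg : Continuous g) {f : ℂ → ℂ} (hf : Continuous f) :
    Continuous (fun w => (g w : ℂ) * conj (f w)) :=
  (Complex.continuous_ofReal.comp hg).mul (Complex.continuous_conj.comp hf)

theorem dens_supp {g : ℂ → ℝ} (cg : HasCompactSupport g) (f : ℂ → ℂ) :
    HasCompactSupport (fun w => (g w : ℂ) * conj (f w)) := by
  have h1 : HasCompactSupport (fun w => (g w : ℂ)) := cg.comp_left (g := fun x : ℝ => (x : ℂ))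
    Complex.ofReal_zero
  exact h1.mul_right

theorem cop_add_f {g : ℂ → ℝ} (hg : Continuous g) (cg : HasCompactSupport g) {f₁ f₂ : ℂ → ℂ}
    (h₁ : Continuous f₁) (h₂ : Continuous f₂) (z : ℂ) :
    cop g (fun w => f₁ w + f₂ w) z = cop g f₁ z + cop g f₂ z := by
  unfold cop pot
  rw [← neg_add, ← integral_add (pot_integrable (dens_cont hg h₁) (dens_supp cg f₁) z)
    (pot_integrable (dens_cont hg h₂) (dens_supp cg f₂) z)]
  congr 1
  apply integral_congr_ae
  filter_upwards with w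
  rw [map_add]
  ring

theorem cop_smul_f (g : ℂ → ℝ) (c : ℝ) (f : ℂ → ℂ) (z : ℂ) :
    cop g (fun w => (c : ℂ) * f w) z = (c : ℂ) * cop g f z := by
  unfold cop pot
  rw [mul_neg, ← integral_const_mul]
  congr 1
  apply integral_congr_ae
  filter_upwards with w
  rw [map_mul, Complex.conj_ofReal]
  ring

theorem cop_add_g {g h : ℂ → ℝ} (hg : Continuous g) (cg : HasCompactSupport g)
    (hh : Continuous h) (ch : HasCompactSupport h) {f : ℂ → ℂ}
    (hf : Continuous f) (τ : ℝ) (z : ℂ) :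
    cop (fun w => g w + τ * h w) f z = cop g f z + (τ : ℂ) * cop h f z := by
  unfold cop pot
  rw [mul_neg, ← integral_const_mul, ← neg_add,
    ← integral_add (pot_integrable (dens_cont hg hf) (dens_supp cg f) z)
    ((pot_integrable (dens_cont hh hf) (dens_supp ch f) z).const_mul _)]
  congr 1
  apply integral_congr_ae
  filter_upwards with w
  push_cast
  ring

/-- `cop g f` only depends on the values of `f` where `g ≠ 0` -/
theorem cop_congr {g : ℂ → ℝ} {f f' : ℂ → ℂ} (h : ∀ w, g w ≠ 0 → f w = f' w) (z : ℂ) :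
    cop g f z = cop g f' z := by
  unfold cop pot
  congr 1
  apply integral_congr_ae
  filter_upwards with w
  by_cases hw : g w = 0
  · simp [hw]
  · rw [h w hw]

/-- sup bound -/
theorem cop_bound {g : ℂ → ℝ} (hg : Continuous g) (cg : HasCompactSupport g) :
    ∃ C : ℝ, 0 ≤ C ∧ ∀ (f : ℂ → ℂ) (M : ℝ), Continuous f → (∀ z, g z ≠ 0 → ‖f z‖ ≤ M) → 0 ≤ M →
      ∀ z, ‖cop g f z‖ ≤ C * M := by
  obtain ⟨R, _, hR⟩ := exists_radius cg
  obtain ⟨G, hG0, hG⟩ := exists_bound hg cg
  obtain ⟨C, hC0, hC⟩ := pot_bound R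
  refine ⟨C * G, mul_nonneg hC0 hG0, fun f M hf hM hM0 z => ?_⟩
  unfold cop
  rw [norm_neg, mul_assoc]
  apply hC _ _ (dens_cont hg hf)
  · intro w hw
    rw [hR w hw]
    simp
  · intro w
    by_cases hw : g w = 0
    · rw [hw]
      simp only [Complex.ofReal_zero, zero_mul, norm_zero]
      exact mul_nonneg hG0 hM0
    · rw [norm_mul, RCLike.norm_conj, Complex.norm_real, Real.norm_eq_abs]
      exact mul_le_mul (hG w) (hM w hw) (norm_nonneg _) hG0

/-- Hoelder bound -/
theorem cop_holder {g : ℂ → ℝ} (hg : Continuous g) (cg : HasCompactSupport g) :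
    ∃ C : ℝ, 0 ≤ C ∧ ∀ (f : ℂ → ℂ), Continuous f → (∀ z, ‖f z‖ ≤ 1) →
      ∀ z z', ‖cop g f z - cop g f z'‖ ≤ C * ‖z - z'‖ ^ (1 / 2 : ℝ) := by
  obtain ⟨R, _, hR⟩ := exists_radius cg
  obtain ⟨G, hG0, hG⟩ := exists_bound hg cg
  obtain ⟨C, hC0, hC⟩ := pot_holder R
  refine ⟨C * G, mul_nonneg hC0 hG0, fun f hf hM z z' => ?_⟩
  unfold cop
  rw [neg_sub_neg, norm_sub_rev]
  apply hC _ _ (dens_cont hg hf)
  · intro w hw
    rw [hR w hw]
    simp
  · intro w
    rw [norm_mul, RCLike.norm_conj, Complex.norm_real, Real.norm_eq_abs]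
    calc |g w| * ‖f w‖ ≤ G * 1 := mul_le_mul (hG w) (hM w) (norm_nonneg _) hG0
      _ = G := mul_one G

/-- `cop g` on bounded continuous functions -/
noncomputable def copF (g : ℂ → ℝ) (hg : Continuous g) (cg : HasCompactSupport g) (u : ℂ →ᵇ ℂ) :
    ℂ →ᵇ ℂ :=
  BoundedContinuousFunction.ofNormedAddCommGroup (cop g u) (cop_continuous hg cg u.continuous)
    ((cop_bound hg cg).choose * ‖u‖) fun z =>
      (cop_bound hg cg).choose_spec.2 u ‖u‖ u.continuous (fun z _ => u.norm_coe_le_norm z)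
        (norm_nonneg _) z

@[simp] theorem copF_apply (g : ℂ → ℝ) (hg : Continuous g) (cg : HasCompactSupport g) (u : ℂ →ᵇ ℂ)
    (z : ℂ) : copF g hg cg u z = cop g u z := rfl

/-- `cop g` as a continuous real linear operator -/
noncomputable def copL (g : ℂ → ℝ) (hg : Continuous g) (cg : HasCompactSupport g) :
    (ℂ →ᵇ ℂ) →L[ℝ] (ℂ →ᵇ ℂ) :=
  LinearMap.mkContinuous
    { toFun := copF g hg cg
      map_add' := fun u v => by
        ext z
        exact cop_add_f hg cg u.continuous v.continuous z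
      map_smul' := fun c u => by
        ext z
        have := cop_smul_f g c u z
        simp only [copF_apply, RingHom.id_apply, BoundedContinuousFunction.coe_smul,
          Complex.real_smul] at this ⊢
        exact this }
    (cop_bound hg cg).choose fun u =>
      BoundedContinuousFunction.norm_ofNormedAddCommGroup_le _
        (mul_nonneg (cop_bound hg cg).choose_spec.1 (norm_nonneg _)) fun z =>
        (cop_bound hg cg).choose_spec.2 u ‖u‖ u.continuous (fun z _ => u.norm_coe_le_norm z)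
          (norm_nonneg _) z

@[simp] theorem copL_apply (g : ℂ → ℝ) (hg : Continuous g) (cg : HasCompactSupport g) (u : ℂ →ᵇ ℂ)
    (z : ℂ) : copL g hg cg u z = cop g u z := rfl

/-- the operator `(u, v) ↦ (cop g v, cop g u)` -/
noncomputable def AA (g : ℂ → ℝ) (hg : Continuous g) (cg : HasCompactSupport g) : Y →L[ℝ] Y :=
  ((copL g hg cg).comp (ContinuousLinearMap.snd ℝ _ _)).prod
    ((copL g hg cg).comp (ContinuousLinearMap.fst ℝ _ _))

theorem AA_fst (g : ℂ → ℝ) (hg : Continuous g) (cg : HasCompactSupport g) (p : Y) (z : ℂ) :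
    (AA g hg cg p).1 z = cop g p.2 z := rfl

theorem AA_snd (g : ℂ → ℝ) (hg : Continuous g) (cg : HasCompactSupport g) (p : Y) (z : ℂ) :
    (AA g hg cg p).2 z = cop g p.1 z := rfl

theorem sol_iff {g : ℂ → ℝ} (hg : Continuous g) (cg : HasCompactSupport g) (s t : ℂ →ᵇ ℂ) (p : Y) :
    Sol g s t p.1 p.2 ↔ (1 - AA g hg cg) p = (s, t) := by
  constructor
  · intro h
    have h1 : p - AA g hg cg p = (s, t) := by
      apply Prod.ext
      · ext z
        have := h.eL z
        have e : (p - AA g hg cg p).1 z = p.1 z - cop g p.2 z := rfl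
        rw [e, this]
        simp
      · ext z
        have := h.eK z
        have e : (p - AA g hg cg p).2 z = p.2 z - cop g p.1 z := rfl
        rw [e, this]
        simp
    exact h1
  · intro h
    have h1 : p - AA g hg cg p = (s, t) := h
    refine ⟨p.1.continuous, p.2.continuous, fun z => ?_, fun z => ?_⟩
    · have e : (p - AA g hg cg p).1 z = p.1 z - cop g p.2 z := rfl
      rw [h1] at e
      simp only at e
      rw [e]
      ring
    · have e : (p - AA g hg cg p).2 z = p.2 z - cop g p.1 z := rfl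
      rw [h1] at e
      simp only at e
      rw [e]
      ring

/-! ### The compact ball -/

/-- the retraction to the ball of radius `R` -/
noncomputable def ret (R : ℝ) (hR : 0 < R) : C(ℂ, Metric.closedBall (0 : ℂ) R) where
  toFun z := ⟨((R / max R ‖z‖ : ℝ) : ℂ) * z, by
    rw [Metric.mem_closedBall, dist_zero_right, norm_mul, Complex.norm_real, Real.norm_eq_abs,
      abs_of_nonneg (div_nonneg hR.le (hR.le.trans (le_max_left _ _)))]
    rw [div_mul_eq_mul_div, div_le_iff₀ (lt_of_lt_of_le hR (le_max_left _ _))]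
    exact mul_le_mul_of_nonneg_left (le_max_right _ _) hR.le⟩
  continuous_toFun := by
    apply Continuous.subtype_mk
    refine Continuous.mul (Complex.continuous_ofReal.comp ?_) continuous_id
    apply Continuous.div continuous_const (continuous_const.max continuous_norm)
    intro z
    exact (lt_of_lt_of_le hR (le_max_left _ _)).ne'

theorem ret_of_le {R : ℝ} (hR : 0 < R) {z : ℂ} (hz : ‖z‖ ≤ R) : (ret R hR z : ℂ) = z := by
  change ((R / max R ‖z‖ : ℝ) : ℂ) * z = z
  rw [max_eq_left hz, div_self hR.ne']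
  simp

/-- extension from the ball -/
noncomputable def ext1 (R : ℝ) (hR : 0 < R) :
    (Metric.closedBall (0 : ℂ) R →ᵇ ℂ) →L[ℝ] (ℂ →ᵇ ℂ) :=
  LinearMap.mkContinuous
    { toFun := fun f => f.compContinuous (ret R hR)
      map_add' := fun f h => by ext z; rfl
      map_smul' := fun c f => by ext z; rfl } 1 fun f => by
        rw [one_mul]
        exact f.norm_compContinuous_le (ret R hR)

/-- restriction to the ball -/
noncomputable def res1 (R : ℝ) : (ℂ →ᵇ ℂ) →L[ℝ] (Metric.closedBall (0 : ℂ) R →ᵇ ℂ) :=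
  LinearMap.mkContinuous
    { toFun := fun f => f.compContinuous ⟨Subtype.val, continuous_subtype_val⟩
      map_add' := fun f h => by ext z; rfl
      map_smul' := fun c f => by ext z; rfl } 1 fun f => by
        rw [one_mul]
        exact f.norm_compContinuous_le _

/-- the operator on the ball -/
noncomputable def T1 (R : ℝ) (hR : 0 < R) (g : ℂ → ℝ) (hg : Continuous g)
    (cg : HasCompactSupport g) :
    (Metric.closedBall (0 : ℂ) R →ᵇ ℂ) →L[ℝ] (Metric.closedBall (0 : ℂ) R →ᵇ ℂ) :=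
  (res1 R).comp ((copL g hg cg).comp (ext1 R hR))

theorem T1_compact (R : ℝ) (hR : 0 < R) (g : ℂ → ℝ) (hg : Continuous g)
    (cg : HasCompactSupport g) : IsCompactOperator (T1 R hR g hg cg) := by
  have : CompactSpace (Metric.closedBall (0 : ℂ) R) :=
    isCompact_iff_compactSpace.1 (isCompact_closedBall 0 R)
  refine (isCompactOperator_iff_isCompact_closure_image_closedBall
    (T1 R hR g hg cg).toLinearMap one_pos).2 ?_
  obtain ⟨C, hC0, hC⟩ := cop_bound hg cg
  obtain ⟨C', hC0', hC'⟩ := cop_holder hg cg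
  have hnorm : ∀ u : (Metric.closedBall (0 : ℂ) R →ᵇ ℂ), u ∈ Metric.closedBall 0 1 →
      ∀ z, ‖ext1 R hR u z‖ ≤ 1 := by
    intro u hu z
    have h1 : ‖u‖ ≤ 1 := by simpa using hu
    exact (u.norm_coe_le_norm _).trans h1
  refine BoundedContinuousFunction.arzela_ascoli (Metric.closedBall (0 : ℂ) C)
    (isCompact_closedBall 0 C) _ ?_ ?_
  · rintro f x ⟨u, hu, rfl⟩
    rw [Metric.mem_closedBall, dist_zero_right]
    have h1 := hC (ext1 R hR u) 1 (ext1 R hR u).continuous (fun z _ => hnorm u hu z) zero_le_one x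
    rw [mul_one] at h1
    exact h1
  · refine Metric.equicontinuous_of_continuity_modulus (fun r => C' * r ^ (1 / 2 : ℝ)) ?_ _ ?_
    · have h1 : Tendsto (fun r : ℝ => C' * r ^ (1 / 2 : ℝ)) (𝓝 0) (𝓝 (C' * 0 ^ (1 / 2 : ℝ))) :=
        ((Real.continuousAt_rpow_const 0 (1 / 2) (Or.inr (by norm_num))).tendsto).const_mul C'
      rw [Real.zero_rpow (by norm_num), mul_zero] at h1
      exact h1
    · rintro x y ⟨f, u, hu, rfl⟩
      rw [dist_eq_norm, Subtype.dist_eq, dist_eq_norm]
      exact hC' (ext1 R hR u) (ext1 R hR u).continuous (hnorm u hu) x y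

theorem one_sub_injective {g : ℂ → ℝ} (hg : Den g) {p : Y}
    (h : (1 - AA g hg.cont hg.supp) p = 0) : p = 0 := by
  have h1 : Sol g (0 : ℂ →ᵇ ℂ) (0 : ℂ →ᵇ ℂ) p.1 p.2 := (sol_iff hg.cont hg.supp 0 0 p).2 h
  have h2 : Sol g (0 : ℂ →ᵇ ℂ) (0 : ℂ →ᵇ ℂ) (0 : Y).1 (0 : Y).2 :=
    (sol_iff hg.cont hg.supp 0 0 0).2 (map_zero _)
  obtain ⟨h3, h4⟩ := sol_unique hg h1 h2
  exact Prod.ext (DFunLike.coe_injective h3) (DFunLike.coe_injective h4)

/-- `1 - AA g` is invertible -/
theorem isUnit_one_sub {g : ℂ → ℝ} (hg : Den g) :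
    IsUnit (1 - AA g hg.cont hg.supp : Y →L[ℝ] Y) := by
  obtain ⟨R, hR, hgR⟩ := exists_radius hg.supp
  have : CompactSpace (Metric.closedBall (0 : ℂ) R) :=
    isCompact_iff_compactSpace.1 (isCompact_closedBall 0 R)
  let Z := (Metric.closedBall (0 : ℂ) R →ᵇ ℂ) × (Metric.closedBall (0 : ℂ) R →ᵇ ℂ)
  set A := AA g hg.cont hg.supp with hA
  let E : Z →L[ℝ] Y := (ext1 R hR).prodMap (ext1 R hR)
  let Q : Y →L[ℝ] Z := (res1 R).prodMap (res1 R)
  let P : Z →L[ℝ] Y := A.comp E
  have hgn : ∀ w, g w ≠ 0 → ‖w‖ ≤ R := by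
    intro w hw
    by_contra h
    exact hw (hgR w (not_le.1 h))
  have hPQ : ∀ p : Y, P (Q p) = A p := by
    intro p
    apply Prod.ext
    · ext z
      change cop g (fun w => p.2 (ret R hR w)) z = cop g p.2 z
      exact cop_congr (fun w hw => by rw [ret_of_le hR (hgn w hw)]) z
    · ext z
      change cop g (fun w => p.1 (ret R hR w)) z = cop g p.1 z
      exact cop_congr (fun w hw => by rw [ret_of_le hR (hgn w hw)]) z
  let T : Z →L[ℝ] Z := Q.comp P
  have hTc : IsCompactOperator T := by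
    have h1 := T1_compact R hR g hg.cont hg.supp
    have h2 := (h1.comp_clm (ContinuousLinearMap.snd ℝ (Metric.closedBall (0 : ℂ) R →ᵇ ℂ)
      (Metric.closedBall (0 : ℂ) R →ᵇ ℂ))).clm_comp
      (ContinuousLinearMap.inl ℝ (Metric.closedBall (0 : ℂ) R →ᵇ ℂ)
      (Metric.closedBall (0 : ℂ) R →ᵇ ℂ))
    have h3 := (h1.comp_clm (ContinuousLinearMap.fst ℝ (Metric.closedBall (0 : ℂ) R →ᵇ ℂ)
      (Metric.closedBall (0 : ℂ) R →ᵇ ℂ))).clm_comp
      (ContinuousLinearMap.inr ℝ (Metric.closedBall (0 : ℂ) R →ᵇ ℂ)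
      (Metric.closedBall (0 : ℂ) R →ᵇ ℂ))
    have h4 := h2.add h3
    have h5 : (T : Z → Z) = (⇑(ContinuousLinearMap.inl ℝ (Metric.closedBall (0 : ℂ) R →ᵇ ℂ)
      (Metric.closedBall (0 : ℂ) R →ᵇ ℂ)) ∘ (⇑(T1 R hR g hg.cont hg.supp) ∘
      ⇑(ContinuousLinearMap.snd ℝ (Metric.closedBall (0 : ℂ) R →ᵇ ℂ)
      (Metric.closedBall (0 : ℂ) R →ᵇ ℂ)))) +
      (⇑(ContinuousLinearMap.inr ℝ (Metric.closedBall (0 : ℂ) R →ᵇ ℂ)
      (Metric.closedBall (0 : ℂ) R →ᵇ ℂ)) ∘ (⇑(T1 R hR g hg.cont hg.supp) ∘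
      ⇑(ContinuousLinearMap.fst ℝ (Metric.closedBall (0 : ℂ) R →ᵇ ℂ)
      (Metric.closedBall (0 : ℂ) R →ᵇ ℂ)))) := by
      funext q
      apply Prod.ext
      · change T1 R hR g hg.cont hg.supp q.2 = T1 R hR g hg.cont hg.supp q.2 + 0
        rw [add_zero]
      · change T1 R hR g hg.cont hg.supp q.1 = 0 + T1 R hR g hg.cont hg.supp q.1
        rw [zero_add]
    rw [h5]
    exact h4
  have hne : ¬ Module.End.HasEigenvalue (T : Module.End ℝ Z) 1 := by
    intro h
    obtain ⟨q, hq⟩ := h.exists_hasEigenvector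
    have h1 : T q = q := by
      have := hq.apply_eq_smul
      rw [one_smul] at this
      exact this
    have h2 : Q (P q) = q := h1
    have h3 : A (P q) = P q := by
      have := hPQ (P q)
      rw [h2] at this
      exact this.symm
    have h4 : P q = 0 := by
      apply one_sub_injective hg
      change P q - A (P q) = 0
      rw [h3, sub_self]
    apply hq.2
    rw [← h2, h4, map_zero]
  have hres := (hTc.hasEigenvalue_or_mem_resolventSet one_ne_zero).resolve_left hne
  rw [spectrum.mem_resolventSet_iff, ContinuousLinearMap.isUnit_iff_bijective] at hres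
  rw [ContinuousLinearMap.isUnit_iff_bijective]
  constructor
  · rw [injective_iff_map_eq_zero]
    exact fun p hp => one_sub_injective hg hp
  · intro σ
    obtain ⟨q, hq⟩ := hres.2 (Q σ)
    have h1 : q - T q = Q σ := by
      rw [← hq]
      simp [sub_apply]
    refine ⟨σ + P q, ?_⟩
    change (σ + P q) - A (σ + P q) = σ
    rw [← hPQ, map_add Q]
    have h2 : Q (P q) = T q := rfl
    rw [h2, ← h1, sub_add_cancel, add_sub_cancel_right]

/-- solutions are given by the inverse -/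
theorem eq_inverse {g : ℂ → ℝ} (hg : Den g) {p σ : Y} (h : (1 - AA g hg.cont hg.supp) p = σ) :
    p = Ring.inverse (1 - AA g hg.cont hg.supp) σ := by
  rw [← h]
  change p = (Ring.inverse (1 - AA g hg.cont hg.supp) * (1 - AA g hg.cont hg.supp)) p
  rw [Ring.inverse_mul_cancel _ (isUnit_one_sub hg)]
  rfl

theorem inverse_sol {g : ℂ → ℝ} (hg : Den g) (σ : Y) :
    (1 - AA g hg.cont hg.supp) (Ring.inverse (1 - AA g hg.cont hg.supp) σ) = σ := by
  change ((1 - AA g hg.cont hg.supp) * Ring.inverse (1 - AA g hg.cont hg.supp)) σ = σ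
  rw [Ring.mul_inverse_cancel _ (isUnit_one_sub hg)]
  rfl

theorem den_add {g h : ℂ → ℝ} (hg : Den g) (hh : Den h) {t : ℝ} (ht : 0 ≤ t) :
    Den (fun z => g z + t * h z) :=
  ⟨hg.cont.add (continuous_const.mul hh.cont), hg.supp.add (hh.supp.mul_left),
    fun z => add_nonneg (hg.nonneg z) (mul_nonneg ht (hh.nonneg z))⟩

theorem AA_add {g h : ℂ → ℝ} (hg : Den g) (hh : Den h) {t : ℝ} (ht : 0 ≤ t) :
    AA (fun z => g z + t * h z) (den_add hg hh ht).cont (den_add hg hh ht).supp =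
      AA g hg.cont hg.supp + t • AA h hh.cont hh.supp := by
  apply ContinuousLinearMap.ext
  intro p
  apply Prod.ext
  · ext z
    change cop (fun z => g z + t * h z) p.2 z = cop g p.2 z + t • cop h p.2 z
    rw [cop_add_g hg.cont hg.supp hh.cont hh.supp p.2.continuous, Complex.real_smul]
  · ext z
    change cop (fun z => g z + t * h z) p.1 z = cop g p.1 z + t • cop h p.1 z
    rw [cop_add_g hg.cont hg.supp hh.cont hh.supp p.1.continuous, Complex.real_smul]

end OprAux

open OprAux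

theorem sol_exists {g : ℂ → ℝ} (hg : Den g) (s t : ℂ →ᵇ ℂ) : ∃ p : Y, Sol g s t p.1 p.2 :=
  ⟨Ring.inverse (1 - AA g hg.cont hg.supp) (s, t),
    (sol_iff hg.cont hg.supp s t _).2 (inverse_sol hg _)⟩

theorem sol_bound {g : ℂ → ℝ} (hg : Den g) : ∃ C : ℝ, 0 ≤ C ∧ ∀ (s t L K : ℂ → ℂ) (M : ℝ),
    Sol g s t L K → (∀ z, ‖s z‖ ≤ M) → (∀ z, ‖t z‖ ≤ M) →
    ∀ z, ‖L z‖ ≤ C * M ∧ ‖K z‖ ≤ C * M := by
  refine ⟨‖Ring.inverse (1 - AA g hg.cont hg.supp)‖, norm_nonneg _, ?_⟩
  intro s t L K M h hs ht z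
  have hM : 0 ≤ M := (norm_nonneg _).trans (hs 0)
  have cs : Continuous s := by
    have : s = fun z => L z - cop g K z := by
      funext z
      rw [h.eL z]
      ring
    rw [this]
    exact h.cL.sub (cop_continuous hg.cont hg.supp h.cK)
  have ct : Continuous t := by
    have : t = fun z => K z - cop g L z := by
      funext z
      rw [h.eK z]
      ring
    rw [this]
    exact h.cK.sub (cop_continuous hg.cont hg.supp h.cL)
  -- bounds for continuous functions
  have hb : ∀ f : ℂ → ℂ, Continuous f → ∃ B : ℝ, 0 ≤ B ∧ ∀ z, g z ≠ 0 → ‖f z‖ ≤ B := by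
    intro f hf
    obtain ⟨B, hB⟩ := hg.supp.isCompact.exists_bound_of_continuousOn hf.continuousOn
    exact ⟨max B 0, le_max_right _ _, fun z hz =>
      (hB z (subset_tsupport g hz)).trans (le_max_left _ _)⟩
  obtain ⟨C, hC0, hC⟩ := cop_bound hg.cont hg.supp
  obtain ⟨BK, hBK0, hBK⟩ := hb K h.cK
  obtain ⟨BL, hBL0, hBL⟩ := hb L h.cL
  let sB : ℂ →ᵇ ℂ := BoundedContinuousFunction.ofNormedAddCommGroup s cs M hs
  let tB : ℂ →ᵇ ℂ := BoundedContinuousFunction.ofNormedAddCommGroup t ct M ht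
  let LB : ℂ →ᵇ ℂ := BoundedContinuousFunction.ofNormedAddCommGroup L h.cL (M + C * BK) fun z => by
    rw [h.eL z]
    exact (norm_add_le _ _).trans (add_le_add (hs z) (hC K BK h.cK hBK hBK0 z))
  let KB : ℂ →ᵇ ℂ := BoundedContinuousFunction.ofNormedAddCommGroup K h.cK (M + C * BL) fun z => by
    rw [h.eK z]
    exact (norm_add_le _ _).trans (add_le_add (ht z) (hC L BL h.cL hBL hBL0 z))
  have h1 : Sol g sB tB (LB, KB).1 (LB, KB).2 := h
  have h2 := eq_inverse hg ((sol_iff hg.cont hg.supp sB tB (LB, KB)).1 h1)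
  have h3 : ‖((LB, KB) : Y)‖ ≤ ‖Ring.inverse (1 - AA g hg.cont hg.supp)‖ * M := by
    rw [h2]
    refine (ContinuousLinearMap.le_opNorm _ _).trans ?_
    apply mul_le_mul_of_nonneg_left _ (norm_nonneg _)
    rw [Prod.norm_mk]
    exact max_le (BoundedContinuousFunction.norm_ofNormedAddCommGroup_le _ hM _)
      (BoundedContinuousFunction.norm_ofNormedAddCommGroup_le _ hM _)
  rw [Prod.norm_mk] at h3
  exact ⟨(LB.norm_coe_le_norm z).trans ((le_max_left _ _).trans h3),
    (KB.norm_coe_le_norm z).trans ((le_max_right _ _).trans h3)⟩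

theorem LK_sol {g : ℂ → ℝ} (hg : Den g) :
    Sol g (fun _ => 1) (fun _ => 0) (LK g).1 (LK g).2 := by
  have h : ∃ p : Y, Sol g (fun _ => 1) (fun _ => 0) p.1 p.2 :=
    sol_exists hg (BoundedContinuousFunction.const ℂ 1) (BoundedContinuousFunction.const ℂ 0)
  unfold LK
  rw [dif_pos h]
  exact Classical.choose_spec h

theorem dLK_sol {g h : ℂ → ℝ} (hg : Den g) (hh : Continuous h) (ch : HasCompactSupport h) :
    Sol g (cop h (LK g).2) (cop h (LK g).1) (dLK g h).1 (dLK g h).2 := by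
  have h1 : ∃ p : Y, Sol g (cop h (LK g).2) (cop h (LK g).1) p.1 p.2 :=
    sol_exists hg (copL h hh ch (LK g).2) (copL h hh ch (LK g).1)
  unfold dLK
  rw [dif_pos h1]
  exact Classical.choose_spec h1

namespace OprAux

theorem LK_eq {g : ℂ → ℝ} (hg : Den g) : LK g = Ring.inverse (1 - AA g hg.cont hg.supp)
    (BoundedContinuousFunction.const ℂ 1, BoundedContinuousFunction.const ℂ 0) :=
  eq_inverse hg ((sol_iff hg.cont hg.supp (BoundedContinuousFunction.const ℂ 1)
    (BoundedContinuousFunction.const ℂ 0) _).1 (LK_sol hg))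

theorem dLK_eq {g h : ℂ → ℝ} (hg : Den g) (hh : Continuous h) (ch : HasCompactSupport h) :
    dLK g h = Ring.inverse (1 - AA g hg.cont hg.supp) (AA h hh ch (LK g)) :=
  eq_inverse hg ((sol_iff hg.cont hg.supp (copL h hh ch (LK g).2) (copL h hh ch (LK g).1) _).1
    (dLK_sol hg hh ch))

/-- the affine family of operators -/
noncomputable def ww {g h : ℂ → ℝ} (hg : Den g) (hh : Den h) (τ : ℝ) : Y →L[ℝ] Y :=
  1 - (AA g hg.cont hg.supp + τ • AA h hh.cont hh.supp)

theorem ww_eq {g h : ℂ → ℝ} (hg : Den g) (hh : Den h) {τ : ℝ} (hτ : 0 ≤ τ) :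
    ww hg hh τ = 1 - AA (fun z => g z + τ * h z) (den_add hg hh hτ).cont (den_add hg hh hτ).supp := by
  rw [AA_add hg hh hτ]
  rfl

theorem LK_ww {g h : ℂ → ℝ} (hg : Den g) (hh : Den h) {τ : ℝ} (hτ : 0 ≤ τ) :
    LK (fun z => g z + τ * h z) = Ring.inverse (ww hg hh τ)
      (BoundedContinuousFunction.const ℂ 1, BoundedContinuousFunction.const ℂ 0) := by
  rw [LK_eq (den_add hg hh hτ), ww_eq hg hh hτ]

theorem ww_hasDerivAt {g h : ℂ → ℝ} (hg : Den g) (hh : Den h) (t : ℝ) :
    HasDerivAt (ww hg hh) (-(AA h hh.cont hh.supp)) t := by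
  have h1 := (hasDerivAt_id t).smul_const (AA h hh.cont hh.supp)
  rw [one_smul] at h1
  exact (h1.const_add (AA g hg.cont hg.supp)).const_sub 1

theorem inv_hasDerivAt {g h : ℂ → ℝ} (hg : Den g) (hh : Den h) {t : ℝ} (ht : 0 ≤ t) :
    HasDerivAt (fun τ => Ring.inverse (ww hg hh τ))
      (Ring.inverse (ww hg hh t) * AA h hh.cont hh.supp * Ring.inverse (ww hg hh t)) t := by
  have hu : IsUnit (ww hg hh t) := by
    rw [ww_eq hg hh ht]
    exact isUnit_one_sub (den_add hg hh ht)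
  obtain ⟨x, hx⟩ := hu
  have h1 := hasFDerivAt_ringInverse (𝕜 := ℝ) (R := Y →L[ℝ] Y) x
  rw [hx] at h1
  have h2 := HasFDerivAt.comp_hasDerivAt (E := Y →L[ℝ] Y) (F := Y →L[ℝ] Y) t h1
    (ww_hasDerivAt hg hh t)
  refine HasDerivAt.congr_deriv (F := Y →L[ℝ] Y) h2 ?_
  rw [← hx, Ring.inverse_unit]
  apply ContinuousLinearMap.ext
  intro v
  change -((↑x⁻¹ : Y →L[ℝ] Y) (-(AA h hh.cont hh.supp ((↑x⁻¹ : Y →L[ℝ] Y) v)))) =
    (↑x⁻¹ : Y →L[ℝ] Y) (AA h hh.cont hh.supp ((↑x⁻¹ : Y →L[ℝ] Y) v))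
  rw [map_neg, neg_neg]

end OprAux

theorem LK_hasDerivAt {g h : ℂ → ℝ} (hg : Den g) (hh : Den h) {t : ℝ} (ht : 0 < t) :
    HasDerivAt (fun τ : ℝ => LK (fun z => g z + τ * h z)) (dLK (fun z => g z + t * h z) h) t := by
  set e : Y := (BoundedContinuousFunction.const ℂ 1, BoundedContinuousFunction.const ℂ 0) with he
  have h1 := inv_hasDerivAt hg hh ht.le
  have h2 : HasDerivAt (fun τ => Ring.inverse (ww hg hh τ) e)
      ((Ring.inverse (ww hg hh t) * AA h hh.cont hh.supp * Ring.inverse (ww hg hh t)) e) t :=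
    ((ContinuousLinearMap.apply ℝ Y e).hasFDerivAt).comp_hasDerivAt t h1
  have h3 : (Ring.inverse (ww hg hh t) * AA h hh.cont hh.supp * Ring.inverse (ww hg hh t)) e =
      dLK (fun z => g z + t * h z) h := by
    rw [dLK_eq (den_add hg hh ht.le) hh.cont hh.supp, LK_ww hg hh ht.le, ww_eq hg hh ht.le]
    rfl
  rw [h3] at h2
  apply h2.congr_of_eventuallyEq
  filter_upwards [lt_mem_nhds ht] with τ hτ
  exact LK_ww hg hh hτ.le

theorem LK_continuousOn {g h : ℂ → ℝ} (hg : Den g) (hh : Den h) :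
    ContinuousOn (fun τ : ℝ => LK (fun z => g z + τ * h z)) (Set.Ici 0) := by
  set e : Y := (BoundedContinuousFunction.const ℂ 1, BoundedContinuousFunction.const ℂ 0) with he
  intro τ hτ
  have h1 : ContinuousAt (fun τ => Ring.inverse (ww hg hh τ)) τ :=
    HasDerivAt.continuousAt (F := Y →L[ℝ] Y) (inv_hasDerivAt hg hh hτ)
  have h2 : ContinuousAt (fun τ => Ring.inverse (ww hg hh τ) e) τ :=
    ((ContinuousLinearMap.apply ℝ Y e).continuous.continuousAt).comp h1
  refine h2.continuousWithinAt.congr (fun τ' hτ' => LK_ww hg hh hτ') (LK_ww hg hh hτ)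

end Pool.Agent.H352R3.SA
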