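import Pool.Agent.H352R3.SA.Ene
import Pool.Agent.H352R3.SA.Opr

/-!
Module GAM (helper221): identities and derivatives of `Gam` and `PP`.
-/

set_option autoImplicit false

open MeasureTheory Complex Filter Topology
open scoped ComplexConjugate BoundedContinuousFunction

namespace Pool.Agent.H352R3.SA

namespace GamAux

theorem intg {g : ℂ → ℝ} (hg : Continuous g) (cg : HasCompactSupport g) {F : ℂ → ℂ}
    (hF : Continuous F) : Integrable (fun z => (g z : ℂ) * F z) := by
  apply Continuous.integrable_of_hasCompactSupport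
  · exact (continuous_ofReal.comp hg).mul hF
  · exact (cg.comp_left (g := fun t : ℝ => (t : ℂ)) ofReal_zero).mul_right

theorem intgR {g : ℂ → ℝ} (hg : Continuous g) (cg : HasCompactSupport g) {F : ℂ → ℝ}
    (hF : Continuous F) : Integrable (fun z => g z * F z) := by
  apply Continuous.integrable_of_hasCompactSupport
  · exact hg.mul hF
  · exact cg.mul_right

theorem intc {g : ℂ → ℝ} (hg : Continuous g) (cg : HasCompactSupport g) (u : ℂ →ᵇ ℂ) :
    Integrable (fun z => (g z : ℂ) * conj (u z)) :=
  intg hg cg (F := fun z => conj (u z)) (continuous_conj.comp u.continuous)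

theorem conj_mul_self (w : ℂ) : conj w * w = ((‖w‖ ^ 2 : ℝ) : ℂ) := by
  rw [← Complex.normSq_eq_norm_sq, Complex.normSq_eq_conj_mul_self]

theorem conj_int {g : ℂ → ℝ} (F : ℂ → ℂ) :
    conj (∫ z, (g z : ℂ) * F z) = ∫ z, (g z : ℂ) * conj (F z) := by
  rw [← integral_conj]
  apply integral_congr_ae
  filter_upwards with z
  simp

theorem den_add {g h : ℂ → ℝ} (hg : Den g) (hh : Den h) {t : ℝ} (ht : 0 ≤ t) :
    Den (fun z => g z + t * h z) where
  cont := hg.cont.add (continuous_const.mul hh.cont)
  supp := hg.supp.add (hh.supp.mul_left)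
  nonneg := fun z => add_nonneg (hg.nonneg z) (mul_nonneg ht (hh.nonneg z))

/-- the functional `u ↦ ∫ g u` -/
noncomputable def lin (g : ℂ → ℝ) (hg : Continuous g) (cg : HasCompactSupport g) :
    (ℂ →ᵇ ℂ) →L[ℝ] ℂ :=
  LinearMap.mkContinuous
    { toFun := fun u => ∫ z, (g z : ℂ) * u z
      map_add' := fun u v => by
        have h1 : ∀ z, (g z : ℂ) * (u + v) z = (g z : ℂ) * u z + (g z : ℂ) * v z := by
          intro z
          rw [BoundedContinuousFunction.add_apply]
          ring
        simp only [h1]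
        exact integral_add (intg hg cg u.continuous) (intg hg cg v.continuous)
      map_smul' := fun c u => by
        have h1 : ∀ z, (g z : ℂ) * (c • u) z = (c : ℂ) * ((g z : ℂ) * u z) := by
          intro z
          rw [BoundedContinuousFunction.smul_apply, Complex.real_smul]
          ring
        simp only [h1]
        rw [integral_const_mul, RingHom.id_apply, Complex.real_smul] }
    (∫ z, |g z|)
    (by
      intro u
      have hI : Integrable (fun z => |g z|) := by
        have := Continuous.integrable_of_hasCompactSupport (μ := volume) hg cg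
        exact this.abs
      calc ‖∫ z, (g z : ℂ) * u z‖ ≤ ∫ z, ‖(g z : ℂ) * u z‖ := norm_integral_le_integral_norm _
        _ ≤ ∫ z, |g z| * ‖u‖ := by
            apply integral_mono_of_nonneg
            · filter_upwards with z
              exact norm_nonneg _
            · exact hI.mul_const _
            · filter_upwards with z
              rw [norm_mul, Complex.norm_real, Real.norm_eq_abs]
              exact mul_le_mul_of_nonneg_left (u.norm_coe_le_norm z) (abs_nonneg _)
        _ = (∫ z, |g z|) * ‖u‖ := by rw [integral_mul_const])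

theorem lin_apply {g : ℂ → ℝ} (hg : Continuous g) (cg : HasCompactSupport g) (u : ℂ →ᵇ ℂ) :
    lin g hg cg u = ∫ z, (g z : ℂ) * u z := rfl

theorem lin_star {g : ℂ → ℝ} (hg : Continuous g) (cg : HasCompactSupport g) (u : ℂ →ᵇ ℂ) :
    lin g hg cg (star u) = ∫ z, (g z : ℂ) * conj (u z) := rfl

/-- the basic identity -/
theorem base {g : ℂ → ℝ} (hg : Den g) {L K : ℂ → ℂ} (h : Sol g (fun _ => 1) (fun _ => 0) L K) :
    ∫ z, (g z : ℂ) * conj (L z) = ((∫ z, g z * (‖L z‖ ^ 2 + ‖K z‖ ^ 2) : ℝ) : ℂ) := by
  have c1 : Continuous (fun z => conj (L z)) := continuous_conj.comp h.cL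
  have c2 : Continuous (fun z => conj (K z)) := continuous_conj.comp h.cK
  have e1 : ∫ z, (g z : ℂ) * conj (L z) =
      (∫ z, (g z : ℂ) * (conj (L z) * L z)) - ∫ z, (g z : ℂ) * conj (L z) * cop g K z := by
    rw [← integral_sub (intg hg.cont hg.supp (F := fun z => conj (L z) * L z) (c1.mul h.cL))]
    · apply integral_congr_ae
      filter_upwards with z
      have := h.eL z
      have h2 : (1 : ℂ) = L z - cop g K z := by rw [this]; ring
      calc (g z : ℂ) * conj (L z) = (g z : ℂ) * conj (L z) * 1 := by ring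
        _ = (g z : ℂ) * conj (L z) * (L z - cop g K z) := by rw [← h2]
        _ = _ := by ring
    · have := intg hg.cont hg.supp (c1.mul (cop_continuous hg.cont hg.supp h.cK))
      refine this.congr ?_
      filter_upwards with z
      simp only [Pi.mul_apply]
      ring
  rw [e1, cop_anti hg.cont hg.supp hg.cont hg.supp h.cL h.cK, sub_neg_eq_add]
  have e2 : ∫ z, (g z : ℂ) * conj (K z) * cop g L z = ∫ z, (g z : ℂ) * (conj (K z) * K z) := by
    apply integral_congr_ae
    filter_upwards with z
    have := h.eK z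
    rw [zero_add] at this
    rw [← this]
    ring
  rw [e2, ← integral_add (intg hg.cont hg.supp (F := fun z => conj (L z) * L z) (c1.mul h.cL))
    (intg hg.cont hg.supp (F := fun z => conj (K z) * K z) (c2.mul h.cK)),
    ← integral_complex_ofReal]
  apply integral_congr_ae
  filter_upwards with z
  rw [conj_mul_self, conj_mul_self]
  push_cast
  ring

/-- the key identity for the derivative -/
theorem key {g h : ℂ → ℝ} (hg : Den g) (hh : Den h) {L K L1 K1 : ℂ → ℂ}
    (s : Sol g (fun _ => 1) (fun _ => 0) L K) (s1 : Sol g (cop h K) (cop h L) L1 K1) :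
    ∫ z, (g z : ℂ) * conj (L1 z) =
      ((∫ z, h z * (‖L z‖ ^ 2 - ‖K z‖ ^ 2) : ℝ) : ℂ) - ∫ z, (h z : ℂ) * conj (L z) := by
  have cL := continuous_conj.comp s.cL
  have cK := continuous_conj.comp s.cK
  have cL1 := continuous_conj.comp s1.cL
  have cK1 := continuous_conj.comp s1.cK
  have gc := hg.cont
  have gs := hg.supp
  have hc := hh.cont
  have hs := hh.supp
  have k1 := cop_continuous gc gs s.cL
  have k2 := cop_continuous gc gs s.cK
  have k3 := cop_continuous hc hs s.cL
  have k4 := cop_continuous hc hs s.cK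
  have k5 := cop_continuous gc gs s1.cL
  have k6 := cop_continuous gc gs s1.cK
  -- products
  have I : ∀ (a b : ℂ → ℂ), Continuous a → Continuous b →
      Integrable (fun z => (g z : ℂ) * conj (a z) * b z) := by
    intro a b ha hb
    have := intg gc gs ((continuous_conj.comp ha).mul hb)
    refine this.congr ?_
    filter_upwards with z
    simp only [Pi.mul_apply, Function.comp_apply]
    ring
  have J : ∀ (a b : ℂ → ℂ), Continuous a → Continuous b →
      Integrable (fun z => (h z : ℂ) * conj (a z) * b z) := by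
    intro a b ha hb
    have := intg hc hs ((continuous_conj.comp ha).mul hb)
    refine this.congr ?_
    filter_upwards with z
    simp only [Pi.mul_apply, Function.comp_apply]
    ring
  have e1 : ∫ z, (g z : ℂ) * conj (L1 z) =
      (∫ z, (g z : ℂ) * conj (L1 z) * L z) - ∫ z, (g z : ℂ) * conj (L1 z) * cop g K z := by
    rw [← integral_sub (I L1 L s1.cL s.cL) (I L1 _ s1.cL k2)]
    apply integral_congr_ae
    filter_upwards with z
    have := s.eL z
    have h2 : (1 : ℂ) = L z - cop g K z := by rw [this]; ring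
    calc (g z : ℂ) * conj (L1 z) = (g z : ℂ) * conj (L1 z) * 1 := by ring
      _ = (g z : ℂ) * conj (L1 z) * (L z - cop g K z) := by rw [← h2]
      _ = _ := by ring
  have e2 : ∫ z, (g z : ℂ) * conj (L1 z) * cop g K z =
      - ((∫ z, (g z : ℂ) * conj (K z) * K1 z) - ∫ z, (g z : ℂ) * conj (K z) * cop h L z) := by
    rw [cop_anti gc gs gc gs s1.cL s.cK, ← integral_sub (I K K1 s.cK s1.cK) (I K _ s.cK k3)]
    congr 1
    apply integral_congr_ae
    filter_upwards with z
    rw [s1.eK z]
    ring
  have e3 : ∫ z, (g z : ℂ) * conj (L1 z) * L z =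
      conj (∫ z, (g z : ℂ) * conj (L z) * L1 z) := by
    rw [← integral_conj]
    apply integral_congr_ae
    filter_upwards with z
    simp only [map_mul, Complex.conj_conj, Complex.conj_ofReal]
    ring
  have e4 : ∫ z, (g z : ℂ) * conj (L z) * L1 z =
      (∫ z, (g z : ℂ) * conj (L z) * cop h K z) + ∫ z, (g z : ℂ) * conj (L z) * cop g K1 z := by
    rw [← integral_add (I L _ s.cL k4) (I L _ s.cL k6)]
    apply integral_congr_ae
    filter_upwards with z
    rw [s1.eL z]
    ring
  have e5 : ∫ z, (g z : ℂ) * conj (L z) * cop g K1 z =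
      - ∫ z, (g z : ℂ) * conj (K1 z) * K z := by
    rw [cop_anti gc gs gc gs s.cL s1.cK]
    congr 1
    apply integral_congr_ae
    filter_upwards with z
    have := s.eK z
    rw [zero_add] at this
    rw [this]
  have e6 : conj (∫ z, (g z : ℂ) * conj (K1 z) * K z) =
      ∫ z, (g z : ℂ) * conj (K z) * K1 z := by
    rw [← integral_conj]
    apply integral_congr_ae
    filter_upwards with z
    simp only [map_mul, Complex.conj_conj, Complex.conj_ofReal]
    ring
  have e7 : ∫ z, (g z : ℂ) * conj (L z) * cop h K z =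
      - ((∫ z, h z * ‖K z‖ ^ 2 : ℝ) : ℂ) := by
    rw [cop_anti gc gs hc hs s.cL s.cK, ← integral_complex_ofReal]
    congr 1
    apply integral_congr_ae
    filter_upwards with z
    have := s.eK z
    rw [zero_add] at this
    rw [← this, mul_assoc, conj_mul_self]
    push_cast
    ring
  have e8 : ∫ z, (g z : ℂ) * conj (K z) * cop h L z =
      - (((∫ z, h z * ‖L z‖ ^ 2 : ℝ) : ℂ) - ∫ z, (h z : ℂ) * conj (L z)) := by
    rw [cop_anti gc gs hc hs s.cK s.cL, ← integral_complex_ofReal, ← integral_sub]
    · congr 1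
      apply integral_congr_ae
      filter_upwards with z
      have := s.eL z
      have h2 : cop g K z = L z - 1 := by rw [this]; ring
      rw [h2]
      have h3 := conj_mul_self (L z)
      push_cast at h3 ⊢
      rw [← h3]
      ring
    · have := (intgR hc hs (s.cL.norm.pow 2)).ofReal (𝕜 := ℂ)
      exact this
    · exact intg hc hs cL
  have e9 : (∫ z, h z * (‖L z‖ ^ 2 - ‖K z‖ ^ 2)) =
      (∫ z, h z * ‖L z‖ ^ 2) - ∫ z, h z * ‖K z‖ ^ 2 := by
    rw [← integral_sub (intgR hc hs (F := fun z => ‖L z‖ ^ 2) (s.cL.norm.pow 2))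
      (intgR hc hs (F := fun z => ‖K z‖ ^ 2) (s.cK.norm.pow 2))]
    apply integral_congr_ae
    filter_upwards with z
    ring
  rw [e1, e2, e3, e4, e5, map_add, map_neg, e6, e7, e8, e9, map_neg, Complex.conj_ofReal]
  push_cast
  ring

theorem gam_formula {g h : ℂ → ℝ} (hg : Den g) (hh : Den h) (τ : ℝ) :
    Gam (fun z => g z + τ * h z) =
      (lin g hg.cont hg.supp (star (LK (fun z => g z + τ * h z)).1) +
        (τ : ℂ) * lin h hh.cont hh.supp (star (LK (fun z => g z + τ * h z)).1)).re := by
  unfold Gam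
  congr 1
  rw [lin_star, lin_star, ← integral_const_mul,
    ← integral_add (intc hg.cont hg.supp (LK (fun z => g z + τ * h z)).1)
      ((intc hh.cont hh.supp (LK (fun z => g z + τ * h z)).1).const_mul _)]
  apply integral_congr_ae
  filter_upwards with z
  push_cast
  ring

theorem pp_formula {h : ℂ → ℝ} (hh : Den h) (g : ℂ → ℝ) :
    PP g h = (lin h hh.cont hh.supp (star (LK g).1 * (LK g).1 - star (LK g).2 * (LK g).2)).re := by
  unfold PP
  rw [lin_apply]
  have h1 : ∀ z, (h z : ℂ) * (star (LK g).1 * (LK g).1 - star (LK g).2 * (LK g).2) z =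
      ((h z * (‖(LK g).1 z‖ ^ 2 - ‖(LK g).2 z‖ ^ 2) : ℝ) : ℂ) := by
    intro z
    have h2 : (star (LK g).1 * (LK g).1 - star (LK g).2 * (LK g).2) z =
        conj ((LK g).1 z) * (LK g).1 z - conj ((LK g).2 z) * (LK g).2 z := rfl
    rw [h2, conj_mul_self, conj_mul_self]
    push_cast
    ring
  simp only [h1]
  rw [integral_complex_ofReal, Complex.ofReal_re]

end GamAux

open GamAux

theorem Gam_complex {g : ℂ → ℝ} (hg : Den g) :
    ∫ z, (g z : ℂ) * conj ((LK g).1 z) = (Gam g : ℂ) := by
  have h := base hg (LK_sol hg)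
  unfold Gam
  rw [h, Complex.ofReal_re]

theorem Gam_eq {g : ℂ → ℝ} (hg : Den g) :
    Gam g = ∫ z, g z * (‖(LK g).1 z‖ ^ 2 + ‖(LK g).2 z‖ ^ 2) := by
  have h := base hg (LK_sol hg)
  unfold Gam
  rw [h, Complex.ofReal_re]

theorem Gam_nonneg {g : ℂ → ℝ} (hg : Den g) : 0 ≤ Gam g := by
  rw [Gam_eq hg]
  apply integral_nonneg
  intro z
  exact mul_nonneg (hg.nonneg z) (by positivity)

theorem Gam_zero : Gam (fun _ => 0) = 0 := by
  unfold Gam
  simp

theorem Gam_hasDerivAt {g h : ℂ → ℝ} (hg : Den g) (hh : Den h) {t : ℝ} (ht : 0 < t) :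
    HasDerivAt (fun τ : ℝ => Gam (fun z => g z + τ * h z)) (PP (fun z => g z + t * h z) h) t := by
  have hgt : Den (fun z => g z + t * h z) := den_add hg hh ht.le
  have d0 := LK_hasDerivAt hg hh ht
  have d1 : HasDerivAt (fun τ : ℝ => (LK (fun z => g z + τ * h z)).1)
      (dLK (fun z => g z + t * h z) h).1 t :=
    (ContinuousLinearMap.fst ℝ (ℂ →ᵇ ℂ) (ℂ →ᵇ ℂ)).hasFDerivAt.comp_hasDerivAt t d0
  have d2 : HasDerivAt (fun τ : ℝ => star (LK (fun z => g z + τ * h z)).1)
      (star (dLK (fun z => g z + t * h z) h).1) t := d1.star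
  have d3 := (lin g hg.cont hg.supp).hasFDerivAt.comp_hasDerivAt t d2
  have d4 := (lin h hh.cont hh.supp).hasFDerivAt.comp_hasDerivAt t d2
  have d5 : HasDerivAt (fun τ : ℝ => (τ : ℂ)) 1 t := Complex.ofRealCLM.hasDerivAt
  have d6 := d3.add (d5.mul d4)
  have d7 := Complex.reCLM.hasFDerivAt.comp_hasDerivAt t d6
  have e : (fun τ : ℝ => Gam (fun z => g z + τ * h z)) = (fun τ : ℝ =>
      (lin g hg.cont hg.supp (star (LK (fun z => g z + τ * h z)).1) +
        (τ : ℂ) * lin h hh.cont hh.supp (star (LK (fun z => g z + τ * h z)).1)).re) := by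
    funext τ
    exact gam_formula hg hh τ
  rw [e]
  refine d7.congr_deriv ?_
  have s := LK_sol hgt
  have s1 := dLK_sol hgt hh.cont hh.supp
  have hkey := key hgt hh s s1
  have e1 : lin g hg.cont hg.supp (star (dLK (fun z => g z + t * h z) h).1) +
      (t : ℂ) * lin h hh.cont hh.supp (star (dLK (fun z => g z + t * h z) h).1) =
      ∫ z, ((g z + t * h z : ℝ) : ℂ) * conj ((dLK (fun z => g z + t * h z) h).1 z) := by
    rw [lin_star, lin_star, ← integral_const_mul,
      ← integral_add (intc hg.cont hg.supp (dLK (fun z => g z + t * h z) h).1)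
        ((intc hh.cont hh.supp (dLK (fun z => g z + t * h z) h).1).const_mul _)]
    apply integral_congr_ae
    filter_upwards with z
    push_cast
    ring
  have e2 : Complex.reCLM (lin g hg.cont hg.supp (star (dLK (fun z => g z + t * h z) h).1) +
      (1 * lin h hh.cont hh.supp (star (LK (fun z => g z + t * h z)).1) +
        (t : ℂ) * lin h hh.cont hh.supp (star (dLK (fun z => g z + t * h z) h).1))) =
      PP (fun z => g z + t * h z) h := by
    have e3 : lin g hg.cont hg.supp (star (dLK (fun z => g z + t * h z) h).1) +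
      (1 * lin h hh.cont hh.supp (star (LK (fun z => g z + t * h z)).1) +
        (t : ℂ) * lin h hh.cont hh.supp (star (dLK (fun z => g z + t * h z) h).1)) =
        (lin g hg.cont hg.supp (star (dLK (fun z => g z + t * h z) h).1) +
      (t : ℂ) * lin h hh.cont hh.supp (star (dLK (fun z => g z + t * h z) h).1)) +
        lin h hh.cont hh.supp (star (LK (fun z => g z + t * h z)).1) := by ring
    rw [e3, e1, hkey, lin_star, sub_add_cancel]
    rfl
  exact e2

theorem Gam_continuousOn {g h : ℂ → ℝ} (hg : Den g) (hh : Den h) :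
    ContinuousOn (fun τ : ℝ => Gam (fun z => g z + τ * h z)) (Set.Ici 0) := by
  have e : (fun τ : ℝ => Gam (fun z => g z + τ * h z)) = (fun τ : ℝ =>
      (lin g hg.cont hg.supp (star (LK (fun z => g z + τ * h z)).1) +
        (τ : ℂ) * lin h hh.cont hh.supp (star (LK (fun z => g z + τ * h z)).1)).re) := by
    funext τ
    exact gam_formula hg hh τ
  rw [e]
  have c0 := LK_continuousOn hg hh
  have c1 : ContinuousOn (fun τ : ℝ => star (LK (fun z => g z + τ * h z)).1) (Set.Ici 0) :=
    (continuous_star.comp continuous_fst).comp_continuousOn c0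
  have c2 := (lin g hg.cont hg.supp).continuous.comp_continuousOn c1
  have c3 := (lin h hh.cont hh.supp).continuous.comp_continuousOn c1
  exact Complex.continuous_re.comp_continuousOn
    (c2.add (Complex.continuous_ofReal.continuousOn.mul c3))

theorem PP_hasDerivAt {g h₁ h₂ : ℂ → ℝ} (hg : Den g) (hh₁ : Den h₁) (hh₂ : Den h₂) {t : ℝ}
    (ht : 0 < t) : HasDerivAt (fun τ : ℝ => PP (fun z => g z + τ * h₁ z) h₂)
      (QQ (fun z => g z + t * h₁ z) h₁ h₂) t := by
  have d0 := LK_hasDerivAt hg hh₁ ht
  have d1 : HasDerivAt (fun τ : ℝ => (LK (fun z => g z + τ * h₁ z)).1)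
      (dLK (fun z => g z + t * h₁ z) h₁).1 t :=
    (ContinuousLinearMap.fst ℝ (ℂ →ᵇ ℂ) (ℂ →ᵇ ℂ)).hasFDerivAt.comp_hasDerivAt t d0
  have d1' : HasDerivAt (fun τ : ℝ => (LK (fun z => g z + τ * h₁ z)).2)
      (dLK (fun z => g z + t * h₁ z) h₁).2 t :=
    (ContinuousLinearMap.snd ℝ (ℂ →ᵇ ℂ) (ℂ →ᵇ ℂ)).hasFDerivAt.comp_hasDerivAt t d0
  have d2 := d1.star
  have d2' := d1'.star
  have d3 := (d2.mul d1).sub (d2'.mul d1')
  have d4 := (lin h₂ hh₂.cont hh₂.supp).hasFDerivAt.comp_hasDerivAt t d3
  have d5 := Complex.reCLM.hasFDerivAt.comp_hasDerivAt t d4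
  have e : (fun τ : ℝ => PP (fun z => g z + τ * h₁ z) h₂) = (fun τ : ℝ =>
      (lin h₂ hh₂.cont hh₂.supp (star (LK (fun z => g z + τ * h₁ z)).1 *
        (LK (fun z => g z + τ * h₁ z)).1 - star (LK (fun z => g z + τ * h₁ z)).2 *
        (LK (fun z => g z + τ * h₁ z)).2)).re) := by
    funext τ
    exact pp_formula hh₂ _
  rw [e]
  refine d5.congr_deriv ?_
  set L := (LK (fun z => g z + t * h₁ z)).1 with hL
  set K := (LK (fun z => g z + t * h₁ z)).2 with hK
  set L1 := (dLK (fun z => g z + t * h₁ z) h₁).1 with hL1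
  set K1 := (dLK (fun z => g z + t * h₁ z) h₁).2 with hK1
  have e1 : Complex.reCLM (lin h₂ hh₂.cont hh₂.supp
      ((star L1 * L + star L * L1) - (star K1 * K + star K * K1))) =
      QQ (fun z => g z + t * h₁ z) h₁ h₂ := by
    unfold QQ
    rw [lin_apply]
    have h1 : ∀ z, (h₂ z : ℂ) * ((star L1 * L + star L * L1) - (star K1 * K + star K * K1)) z =
        ((h₂ z * (2 * (conj (L z) * L1 z - conj (K z) * K1 z).re) : ℝ) : ℂ) := by
      intro z
      have h2 : ((star L1 * L + star L * L1) - (star K1 * K + star K * K1)) z =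
        (conj (L1 z) * L z + conj (L z) * L1 z) - (conj (K1 z) * K z + conj (K z) * K1 z) := rfl
      rw [h2]
      have h3 : (conj (L1 z) * L z + conj (L z) * L1 z) -
          (conj (K1 z) * K z + conj (K z) * K1 z) =
          (conj (L z) * L1 z - conj (K z) * K1 z) +
            conj (conj (L z) * L1 z - conj (K z) * K1 z) := by
        simp only [map_sub, map_mul, Complex.conj_conj]
        ring
      rw [h3, Complex.add_conj]
      push_cast
      ring
    simp only [h1]
    rw [integral_complex_ofReal]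
    simp only [Complex.reCLM_apply, Complex.ofReal_re]
    rfl
  exact e1

theorem PP_continuousOn {g h₁ h₂ : ℂ → ℝ} (hg : Den g) (hh₁ : Den h₁) (hh₂ : Den h₂) :
    ContinuousOn (fun τ : ℝ => PP (fun z => g z + τ * h₁ z) h₂) (Set.Ici 0) := by
  have e : (fun τ : ℝ => PP (fun z => g z + τ * h₁ z) h₂) = (fun τ : ℝ =>
      (lin h₂ hh₂.cont hh₂.supp (star (LK (fun z => g z + τ * h₁ z)).1 *
        (LK (fun z => g z + τ * h₁ z)).1 - star (LK (fun z => g z + τ * h₁ z)).2 *
        (LK (fun z => g z + τ * h₁ z)).2)).re) := by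
    funext τ
    exact pp_formula hh₂ _
  rw [e]
  have c0 := LK_continuousOn hg hh₁
  have c1 : ContinuousOn (fun τ : ℝ => (LK (fun z => g z + τ * h₁ z)).1) (Set.Ici 0) :=
    continuous_fst.comp_continuousOn c0
  have c2 : ContinuousOn (fun τ : ℝ => (LK (fun z => g z + τ * h₁ z)).2) (Set.Ici 0) :=
    continuous_snd.comp_continuousOn c0
  have c3 := (((continuous_star.comp_continuousOn c1).mul c1).sub
    ((continuous_star.comp_continuousOn c2).mul c2))
  exact Complex.continuous_re.comp_continuousOn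
    ((lin h₂ hh₂.cont hh₂.supp).continuous.comp_continuousOn c3)

end Pool.Agent.H352R3.SA
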