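import Pool.Agent.H352R3.SA.Defs
import Pool.Agent.H761R2.SV.Pomp

/-! # Cauchy potentials of continuous compactly supported densities (task POT, helper512) -/

set_option autoImplicit false

open MeasureTheory Complex Filter Topology Metric Set
open scoped ComplexConjugate BoundedContinuousFunction

namespace Pool.Agent.H352R3.SA

theorem pot_integrable {φ : ℂ → ℂ} (hφ : Continuous φ) (hc : HasCompactSupport φ) (z : ℂ) :
    Integrable (fun w => φ w * (z - w)⁻¹) :=
  Pool.Agent.H761R2.SV.integrable_mul_cauchy hφ hc z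

theorem pot_continuous {φ : ℂ → ℂ} (hφ : Continuous φ) (hc : HasCompactSupport φ) :
    Continuous (pot φ) := by
  obtain ⟨M, hM⟩ := hc.exists_bound_of_continuous hφ
  obtain ⟨R, hR⟩ := (hc.isCompact.isBounded).subset_closedBall (0 : ℂ)
  have hM0 : 0 ≤ M := (norm_nonneg _).trans (hM 0)
  have hsub : pot φ = fun z => ∫ u, φ (z - u) * u⁻¹ := by
    funext z
    have h := integral_sub_left_eq_self (fun w => φ w * (z - w)⁻¹) (volume : Measure ℂ) z
    rw [pot, ← h]
    refine integral_congr_ae (Eventually.of_forall fun u => ?_)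
    simp only [sub_sub_cancel]
  rw [hsub, continuous_iff_continuousAt]
  intro z₀
  have h1 : Integrable ((ball (0 : ℂ) (R + ‖z₀‖ + 2)).indicator (fun w : ℂ => ‖w‖⁻¹)) :=
    (integrable_indicator_iff measurableSet_ball).2
      (Pool.Agent.H761R2.SV.integrableOn_norm_inv _)
  refine continuousAt_of_dominated (bound := fun u : ℂ =>
      M * (ball (0 : ℂ) (R + ‖z₀‖ + 2)).indicator (fun w : ℂ => ‖w‖⁻¹) u) ?_ ?_
      (h1.const_mul M) ?_
  · refine Eventually.of_forall fun z => Measurable.aestronglyMeasurable ?_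
    have : Measurable φ := hφ.measurable
    fun_prop
  · filter_upwards [ball_mem_nhds z₀ one_pos] with z hz
    refine Eventually.of_forall fun u => ?_
    rw [norm_mul, norm_inv]
    by_cases hw : z - u ∈ tsupport φ
    · have hw1 : ‖z - u‖ ≤ R := by simpa using hR hw
      have hmem : u ∈ ball (0 : ℂ) (R + ‖z₀‖ + 2) := by
        rw [mem_ball_zero_iff]
        have h2 : ‖u‖ ≤ ‖z‖ + ‖z - u‖ := by
          have h3 := norm_sub_le z (z - u)
          rwa [sub_sub_cancel] at h3
        have h4 : ‖z‖ ≤ ‖z - z₀‖ + ‖z₀‖ := by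
          have := norm_add_le (z - z₀) z₀
          rwa [sub_add_cancel] at this
        rw [mem_ball, dist_eq_norm] at hz
        linarith
      rw [indicator_of_mem hmem]
      exact mul_le_mul_of_nonneg_right (hM _) (by positivity)
    · rw [image_eq_zero_of_notMem_tsupport hw, norm_zero, zero_mul]
      apply mul_nonneg hM0
      apply indicator_nonneg
      intro w _
      positivity
  · refine Eventually.of_forall fun u => ?_
    have : Continuous fun z : ℂ => φ (z - u) * u⁻¹ := by fun_prop
    exact this.continuousAt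

theorem pot_zero {φ : ℂ → ℂ} (hφ : Continuous φ) (hc : HasCompactSupport φ) :
    Tendsto (pot φ) (cocompact ℂ) (𝓝 0) := by
  obtain ⟨R, hR⟩ := (hc.isCompact.isBounded).subset_closedBall (0 : ℂ)
  have hint : Integrable φ := hφ.integrable_of_hasCompactSupport hc
  have hlim : Tendsto (fun z : ℂ => (∫ w, ‖φ w‖) * (‖z‖ - R)⁻¹) (cocompact ℂ) (𝓝 0) := by
    have h1 : Tendsto (fun z : ℂ => ‖z‖ - R) (cocompact ℂ) atTop :=
      tendsto_atTop_add_const_right _ _ (tendsto_norm_cocompact_atTop (E := ℂ))
    have h2 := (tendsto_inv_atTop_zero.comp h1).const_mul (∫ w, ‖φ w‖)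
    rwa [mul_zero] at h2
  refine squeeze_zero_norm' ?_ hlim
  have hev : ∀ᶠ z : ℂ in cocompact ℂ, R < ‖z‖ :=
    (tendsto_norm_cocompact_atTop (E := ℂ)).eventually_gt_atTop R
  filter_upwards [hev] with z hz
  rw [pot, ← integral_mul_const]
  refine norm_integral_le_of_norm_le (hint.norm.mul_const _) (Eventually.of_forall fun w => ?_)
  rw [norm_mul, norm_inv]
  by_cases hw : w ∈ tsupport φ
  · have hw1 : ‖w‖ ≤ R := by simpa using hR hw
    refine mul_le_mul_of_nonneg_left ?_ (norm_nonneg _)
    refine inv_anti₀ (by linarith) ?_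
    have := norm_sub_norm_le z w
    linarith
  · rw [image_eq_zero_of_notMem_tsupport hw, norm_zero, zero_mul, zero_mul]

theorem pot_tendsto {φ : ℂ → ℂ} (hφ : Continuous φ) (hc : HasCompactSupport φ) :
    Tendsto (fun z => z * pot φ z) (cocompact ℂ) (𝓝 (∫ w, φ w)) := by
  have hc2 : HasCompactSupport fun w => w * φ w := hc.mul_left
  have hφ2 : Continuous fun w : ℂ => w * φ w := continuous_id.mul hφ
  have hint : Integrable φ := hφ.integrable_of_hasCompactSupport hc
  have hkey : (fun z => z * pot φ z) = fun z => (∫ w, φ w) + pot (fun w => w * φ w) z := by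
    funext z
    rw [pot, pot, ← integral_const_mul, ← integral_add hint (pot_integrable hφ2 hc2 z)]
    refine integral_congr_ae ?_
    have hne : ∀ᵐ w : ℂ, w ≠ z := by
      have : (volume : Measure ℂ) {z} = 0 := measure_singleton z
      exact (measure_eq_zero_iff_ae_notMem.1 this)
    filter_upwards [hne] with w hw
    have h0 : z - w ≠ 0 := sub_ne_zero.2 (Ne.symm hw)
    field_simp
    ring
  rw [hkey]
  have h := (pot_zero hφ2 hc2).const_add (∫ w, φ w)
  rwa [add_zero] at h

theorem pot_differentiableOn {φ : ℂ → ℂ} (hφ : Continuous φ) (hc : HasCompactSupport φ) :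
    DifferentiableOn ℂ (pot φ) (tsupport φ)ᶜ := by
  intro z₀ hz₀
  have hint : Integrable φ := hφ.integrable_of_hasCompactSupport hc
  have hopen : IsOpen (tsupport φ)ᶜ := (isClosed_tsupport φ).isOpen_compl
  obtain ⟨ε, hε, hball⟩ := Metric.isOpen_iff.1 hopen z₀ hz₀
  have hρ : 0 < ε / 2 := half_pos hε
  have hfar : ∀ z ∈ ball z₀ (ε / 2), ∀ w ∈ tsupport φ, ε / 2 ≤ ‖z - w‖ := by
    intro z hz w hw
    by_contra hlt
    push Not at hlt
    have : w ∈ ball z₀ ε := by
      rw [mem_ball] at hz ⊢
      calc dist w z₀ ≤ dist w z + dist z z₀ := dist_triangle _ _ _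
        _ < ε / 2 + ε / 2 := by
          refine add_lt_add ?_ hz
          rw [dist_comm, dist_eq_norm]
          exact hlt
        _ = ε := by ring
    exact hball this hw
  have hmφ : Measurable φ := hφ.measurable
  have hder := hasDerivAt_integral_of_dominated_loc_of_deriv_le
    (μ := (volume : Measure ℂ)) (F := fun z w : ℂ => φ w * (z - w)⁻¹)
    (F' := fun z w : ℂ => φ w * (-((z - w) ^ 2)⁻¹)) (x₀ := z₀) (s := ball z₀ (ε / 2))
    (ball_mem_nhds z₀ hρ) (bound := fun w => ‖φ w‖ * ((ε / 2) ^ 2)⁻¹)
    (Eventually.of_forall fun z => (pot_integrable hφ hc z).aestronglyMeasurable)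
    (pot_integrable hφ hc z₀)
    (by
      refine Measurable.aestronglyMeasurable ?_
      fun_prop)
    (Eventually.of_forall fun w z hz => by
      rw [norm_mul, norm_neg, norm_inv, norm_pow]
      by_cases hw : w ∈ tsupport φ
      · refine mul_le_mul_of_nonneg_left ?_ (norm_nonneg _)
        exact inv_anti₀ (by positivity) (pow_le_pow_left₀ hρ.le (hfar z hz w hw) 2)
      · rw [image_eq_zero_of_notMem_tsupport hw, norm_zero, zero_mul, zero_mul])
    (hint.norm.mul_const _)
    (Eventually.of_forall fun w z hz => by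
      by_cases hw : w ∈ tsupport φ
      · have h0 : z - w ≠ 0 := by
          intro h
          have := hfar z hz w hw
          rw [h, norm_zero] at this
          linarith
        have h1 : HasDerivAt (fun z : ℂ => z - w) 1 z := (hasDerivAt_id z).sub_const w
        have h2 := (h1.inv h0).const_mul (φ w)
        refine h2.congr_deriv ?_
        rw [neg_div, one_div]
      · simp only [image_eq_zero_of_notMem_tsupport hw, zero_mul]
        exact hasDerivAt_const _ _)
  exact hder.2.differentiableAt.differentiableWithinAt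

end Pool.Agent.H352R3.SA
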