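import Pool.Agent.H352R3.SA.Defs
import Pool.Agent.H352R3.SA.Pot
import Pool.Agent.H352R3.SA.Fub
import Pool.Agent.H352R3.SA.Ene
import Pool.Agent.H352R3.SA.Opr
import Pool.Agent.H352R3.SA.Gam
import Pool.Agent.H761R2.SV.Hol

/-!
# Module APP (helper267): approximation of the analytic capacity by the soft capacity
-/

set_option autoImplicit false

open MeasureTheory Complex Filter Topology
open scoped ComplexConjugate BoundedContinuousFunction ContDiff

namespace Pool.Agent.H352R3.SA

theorem app_le {g : ℂ → ℝ} (hg : Den g) {D : ℂ → ℂ} (hD : Continuous D)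
    (cD : HasCompactSupport D) (h1 : ∀ z, g z ≠ 0 → ‖pot D z‖ ≤ 1) :
    ‖∫ z, D z‖ ≤ (∫ z, ‖D z‖ * ‖(LK g).1 z‖ ^ 2) + Gam g := by
  have hs := LK_sol hg
  set L : ℂ → ℂ := fun z => (LK g).1 z with hL
  set K : ℂ → ℂ := fun z => (LK g).2 z with hK
  have cL : Continuous L := hs.cL
  have cK : Continuous K := hs.cK
  set κ : ℂ → ℂ := fun w => (g w : ℂ) * conj (K w) with hκ
  have hgc : Continuous fun w => (g w : ℂ) := Complex.continuous_ofReal.comp hg.cont
  have hgs : HasCompactSupport fun w => (g w : ℂ) :=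
    hg.supp.comp_left (g := fun x : ℝ => (x : ℂ)) Complex.ofReal_zero
  have cκ : Continuous κ := hgc.mul (Complex.continuous_conj.comp cK)
  have sκ : HasCompactSupport κ := hgs.mul_right
  have cP : Continuous (pot κ) := pot_continuous cκ sκ
  have cF : Continuous (pot D) := pot_continuous hD cD
  have eL : ∀ z, L z = 1 - pot κ z := by
    intro z
    have := hs.eL z
    rw [sub_eq_add_neg]
    exact this
  -- integrability
  have iD : Integrable D := hD.integrable_of_hasCompactSupport cD
  have iDP : Integrable fun z => D z * pot κ z :=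
    (hD.mul cP).integrable_of_hasCompactSupport cD.mul_right
  have iDP2 : Integrable fun z => D z * pot κ z ^ 2 :=
    (hD.mul (cP.pow 2)).integrable_of_hasCompactSupport cD.mul_right
  have iκF : Integrable fun z => κ z * pot D z :=
    (cκ.mul cF).integrable_of_hasCompactSupport sκ.mul_right
  have iκPF : Integrable fun z => κ z * pot κ z * pot D z :=
    ((cκ.mul cP).mul cF).integrable_of_hasCompactSupport (sκ.mul_right.mul_right)
  -- the two identities
  have e1 : ∫ z, D z * pot κ z = - ∫ z, κ z * pot D z := anti hD cD cκ sκ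
  have e2 : ∫ z, D z * pot κ z ^ 2 = - (2 * ∫ z, κ z * pot κ z * pot D z) := by
    have h3 : ∀ z, D z * pot κ z ^ 2 = 2 * (D z * pot (fun w => κ w * pot κ w) z) := by
      intro z
      rw [pot_sq cκ sκ z]
      ring
    simp only [h3]
    have h4 := anti hD cD (ψ := fun w => κ w * pot κ w) (cκ.mul cP) sκ.mul_right
    rw [integral_const_mul, h4]
    ring
  have e3 : ∫ z, D z * L z ^ 2 =
      (∫ z, D z) - 2 * (∫ z, D z * pot κ z) + ∫ z, D z * pot κ z ^ 2 := by
    have i12 : Integrable (fun z => D z - 2 * (D z * pot κ z)) := iD.sub (iDP.const_mul 2)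
    rw [← integral_const_mul, ← integral_sub iD (iDP.const_mul 2), ← integral_add i12 iDP2]
    refine integral_congr_ae (Eventually.of_forall fun z => ?_)
    simp only [eL z]
    ring
  have e4 : ∫ z, κ z * pot D z * L z = (∫ z, κ z * pot D z) - ∫ z, κ z * pot κ z * pot D z := by
    rw [← integral_sub iκF iκPF]
    refine integral_congr_ae (Eventually.of_forall fun z => ?_)
    simp only [eL z]
    ring
  have e5 : ∫ z, D z = (∫ z, D z * L z ^ 2) - ∫ z, 2 * (κ z * pot D z * L z) := by
    rw [integral_const_mul, e3, e4, e1, e2]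
    ring
  -- estimates
  have b1 : ‖∫ z, D z * L z ^ 2‖ ≤ ∫ z, ‖D z‖ * ‖L z‖ ^ 2 := by
    refine (norm_integral_le_integral_norm _).trans (le_of_eq ?_)
    refine integral_congr_ae (Eventually.of_forall fun z => ?_)
    simp only [norm_mul, norm_pow]
  have b2 : ‖∫ z, 2 * (κ z * pot D z * L z)‖ ≤ Gam g := by
    rw [Gam_eq hg]
    refine (norm_integral_le_integral_norm _).trans (integral_mono ?_ ?_ fun z => ?_)
    · exact ((continuous_const.mul ((cκ.mul cF).mul cL)).integrable_of_hasCompactSupport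
        (sκ.mul_right.mul_right.mul_left)).norm
    · refine (Continuous.integrable_of_hasCompactSupport ?_ ?_)
      · exact hg.cont.mul ((cL.norm.pow 2).add (cK.norm.pow 2))
      · exact hg.supp.mul_right
    · simp only [norm_mul, hκ, Complex.norm_real, Real.norm_eq_abs, abs_of_nonneg (hg.nonneg z),
        RCLike.norm_conj, Complex.norm_ofNat]
      by_cases h0 : g z = 0
      · rw [h0]; simp
      · have h2 := h1 z h0
        have h3 := hg.nonneg z
        have h4 : ‖K z‖ * ‖pot D z‖ ≤ ‖K z‖ := mul_le_of_le_one_right (norm_nonneg _) h2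
        have h5 : ‖K z‖ * ‖pot D z‖ * ‖L z‖ ≤ ‖K z‖ * ‖L z‖ :=
          mul_le_mul_of_nonneg_right h4 (norm_nonneg _)
        have h6 : 2 * (‖K z‖ * ‖L z‖) ≤ ‖L z‖ ^ 2 + ‖K z‖ ^ 2 := by
          nlinarith [sq_nonneg (‖L z‖ - ‖K z‖)]
        calc 2 * (g z * ‖K z‖ * ‖pot D z‖ * ‖L z‖)
            = g z * (2 * (‖K z‖ * ‖pot D z‖ * ‖L z‖)) := by ring
          _ ≤ g z * (‖L z‖ ^ 2 + ‖K z‖ ^ 2) := by
            apply mul_le_mul_of_nonneg_left _ h3
            linarith
  rw [e5]
  refine (norm_sub_le _ _).trans (add_le_add b1 b2)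

open Pool.Agent.H761R2.SV in
theorem App267_continuous_dbarR {s : ℂ → ℝ} (hs : ContDiff ℝ ∞ s) : Continuous (dbarR s) := by
  have h1 : Continuous (fderiv ℝ s) := hs.continuous_fderiv (by simp)
  unfold dbarR
  have h2 : Continuous fun z => fderiv ℝ s z 1 := h1.clm_apply continuous_const
  have h3 : Continuous fun z => fderiv ℝ s z I := h1.clm_apply continuous_const
  exact ((Complex.continuous_ofReal.comp h2).add
    (continuous_const.mul (Complex.continuous_ofReal.comp h3))).div_const 2

open Pool.Agent.H761R2.SV in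
open scoped Manifold in
theorem adm_le {E U : Set ℂ} (hE : IsCompact E) (hU : IsOpen U) (hEU : E ⊆ U) :
    ∃ χ : ℂ → ℝ, Den χ ∧ tsupport χ ⊆ U ∧ ∀ c ∈ adm E, ∀ t : ℝ, 0 < t →
      c ≤ (1 + 1 / t) * Gam (fun z => t * χ z) := by
  obtain ⟨K, hK, hEK, hKU⟩ := exists_compact_between hE hU hEU
  obtain ⟨b, hb1, hb0, hb01⟩ := exists_contMDiffMap_one_nhds_of_subset_interior 𝓘(ℝ, ℂ)
    (n := ⊤) hE.isClosed hEK
  set s : ℂ → ℝ := fun z => 1 - b z with hsdef
  have hs : ContDiff ℝ ∞ s := contDiff_const.sub b.contMDiff.contDiff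
  have h01 : ∀ z, 0 ≤ s z ∧ s z ≤ 1 := by
    intro z
    have := hb01 z
    rw [Set.mem_Icc] at this
    simp only [hsdef]
    constructor <;> linarith
  have hsE : ∀ᶠ z in 𝓝ˢ E, s z = 0 := by
    filter_upwards [hb1] with z hz
    simp only [hsdef, hz]
    ring
  have hsK : ∀ z ∉ K, s z = 1 := by
    intro z hz
    simp only [hsdef, hb0 z hz]
    ring
  have hts : tsupport s ⊆ Eᶜ := by
    intro z hz hzE
    have h1 : s =ᶠ[𝓝 z] 0 := by
      have := hsE.filter_mono (nhds_le_nhdsSet hzE)
      filter_upwards [this] with w hw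
      rw [hw]; rfl
    exact notMem_tsupport_iff_eventuallyEq.2 h1 hz
  have hdK : ∀ z ∉ K, dbarR s z = 0 := by
    intro z hz
    have h1 : s =ᶠ[𝓝 z] fun _ => (1:ℝ) := by
      filter_upwards [hK.isClosed.isOpen_compl.mem_nhds hz] with w hw
      exact hsK w hw
    rw [dbarR_congr h1, dbarR_const]
  have hdE : ∀ z ∈ E, dbarR s z = 0 := by
    intro z hz
    have h1 : s =ᶠ[𝓝 z] fun _ => (0:ℝ) := hsE.filter_mono (nhds_le_nhdsSet hz)
    rw [dbarR_congr h1, dbarR_const]
  have hcs : HasCompactSupport (dbarR s) := HasCompactSupport.intro hK hdK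
  have hdc : Continuous (dbarR s) := App267_continuous_dbarR hs
  have hpi : (0:ℝ) < Real.pi := Real.pi_pos
  set χ : ℂ → ℝ := fun z => ‖dbarR s z‖ / Real.pi with hχ
  have hχD : Den χ :=
    { cont := hdc.norm.div_const _
      supp := HasCompactSupport.intro hK fun z hz => by simp only [hχ, hdK z hz, norm_zero, zero_div]
      nonneg := fun z => by positivity }
  refine ⟨χ, hχD, ?_, ?_⟩
  · refine subset_trans (closure_minimal ?_ hK.isClosed) hKU
    intro z hz
    by_contra hzK
    apply hz
    simp only [hχ, hdK z hzK, norm_zero, zero_div]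
  rintro c ⟨f, l, hf, hf1, hfl, rfl⟩ t ht
  -- `f → 0` at infinity
  have hf0 : Tendsto f (cocompact ℂ) (𝓝 0) := by
    have h1 : Tendsto (fun z : ℂ => z⁻¹ * (z * f z)) (cocompact ℂ) (𝓝 (0 * l)) := by
      refine Tendsto.mul ?_ hfl
      rw [← Metric.cobounded_eq_cocompact]
      exact tendsto_inv₀_cobounded (α := ℂ)
    rw [zero_mul] at h1
    refine h1.congr' ?_
    have h2 : ∀ᶠ z : ℂ in cocompact ℂ, z ≠ 0 := by
      have := (isCompact_singleton (x := (0:ℂ))).compl_mem_cocompact
      filter_upwards [this] with z hz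
      exact hz
    filter_upwards [h2] with z hz
    field_simp
  -- the density
  set D : ℂ → ℂ := fun w => (Real.pi : ℂ)⁻¹ * (f w * dbarR s w) with hD
  have hpiC : (Real.pi : ℂ) ≠ 0 := by exact_mod_cast hpi.ne'
  have hDbar : ∀ z, dbar (fun w => f w * ((s w : ℝ) : ℂ) ^ (0 + 1)) z = f z * dbarR s z := by
    intro z
    rw [fS_dbar hE.isClosed.isOpen_compl hs hts hf 0 z]
    simp
  have hDc : Continuous D := by
    have h1 := continuous_dbar ((fS_contDiff hE.isClosed.isOpen_compl hs hts hf 0).of_le (by simp))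
    have h2 : (fun w => f w * dbarR s w) = dbar (fun w => f w * ((s w : ℝ) : ℂ) ^ (0 + 1)) := by
      funext z
      rw [hDbar]
    have h3 : Continuous fun w => f w * dbarR s w := by rw [h2]; exact h1
    exact continuous_const.mul h3
  have hDs : HasCompactSupport D := HasCompactSupport.intro hK fun z hz => by
    simp only [hD, hdK z hz, mul_zero]
  have hpot : ∀ z, pot D z = f z * ((s z : ℝ) : ℂ) := by
    intro z
    have h1 := hol_rep hE.isClosed.isOpen_compl hs h01 hts hcs hf hf0 0 z
    have h2 : pot D z = (Real.pi : ℂ)⁻¹ *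
        ∫ w, f w * ((((0:ℕ) : ℂ) + 1) * ((s w : ℝ) : ℂ) ^ 0 * dbarR s w) * (z - w)⁻¹ := by
      rw [← integral_const_mul, pot]
      refine integral_congr_ae (Eventually.of_forall fun w => ?_)
      simp only [hD, Nat.cast_zero, zero_add, pow_zero, one_mul]
      ring
    rw [h2, h1]
    field_simp
    simp
  have hint : ∫ z, D z = l := by
    have h1 := pot_tendsto hDc hDs
    have h2 : Tendsto (fun z => z * pot D z) (cocompact ℂ) (𝓝 l) := by
      refine hfl.congr' ?_
      filter_upwards [hK.compl_mem_cocompact] with z hz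
      rw [hpot, hsK z hz]
      simp
    exact tendsto_nhds_unique h1 h2
  -- conclusion
  set g : ℂ → ℝ := fun z => t * χ z with hg
  have hgD : Den g :=
    { cont := continuous_const.mul hχD.cont
      supp := hχD.supp.mul_left
      nonneg := fun z => mul_nonneg ht.le (hχD.nonneg z) }
  have hle := app_le hgD hDc hDs (by
    intro z _
    rw [hpot, norm_mul, Complex.norm_real, Real.norm_eq_abs, abs_of_nonneg (h01 z).1]
    by_cases hz : z ∈ E
    · have : s z = 0 := hsE.self_of_nhdsSet z hz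
      rw [this, mul_zero]; exact zero_le_one
    · have h2 := hf1 z hz
      calc ‖f z‖ * s z ≤ 1 * 1 := mul_le_mul h2 (h01 z).2 (h01 z).1 zero_le_one
        _ = 1 := by ring)
  rw [hint] at hle
  have hsol := LK_sol hgD
  have cL : Continuous fun z => (LK g).1 z := hsol.cL
  have cK : Continuous fun z => (LK g).2 z := hsol.cK
  have hfin : (∫ z, ‖D z‖ * ‖(LK g).1 z‖ ^ 2) ≤ 1 / t * Gam g := by
    rw [Gam_eq hgD, ← integral_const_mul]
    refine integral_mono ?_ ?_ fun z => ?_
    · exact (hDc.norm.mul (cL.norm.pow 2)).integrable_of_hasCompactSupport hDs.norm.mul_right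
    · exact (continuous_const.mul (hgD.cont.mul ((cL.norm.pow 2).add
        (cK.norm.pow 2)))).integrable_of_hasCompactSupport (hgD.supp.mul_right.mul_left)
    · simp only
      have hDle : ‖D z‖ ≤ χ z := by
        simp only [hD, hχ, norm_mul, norm_inv, Complex.norm_real, Real.norm_eq_abs,
          abs_of_pos hpi]
        by_cases hz : z ∈ E
        · rw [hdE z hz]; simp
        · have h2 := hf1 z hz
          rw [div_eq_inv_mul]
          apply mul_le_mul_of_nonneg_left _ (by positivity)
          exact mul_le_of_le_one_left (norm_nonneg _) h2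
      have e1 : 1 / t * (g z * (‖(LK g).1 z‖ ^ 2 + ‖(LK g).2 z‖ ^ 2)) =
          χ z * (‖(LK g).1 z‖ ^ 2 + ‖(LK g).2 z‖ ^ 2) := by
        simp only [hg]
        field_simp
      rw [e1]
      have h3 : 0 ≤ ‖(LK g).2 z‖ ^ 2 := by positivity
      have h4 : 0 ≤ ‖(LK g).1 z‖ ^ 2 := by positivity
      have h5 := hχD.nonneg z
      calc ‖D z‖ * ‖(LK g).1 z‖ ^ 2 ≤ χ z * ‖(LK g).1 z‖ ^ 2 :=
            mul_le_mul_of_nonneg_right hDle h4
        _ ≤ χ z * (‖(LK g).1 z‖ ^ 2 + ‖(LK g).2 z‖ ^ 2) :=
            mul_le_mul_of_nonneg_left (by linarith) h5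
  calc ‖l‖ ≤ _ := hle
    _ ≤ 1 / t * Gam g + Gam g := by linarith
    _ = (1 + 1 / t) * Gam g := by ring

end Pool.Agent.H352R3.SA
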