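import Mathlib

/-!
# Soft analytic capacity: definitions

`Den g`: a continuous compactly supported density `g ≥ 0`.  The pair `(L, K)` of `g` solves
`L = 1 - C(g conj K)`, `K = - C(g conj L)` (`C` = Cauchy potential), `Gam g = ∫ g conj L`.
-/

set_option autoImplicit false

open MeasureTheory Complex Filter Topology
open scoped ComplexConjugate BoundedContinuousFunction

namespace Pool.Agent.H352R3.SA

/-- densities -/
structure Den (g : ℂ → ℝ) : Prop where
  cont : Continuous g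
  supp : HasCompactSupport g
  nonneg : ∀ z, 0 ≤ g z

/-- the Cauchy potential `∫ φ(w) / (z - w) dA(w)` -/
noncomputable def pot (φ : ℂ → ℂ) (z : ℂ) : ℂ := ∫ w, φ w * (z - w)⁻¹

/-- the antilinear operator `A_g f = - C(g conj f)` -/
noncomputable def cop (g : ℂ → ℝ) (f : ℂ → ℂ) (z : ℂ) : ℂ :=
  - pot (fun w => (g w : ℂ) * conj (f w)) z

/-- `L = s + A_g K`, `K = t + A_g L` -/
structure Sol (g : ℂ → ℝ) (s t L K : ℂ → ℂ) : Prop where
  cL : Continuous L
  cK : Continuous K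
  eL : ∀ z, L z = s z + cop g K z
  eK : ∀ z, K z = t z + cop g L z

/-- the Banach space of pairs of bounded continuous functions -/
abbrev Y : Type := (ℂ →ᵇ ℂ) × (ℂ →ᵇ ℂ)

open Classical in
/-- the pair `(L, K)` of `g` -/
noncomputable def LK (g : ℂ → ℝ) : Y :=
  if h : ∃ p : Y, Sol g (fun _ => 1) (fun _ => 0) p.1 p.2 then Classical.choose h else 0

open Classical in
/-- the derivative of the pair `(L, K)` of `g` in the direction `h` -/
noncomputable def dLK (g h : ℂ → ℝ) : Y :=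
  if h : ∃ p : Y, Sol g (cop h (LK g).2) (cop h (LK g).1) p.1 p.2 then Classical.choose h else 0

/-- the soft analytic capacity of `g` -/
noncomputable def Gam (g : ℂ → ℝ) : ℝ := (∫ z, (g z : ℂ) * conj ((LK g).1 z)).re

/-- the derivative of `Gam` at `g` in the direction `h` -/
noncomputable def PP (g h : ℂ → ℝ) : ℝ := ∫ z, h z * (‖(LK g).1 z‖ ^ 2 - ‖(LK g).2 z‖ ^ 2)

/-- the second derivative of `Gam` at `g` in the directions `h₁`, `h₂` -/
noncomputable def QQ (g h₁ h₂ : ℂ → ℝ) : ℝ :=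
  ∫ z, h₂ z * (2 * (conj ((LK g).1 z) * (dLK g h₁).1 z - conj ((LK g).2 z) * (dLK g h₁).2 z).re)

/-- kernel of `g` with pole `q`: `ℓ(z, q) = (z - q)⁻¹ + m z`, `k(z, q) = k z` -/
structure IsKer (g : ℂ → ℝ) (q : ℂ) (m k : ℂ → ℂ) : Prop where
  cm : Continuous m
  ck : Continuous k
  em : ∀ z, m z = cop g k z
  ek : ∀ z, k z = cop g (fun w => (w - q)⁻¹ + m w) z

/-- values of `|f'(∞)|` for `f` analytic off `E`, `|f| ≤ 1` -/
def adm (E : Set ℂ) : Set ℝ :=
  {c | ∃ (f : ℂ → ℂ) (l : ℂ), DifferentiableOn ℂ f Eᶜ ∧ (∀ z ∈ Eᶜ, ‖f z‖ ≤ 1) ∧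
    Tendsto (fun z => z * f z) (cocompact ℂ) (𝓝 l) ∧ c = ‖l‖}

/-- analytic capacity -/
noncomputable def gamma (E : Set ℂ) : ℝ := sSup (adm E)

end Pool.Agent.H352R3.SA
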