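import Pool.Agent.H352R3.SA.Defs
import Pool.Agent.H352R3.SA.Pot

/-!
# Module INF: the third point goes to infinity (helper418)

`D2_inf_of` : the statement `D2_inf` from the statements of the modules OPR and KER it uses
(`sol_bound`, `LK_sol`, `ker_exists`, `D2_ker`) as hypotheses.
-/

set_option autoImplicit false

open MeasureTheory Complex Filter Topology
open scoped ComplexConjugate BoundedContinuousFunction

namespace Pool.Agent.H352R3.SA

namespace InfAux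

theorem cop_congr {g : ℂ → ℝ} {f f' : ℂ → ℂ} (h : ∀ w, g w ≠ 0 → f w = f' w) :
    cop g f = cop g f' := by
  have : (fun w => (g w : ℂ) * conj (f w)) = fun w => (g w : ℂ) * conj (f' w) := by
    funext w
    by_cases hw : g w = 0
    · simp [hw]
    · rw [h w hw]
  funext z
  unfold cop
  rw [this]

theorem cop_smul (g : ℂ → ℝ) (α : ℝ) (f : ℂ → ℂ) (z : ℂ) :
    cop g (fun w => (α : ℂ) * f w) z = α * cop g f z := by
  unfold cop pot
  rw [mul_neg, ← integral_const_mul]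
  congr 1
  refine integral_congr_ae (Eventually.of_forall fun w => ?_)
  simp only [map_mul, conj_ofReal]
  ring

theorem cop_sub {g : ℂ → ℝ} (hg : Den g) {f f' : ℂ → ℂ} (hf : Continuous f) (hf' : Continuous f')
    (z : ℂ) : cop g (fun w => f w - f' w) z = cop g f z - cop g f' z := by
  have hi : ∀ u : ℂ → ℂ, Continuous u →
      Integrable (fun w => ((g w : ℂ) * conj (u w)) * (z - w)⁻¹) := by
    intro u hu
    apply pot_integrable
    · exact (continuous_ofReal.comp hg.cont).mul (continuous_conj.comp hu)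
    · exact HasCompactSupport.mul_right (hg.supp.comp_left (g := fun x : ℝ => (x : ℂ)) (by simp))
  unfold cop pot
  rw [neg_sub_neg, ← integral_sub (hi f' hf') (hi f hf), ← integral_neg]
  refine integral_congr_ae (Eventually.of_forall fun w => ?_)
  simp only [map_sub]
  ring

/-- radial retraction on the closed ball of radius `ρ` -/
noncomputable def clamp (ρ : ℝ) (z : ℂ) : ℂ := z * ((ρ / max ‖z‖ ρ : ℝ) : ℂ)

theorem clamp_cont {ρ : ℝ} (hρ : 0 < ρ) : Continuous (clamp ρ) := by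
  unfold clamp
  refine continuous_id.mul (continuous_ofReal.comp ?_)
  refine continuous_const.div (continuous_norm.max continuous_const) fun z => ?_
  exact (lt_of_lt_of_le hρ (le_max_right _ _)).ne'

theorem clamp_norm {ρ : ℝ} (hρ : 0 < ρ) (z : ℂ) : ‖clamp ρ z‖ ≤ ρ := by
  unfold clamp
  have h : 0 < max ‖z‖ ρ := lt_of_lt_of_le hρ (le_max_right _ _)
  rw [norm_mul, Complex.norm_real, Real.norm_eq_abs, abs_of_nonneg (by positivity),
    ← mul_div_assoc, div_le_iff₀ h, mul_comm]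
  exact mul_le_mul_of_nonneg_left (le_max_left _ _) hρ.le

theorem clamp_eq {ρ : ℝ} (hρ : 0 < ρ) {z : ℂ} (hz : ‖z‖ ≤ ρ) : clamp ρ z = z := by
  unfold clamp
  rw [max_eq_right hz, div_self hρ.ne', ofReal_one, mul_one]

theorem key {g : ℂ → ℝ} (hg : Den g)
    (hsb : ∃ C : ℝ, 0 ≤ C ∧ ∀ (s t L K : ℂ → ℂ) (M : ℝ),
      Sol g s t L K → (∀ z, ‖s z‖ ≤ M) → (∀ z, ‖t z‖ ≤ M) →
      ∀ z, ‖L z‖ ≤ C * M ∧ ‖K z‖ ≤ C * M)
    (hLK : Sol g (fun _ => 1) (fun _ => 0) (LK g).1 (LK g).2)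
    {ρ : ℝ} (hρ : 0 < ρ) (hs : ∀ z, g z ≠ 0 → ‖z‖ ≤ ρ) :
    ∃ C : ℝ, 0 ≤ C ∧ ∀ (c : ℝ) (m k : ℂ → ℂ), ρ < c → IsKer g c m k → ∀ z : ℂ, ‖z‖ ≤ ρ →
      ‖((-c : ℝ) : ℂ) * ((z - c)⁻¹ + m z) - (LK g).1 z‖ ≤ C * (ρ / (c - ρ)) ∧
      ‖((-c : ℝ) : ℂ) * k z - (LK g).2 z‖ ≤ C * (ρ / (c - ρ)) := by
  obtain ⟨C, hC0, hC⟩ := hsb
  refine ⟨C, hC0, ?_⟩
  intro c m k hc hk
  have hne : ∀ z : ℂ, (c : ℂ) - clamp ρ z ≠ 0 := by
    intro z h0
    rw [sub_eq_zero] at h0
    have h1 := clamp_norm hρ z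
    rw [← h0, Complex.norm_real, Real.norm_eq_abs, abs_of_pos (hρ.trans hc)] at h1
    linarith
  have hσ : ∀ z : ℂ, ‖z‖ ≤ ρ → clamp ρ z / (c - clamp ρ z) = ((-c : ℝ) : ℂ) * (z - c)⁻¹ - 1 := by
    intro z hz
    have h1 := hne z
    rw [clamp_eq hρ hz] at h1 ⊢
    have h2 : z - c ≠ 0 := by
      intro h
      apply h1
      rw [← neg_sub, h, neg_zero]
    push_cast
    field_simp
    ring
  set V : ℂ → ℂ := fun z => ((-c : ℝ) : ℂ) * k z with hV
  set EK : ℂ → ℂ := fun z => V z - (LK g).2 z with hEK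
  set σ : ℂ → ℂ := fun z => clamp ρ z / (c - clamp ρ z) with hσd
  set EL : ℂ → ℂ := fun z => σ z + (((-c : ℝ) : ℂ) * m z - ((LK g).1 z - 1)) with hEL
  have cV : Continuous V := continuous_const.mul hk.ck
  have cEK : Continuous EK := cV.sub hLK.cK
  have cσ : Continuous σ := by
    refine (clamp_cont hρ).div (continuous_const.sub (clamp_cont hρ)) hne
  have cEL : Continuous EL :=
    cσ.add ((continuous_const.mul hk.cm).sub (hLK.cL.sub continuous_const))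
  have hSol : Sol g σ (fun _ => 0) EL EK := by
    refine ⟨cEL, cEK, ?_, ?_⟩
    · intro z
      have h1 : cop g EK z = cop g V z - cop g (LK g).2 z := cop_sub hg cV hLK.cK z
      have h2 : cop g V z = ((-c : ℝ) : ℂ) * m z := by
        rw [hk.em z]
        exact cop_smul g (-c) k z
      have h3 : (LK g).1 z = 1 + cop g (LK g).2 z := hLK.eL z
      rw [h1, h2]
      simp only [hEL]
      rw [h3]
      ring
    · intro z
      have h1 : cop g EL z = cop g (fun w => (EL w + (LK g).1 w) - (LK g).1 w) z := by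
        congr 1
        funext w
        ring
      have h1' : cop g (fun w => (EL w + (LK g).1 w) - (LK g).1 w) z =
          cop g (fun w => EL w + (LK g).1 w) z - cop g (LK g).1 z :=
        cop_sub hg (cEL.add hLK.cL) hLK.cL z
      rw [h1, h1']
      have h2 : cop g (fun w => EL w + (LK g).1 w) =
          cop g (fun w => ((-c : ℝ) : ℂ) * ((w - c)⁻¹ + m w)) := by
        apply cop_congr
        intro w hw
        simp only [hEL, hσd]
        rw [hσ w (hs w hw)]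
        ring
      rw [h2, cop_smul, ← hk.ek z]
      have h3 : (LK g).2 z = 0 + cop g (LK g).1 z := hLK.eK z
      simp only [hEK, hV]
      rw [h3]
      ring
  have hb : ∀ z, ‖σ z‖ ≤ ρ / (c - ρ) := by
    intro z
    simp only [hσd]
    rw [norm_div]
    have h1 : c - ρ ≤ ‖(c : ℂ) - clamp ρ z‖ := by
      have h2 := norm_sub_norm_le (c : ℂ) (clamp ρ z)
      rw [Complex.norm_real, Real.norm_eq_abs, abs_of_pos (hρ.trans hc)] at h2
      have h3 := clamp_norm hρ z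
      linarith
    have h4 : 0 < c - ρ := by linarith
    exact div_le_div₀ hρ.le (clamp_norm hρ z) h4 h1
  have hb0 : ∀ z : ℂ, ‖(fun _ : ℂ => (0 : ℂ)) z‖ ≤ ρ / (c - ρ) := by
    intro z
    have : 0 ≤ ρ / (c - ρ) := div_nonneg hρ.le (by linarith)
    simpa using this
  intro z hz
  obtain ⟨hL, hK⟩ := hC σ (fun _ => 0) EL EK _ hSol hb hb0 z
  refine ⟨?_, hK⟩
  have h1 : EL z = ((-c : ℝ) : ℂ) * ((z - c)⁻¹ + m z) - (LK g).1 z := by
    simp only [hEL, hσd]
    rw [hσ z hz]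
    ring
  rw [← h1]
  exact hL

/-- `D2_inf` from `sol_bound`, `LK_sol`, `ker_exists`, `D2_ker` -/
theorem D2_inf_of {g : ℂ → ℝ} (hg : Den g)
    (hsb : ∃ C : ℝ, 0 ≤ C ∧ ∀ (s t L K : ℂ → ℂ) (M : ℝ),
      Sol g s t L K → (∀ z, ‖s z‖ ≤ M) → (∀ z, ‖t z‖ ≤ M) →
      ∀ z, ‖L z‖ ≤ C * M ∧ ‖K z‖ ≤ C * M)
    (hLK : Sol g (fun _ => 1) (fun _ => 0) (LK g).1 (LK g).2)
    (hke : ∀ q : ℂ, q ∉ tsupport g → ∃ m k, IsKer g q m k)
    {a b : ℂ} (hab : a ≠ b)
    (ha : a ∉ tsupport g) (hb : b ∉ tsupport g) {m k : ℂ → ℂ} (hB : IsKer g b m k)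
    (hD2 : ∀ (c : ℂ) (mc kc : ℂ → ℂ), a ≠ c → b ≠ c → c ∉ tsupport g → IsKer g c mc kc →
      ((((a - b)⁻¹ + m a) * conj (kc a) - conj (k a) * ((a - c)⁻¹ + mc a)) *
          conj ((b - c)⁻¹ + mc b)
        - (((a - b)⁻¹ + m a) * conj ((a - c)⁻¹ + mc a) - conj (k a) * kc a) *
          conj (kc b)).re ≤ 0) :
    ((((a - b)⁻¹ + m a) * conj ((LK g).2 a) - conj (k a) * (LK g).1 a) * conj ((LK g).1 b)
      - (((a - b)⁻¹ + m a) * conj ((LK g).1 a) - conj (k a) * (LK g).2 a) *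
        conj ((LK g).2 b)).re ≤ 0 := by
  obtain ⟨r, hr⟩ := hg.supp.isBounded.exists_norm_le
  set ρ : ℝ := max (max r 1) (max ‖a‖ ‖b‖) with hρd
  have hρ : 0 < ρ := lt_of_lt_of_le one_pos ((le_max_right _ _).trans (le_max_left _ _))
  have hts : ∀ z ∈ tsupport g, ‖z‖ ≤ ρ := fun z hz =>
    (hr z hz).trans ((le_max_left _ _).trans (le_max_left _ _))
  have hs : ∀ z, g z ≠ 0 → ‖z‖ ≤ ρ := fun z hz => hts z (subset_tsupport _ hz)
  have ha' : ‖a‖ ≤ ρ := (le_max_left _ _).trans (le_max_right _ _)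
  have hb' : ‖b‖ ≤ ρ := (le_max_right _ _).trans (le_max_right _ _)
  obtain ⟨C, hC0, hC⟩ := key hg hsb hLK hρ hs
  have hfar : ∀ n : ℕ, ρ < n → ∀ z : ℂ, ‖z‖ ≤ ρ → z ≠ ((n : ℝ) : ℂ) := by
    intro n hn z hz h
    rw [h, Complex.norm_real, Real.norm_eq_abs, abs_of_nonneg (Nat.cast_nonneg n)] at hz
    linarith
  have hex : ∀ n : ℕ, ∃ (m' k' : ℂ → ℂ), ρ < n → IsKer g ((n : ℝ) : ℂ) m' k' := by
    intro n
    by_cases hn : ρ < n
    · have : ((n : ℝ) : ℂ) ∉ tsupport g := fun h => hfar n hn _ (hts _ h) rfl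
      obtain ⟨m', k', h⟩ := hke _ this
      exact ⟨m', k', fun _ => h⟩
    · exact ⟨0, 0, fun h => absurd h hn⟩
  choose mn kn hmk using hex
  have hlim0 : Tendsto (fun n : ℕ => C * (ρ / ((n : ℝ) - ρ))) atTop (𝓝 0) := by
    have h1 : Tendsto (fun n : ℕ => (n : ℝ) - ρ) atTop atTop :=
      tendsto_atTop_add_const_right _ _ tendsto_natCast_atTop_atTop
    have h2 := (h1.const_div_atTop ρ).const_mul C
    simpa using h2
  have hev : ∀ᶠ n : ℕ in atTop, ρ < n := by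
    filter_upwards [tendsto_natCast_atTop_atTop.eventually_gt_atTop ρ] with n hn using hn
  have hU : ∀ z : ℂ, ‖z‖ ≤ ρ →
      Tendsto (fun n : ℕ => ((-(n : ℝ) : ℝ) : ℂ) * ((z - ((n : ℝ) : ℂ))⁻¹ + mn n z)) atTop
        (𝓝 ((LK g).1 z)) := by
    intro z hz
    rw [tendsto_iff_norm_sub_tendsto_zero]
    refine squeeze_zero_norm' ?_ hlim0
    filter_upwards [hev] with n hn
    rw [norm_norm]
    exact (hC n _ _ hn (hmk n hn) z hz).1
  have hV : ∀ z : ℂ, ‖z‖ ≤ ρ →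
      Tendsto (fun n : ℕ => ((-(n : ℝ) : ℝ) : ℂ) * kn n z) atTop (𝓝 ((LK g).2 z)) := by
    intro z hz
    rw [tendsto_iff_norm_sub_tendsto_zero]
    refine squeeze_zero_norm' ?_ hlim0
    filter_upwards [hev] with n hn
    rw [norm_norm]
    exact (hC n _ _ hn (hmk n hn) z hz).2
  have cc : ∀ {u : ℕ → ℂ} {l : ℂ}, Tendsto u atTop (𝓝 l) →
      Tendsto (fun n => conj (u n)) atTop (𝓝 (conj l)) := fun h =>
    (continuous_conj.tendsto _).comp h
  have hT := (((((cc (hV a ha')).const_mul ((a - b)⁻¹ + m a)).sub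
    ((hU a ha').const_mul (conj (k a)))).mul (cc (hU b hb'))).sub
    ((((cc (hU a ha')).const_mul ((a - b)⁻¹ + m a)).sub
    ((hV a ha').const_mul (conj (k a)))).mul (cc (hV b hb'))))
  refine le_of_tendsto ((continuous_re.tendsto _).comp hT) ?_
  filter_upwards [hev] with n hn
  have hD := hD2 _ _ _ (hfar n hn a ha') (hfar n hn b hb')
    (fun h => hfar n hn _ (hts _ h) rfl) (hmk n hn)
  simp only [Function.comp_apply, map_mul, conj_ofReal]
  set x := (a - ((n : ℝ) : ℂ))⁻¹ + mn n a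
  set x' := (b - ((n : ℝ) : ℂ))⁻¹ + mn n b
  set y := kn n a
  set y' := kn n b
  set A := (a - b)⁻¹ + m a
  have e : (A * (((-(n : ℝ) : ℝ) : ℂ) * conj y) - conj (k a) * (((-(n : ℝ) : ℝ) : ℂ) * x)) *
      (((-(n : ℝ) : ℝ) : ℂ) * conj x') -
      (A * (((-(n : ℝ) : ℝ) : ℂ) * conj x) - conj (k a) * (((-(n : ℝ) : ℝ) : ℂ) * y)) *
      (((-(n : ℝ) : ℝ) : ℂ) * conj y') =
      (((n : ℝ) ^ 2 : ℝ) : ℂ) * ((A * conj y - conj (k a) * x) * conj x' -
        (A * conj x - conj (k a) * y) * conj y') := by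
    push_cast
    ring
  rw [e, re_ofReal_mul]
  exact mul_nonpos_of_nonneg_of_nonpos (by positivity) hD

end InfAux

end Pool.Agent.H352R3.SA
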