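import Pool.Agent.H352R3.SA.Ene
import Pool.Agent.H352R3.SA.Opr
import Pool.Agent.H761R2.SV.Disc

/-! Kernels with a pole off the support, and the quadratic inequality for them. -/

set_option autoImplicit false

open MeasureTheory Complex Filter Topology
open scoped ComplexConjugate BoundedContinuousFunction

namespace Pool.Agent.H352R3.SA

namespace Ker

theorem cop_congr {g : ℂ → ℝ} {f f' : ℂ → ℂ} (h : ∀ w, g w ≠ 0 → f w = f' w) (z : ℂ) :
    cop g f z = cop g f' z := by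
  unfold cop pot
  congr 1
  refine integral_congr_ae (Eventually.of_forall fun w => ?_)
  by_cases hw : g w = 0
  · simp [hw]
  · simp only [h w hw]

theorem exists_s {g : ℂ → ℝ} {q : ℂ} (hq : q ∉ tsupport g) :
    ∃ s : ℂ →ᵇ ℂ, ∀ z, g z ≠ 0 → s z = (z - q)⁻¹ := by
  have ho : IsOpen (tsupport g)ᶜ := (isClosed_tsupport g).isOpen_compl
  obtain ⟨ρ, hρ, hb⟩ := Metric.isOpen_iff.1 ho q hq
  have hpos : ∀ z : ℂ, 0 < max (‖z - q‖ ^ 2) (ρ ^ 2) := fun z => lt_max_of_lt_right (by positivity)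
  have hc : Continuous fun z : ℂ => conj (z - q) / ((max (‖z - q‖ ^ 2) (ρ ^ 2) : ℝ) : ℂ) := by
    refine Continuous.div ?_ ?_ ?_
    · exact Complex.continuous_conj.comp (continuous_id.sub continuous_const)
    · refine Complex.continuous_ofReal.comp ?_
      exact (((continuous_id.sub continuous_const).norm).pow 2).max continuous_const
    · intro z
      exact_mod_cast (hpos z).ne'
  have hbd : ∀ z : ℂ, ‖conj (z - q) / ((max (‖z - q‖ ^ 2) (ρ ^ 2) : ℝ) : ℂ)‖ ≤ 1 / ρ := by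
    intro z
    rw [norm_div, Complex.norm_conj, Complex.norm_real, Real.norm_eq_abs, abs_of_pos (hpos z),
      div_le_div_iff₀ (hpos z) hρ, one_mul]
    rcases le_total ‖z - q‖ ρ with h | h
    · calc ‖z - q‖ * ρ ≤ ρ * ρ := mul_le_mul_of_nonneg_right h hρ.le
        _ = ρ ^ 2 := by ring
        _ ≤ _ := le_max_right _ _
    · calc ‖z - q‖ * ρ ≤ ‖z - q‖ * ‖z - q‖ := mul_le_mul_of_nonneg_left h (norm_nonneg _)
        _ = ‖z - q‖ ^ 2 := by ring
        _ ≤ _ := le_max_left _ _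
  refine ⟨BoundedContinuousFunction.ofNormedAddCommGroup _ hc (1 / ρ) hbd, fun z hz => ?_⟩
  have hz1 : z ∈ tsupport g := subset_tsupport g hz
  have hz2 : ρ ≤ ‖z - q‖ := by
    by_contra hlt
    rw [not_le, ← dist_eq_norm] at hlt
    exact hb hlt hz1
  have hm : max (‖z - q‖ ^ 2) (ρ ^ 2) = ‖z - q‖ ^ 2 :=
    max_eq_left (pow_le_pow_left₀ hρ.le hz2 2)
  show conj (z - q) / ((max (‖z - q‖ ^ 2) (ρ ^ 2) : ℝ) : ℂ) = (z - q)⁻¹
  rw [hm, Complex.inv_def, div_eq_mul_inv, Complex.normSq_eq_norm_sq]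
  push_cast
  rfl

end Ker

theorem ker_exists {g : ℂ → ℝ} (hg : Den g) {q : ℂ} (hq : q ∉ tsupport g) :
    ∃ m k, IsKer g q m k := by
  obtain ⟨s, hs⟩ := Ker.exists_s hq
  obtain ⟨p, hp⟩ := sol_exists hg s 0
  refine ⟨cop g p.2, p.2, ?_, hp.cK, fun z => rfl, fun z => ?_⟩
  · exact cop_continuous hg.cont hg.supp hp.cK
  · rw [hp.eK z]
    simp only [BoundedContinuousFunction.coe_zero, Pi.zero_apply, zero_add]
    refine Ker.cop_congr (fun w hw => ?_) z
    rw [hp.eL w, hs w hw]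

namespace Ker

open Pool.Agent.H761R2.SV in
theorem tend {g : ℂ → ℝ} (hg : Den g) {p q : ℂ} (hp : p ∉ tsupport g) (hq : q ∉ tsupport g)
    {m k : ℂ → ℂ} (h : IsKer g q m k) :
    Tendsto (fun δ : ℝ => KB (xg g δ) (mg g δ) p q) (𝓝[>] 0) (𝓝 (k p)) ∧
      Tendsto (fun δ : ℝ => LB (xg g δ) (mg g δ) p q) (𝓝[>] 0) (𝓝 ((p - q)⁻¹ + m p)) := by
  obtain ⟨s, hs⟩ := exists_s hq
  obtain ⟨D, hD0, hD⟩ := exists_D hp
  set f1 : ℂ → ℂ := fun z => -((g z : ℂ) * conj (s z + m z)) with hf1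
  set f2 : ℂ → ℂ := fun z => -((g z : ℂ) * conj (k z)) with hf2
  have cg : Continuous fun z => (g z : ℂ) := Complex.continuous_ofReal.comp hg.cont
  have c1 : Continuous f1 :=
    (cg.mul (Complex.continuous_conj.comp (s.continuous.add h.cm))).neg
  have c2 : Continuous f2 := (cg.mul (Complex.continuous_conj.comp h.ck)).neg
  have F1 : ∀ z, ∫ w, f1 w * (z - w)⁻¹ = k z := by
    intro z
    rw [h.ek z]
    have : cop g (fun w => (w - q)⁻¹ + m w) z = cop g (fun w => s w + m w) z :=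
      cop_congr (fun w hw => by simp only [hs w hw]) z
    rw [this]
    unfold cop pot
    rw [← integral_neg]
    refine integral_congr_ae (Eventually.of_forall fun w => ?_)
    simp only [hf1]
    ring
  have F2 : ∀ z, ∫ w, f2 w * (z - w)⁻¹ = m z := by
    intro z
    rw [h.em z]
    unfold cop pot
    rw [← integral_neg]
    refine integral_congr_ae (Eventually.of_forall fun w => ?_)
    simp only [hf2]
    ring
  have key : ∀ η : ℝ, 0 < η → ∀ᶠ δ : ℝ in 𝓝[>] 0,
      ‖KB (xg g δ) (mg g δ) p q - k p‖ ≤ η ∧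
      ‖LB (xg g δ) (mg g δ) p q - ((p - q)⁻¹ + m p)‖ ≤ η := by
    intro η hη
    set A : ℝ := (∫ z, g z) + 1 with hA
    have hA0 : 0 < A := by
      have : 0 ≤ ∫ z, g z := integral_nonneg hg.nonneg
      linarith
    set H : ℝ := (η / (2 * (D * Real.sqrt A + 1))) ^ 2 with hH
    have hDA : 0 ≤ D * Real.sqrt A := mul_nonneg hD0 (Real.sqrt_nonneg _)
    have hH0 : 0 < H := by positivity
    have hsq : Real.sqrt H = η / (2 * (D * Real.sqrt A + 1)) := Real.sqrt_sq (by positivity)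
    have hb : D * Real.sqrt A * Real.sqrt H ≤ η / 2 := by
      rw [hsq, mul_div_assoc', div_le_div_iff₀ (by positivity) (by norm_num)]
      nlinarith
    have := disc hg.cont hg.nonneg hg.supp p q hp c1 c2 (fun z hz => by simp [hf1, hz])
      (fun z hz => by simp [hf2, hz]) F1 F2 (h := fun _ => 0) continuous_const
      (fun z hz => by
        have hz' : (g z : ℂ) ≠ 0 := by exact_mod_cast hz
        simp only [hf2, map_neg, map_mul, Complex.conj_ofReal, Complex.conj_conj, neg_div]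
        rw [mul_div_cancel_left₀ _ hz']
        simp)
      (fun z hz => by
        have hz' : (g z : ℂ) ≠ 0 := by exact_mod_cast hz
        simp only [hf1, neg_div]
        rw [mul_div_cancel_left₀ _ hz', hs z hz, map_add]
        have : -(conj ((z - q)⁻¹) + conj (m z)) + conj (m z) + conj ((z - q)⁻¹) = 0 := by ring
        rw [this]
        simp)
      (A := A) (H := H) (D := D) (by rw [hA]; linarith) (by simpa using hH0) hD0 hD
      (η := η / 2) (by positivity)
    filter_upwards [this] with δ hδ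
    exact ⟨hδ.1.trans (by linarith), hδ.2.trans (by linarith)⟩
  constructor
  · rw [tendsto_iff_norm_sub_tendsto_zero, Metric.tendsto_nhds]
    intro ε hε
    filter_upwards [key (ε / 2) (by positivity)] with δ hδ
    rw [Real.dist_eq, sub_zero, abs_of_nonneg (norm_nonneg _)]
    linarith [hδ.1]
  · rw [tendsto_iff_norm_sub_tendsto_zero, Metric.tendsto_nhds]
    intro ε hε
    filter_upwards [key (ε / 2) (by positivity)] with δ hδ
    rw [Real.dist_eq, sub_zero, abs_of_nonneg (norm_nonneg _)]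
    linarith [hδ.2]

end Ker

open Pool.Agent.H761R2.SV in
theorem D2_ker {g : ℂ → ℝ} (hg : Den g) {a b c : ℂ} (hab : a ≠ b) (hac : a ≠ c) (hbc : b ≠ c)
    (ha : a ∉ tsupport g) (hb : b ∉ tsupport g) (hc : c ∉ tsupport g) {mb kb mc kc : ℂ → ℂ}
    (hB : IsKer g b mb kb) (hC : IsKer g c mc kc) :
    ((((a - b)⁻¹ + mb a) * conj (kc a) - conj (kb a) * ((a - c)⁻¹ + mc a)) *
        conj ((b - c)⁻¹ + mc b)
      - (((a - b)⁻¹ + mb a) * conj ((a - c)⁻¹ + mc a) - conj (kb a) * kc a) *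
        conj (kc b)).re ≤ 0 := by
  obtain ⟨k1, l1⟩ := Ker.tend hg ha hb hB
  obtain ⟨k2, l2⟩ := Ker.tend hg ha hc hC
  obtain ⟨k3, l3⟩ := Ker.tend hg hb hc hC
  have cj : ∀ {f : ℝ → ℂ} {x : ℂ}, Tendsto f (𝓝[>] 0) (𝓝 x) →
      Tendsto (fun δ => conj (f δ)) (𝓝[>] 0) (𝓝 (conj x)) := fun h =>
    (Complex.continuous_conj.tendsto _).comp h
  have T : Tendsto (fun δ : ℝ => D2 (KB (xg g δ) (mg g δ)) (LB (xg g δ) (mg g δ)) a b c)
      (𝓝[>] 0) (𝓝 (2 * ((((a - b)⁻¹ + mb a) * conj (kc a) - conj (kb a) * ((a - c)⁻¹ + mc a)) *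
        conj ((b - c)⁻¹ + mc b)
      - (((a - b)⁻¹ + mb a) * conj ((a - c)⁻¹ + mc a) - conj (kb a) * kc a) *
        conj (kc b)).re)) := by
    unfold D2
    refine Tendsto.const_mul _ ((Complex.continuous_re.tendsto _).comp ?_)
    exact (((l1.mul (cj k2)).sub ((cj k1).mul l2)).mul (cj l3)).sub
      (((l1.mul (cj l2)).sub ((cj k1).mul k2)).mul (cj k3))
  have hle : 2 * ((((a - b)⁻¹ + mb a) * conj (kc a) - conj (kb a) * ((a - c)⁻¹ + mc a)) *
        conj ((b - c)⁻¹ + mc b)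
      - (((a - b)⁻¹ + mb a) * conj ((a - c)⁻¹ + mc a) - conj (kb a) * kc a) *
        conj (kc b)).re ≤ 0 := by
    refine le_of_forall_pos_le_add fun η hη => ?_
    rw [zero_add]
    exact le_of_tendsto T (D2_small hg.cont hg.nonneg hg.supp a b c hab hac hbc ha hb hc hη)
  linarith

end Pool.Agent.H352R3.SA
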