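import Pool.Agent.H352R3.SA.Opr
import Pool.Agent.H352R3.SA.Ker
import Pool.Agent.H352R3.SA.InfOf

/-!
# Module INF: the third point goes to infinity (helper418)
-/

set_option autoImplicit false

open MeasureTheory Complex Filter Topology
open scoped ComplexConjugate BoundedContinuousFunction

namespace Pool.Agent.H352R3.SA

theorem D2_inf {g : ℂ → ℝ} (hg : Den g) {a b : ℂ} (hab : a ≠ b)
    (ha : a ∉ tsupport g) (hb : b ∉ tsupport g) {m k : ℂ → ℂ} (hB : IsKer g b m k) :
    ((((a - b)⁻¹ + m a) * conj ((LK g).2 a) - conj (k a) * (LK g).1 a) * conj ((LK g).1 b)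
      - (((a - b)⁻¹ + m a) * conj ((LK g).1 a) - conj (k a) * (LK g).2 a) *
        conj ((LK g).2 b)).re ≤ 0 :=
  InfAux.D2_inf_of hg (sol_bound hg) (LK_sol hg) (fun _ hq => ker_exists hg hq) hab ha hb hB
    (fun _ _ _ hac hbc hc hC => D2_ker hg hab hac hbc ha hb hc hB hC)

end Pool.Agent.H352R3.SA
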