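import Pool.Agent.H352R3.SA.Ene
import Pool.Agent.H352R3.SA.Opr
import Pool.Agent.H352R3.SA.Ker
import Pool.Agent.H352R3.SA.Inf

/-!
# Duality formula for the derivative pair, and `QQ ≤ 0` for disjoint supports
-/

set_option autoImplicit false

open MeasureTheory Complex Filter Topology
open scoped ComplexConjugate BoundedContinuousFunction

namespace Pool.Agent.H352R3.SA

namespace DuaAux

/-- a continuous function that equals `(w - y)⁻¹` on a closed set not containing `y` -/
theorem exists_cut {E : Set ℂ} (hE : IsClosed E) {y : ℂ} (hy : y ∉ E) :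
    ∃ s : ℂ → ℂ, Continuous s ∧ ∀ w ∈ E, s w = (w - y)⁻¹ := by
  obtain ⟨ρ, hρ, hb⟩ := Metric.isOpen_iff.1 hE.isOpen_compl y hy
  refine ⟨fun w => conj (w - y) / ((max (‖w - y‖ ^ 2) (ρ ^ 2) : ℝ) : ℂ), ?_, ?_⟩
  · refine Continuous.div (by fun_prop) (by fun_prop) ?_
    intro w
    have : 0 < max (‖w - y‖ ^ 2) (ρ ^ 2) := lt_max_of_lt_right (by positivity)
    exact_mod_cast this.ne'
  · intro w hw
    have h1 : ρ ≤ ‖w - y‖ := by
      by_contra h
      push Not at h
      exact hb (by simpa [dist_eq_norm] using h) hw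
    have h2 : max (‖w - y‖ ^ 2) (ρ ^ 2) = ‖w - y‖ ^ 2 := max_eq_left (by gcongr)
    simp only [h2]
    rw [Complex.inv_def, Complex.normSq_eq_norm_sq, div_eq_mul_inv]
    push_cast
    rfl

/-- `cop g` only depends on the values where `g ≠ 0` -/
theorem cop_congr {g : ℂ → ℝ} {u v : ℂ → ℂ} (h : ∀ w, g w ≠ 0 → u w = v w) (z : ℂ) :
    cop g u z = cop g v z := by
  unfold cop pot
  congr 1
  apply integral_congr_ae
  filter_upwards with w
  by_cases hw : g w = 0
  · simp [hw]
  · rw [h w hw]

/-- value of `cop g V` at a point off the support -/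
theorem cop_off {g : ℂ → ℝ} {V s : ℂ → ℂ} {y : ℂ} (sg : ∀ w, g w ≠ 0 → s w = (w - y)⁻¹) :
    cop g V y = ∫ w, (g w : ℂ) * conj (V w) * s w := by
  unfold cop pot
  rw [← integral_neg]
  apply integral_congr_ae
  filter_upwards with w
  by_cases hw : g w = 0
  · simp [hw]
  · rw [sg w hw, ← neg_sub w y, inv_neg]
    ring

theorem integ {g : ℂ → ℝ} (hg : Continuous g) (cg : HasCompactSupport g) {u : ℂ → ℂ}
    (hu : Continuous u) : Integrable (fun w => (g w : ℂ) * u w) := by
  apply Continuous.integrable_of_hasCompactSupport (by fun_prop)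
  apply HasCompactSupport.mul_right
  exact cg.comp_left (g := fun x : ℝ => (x : ℂ)) (by simp)

/-- the duality computation -/
theorem gen {g h : ℂ → ℝ} (hg : Continuous g) (cg : HasCompactSupport g) (hh : Continuous h)
    (ch : HasCompactSupport h) {y : ℂ} {s m k P Q U V : ℂ → ℂ}
    (hs : Continuous s) (hm : Continuous m) (hk : Continuous k) (hP : Continuous P)
    (hQ : Continuous Q) (hU : Continuous U) (hV : Continuous V)
    (sg : ∀ w, g w ≠ 0 → s w = (w - y)⁻¹)
    (em : ∀ z, m z = cop g k z) (ek : ∀ z, k z = cop g (fun w => s w + m w) z)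
    (eU : ∀ z, U z = cop h Q z + cop g V z) (eV : ∀ z, V z = cop h P z + cop g U z) :
    cop g V y = ∫ x, (h x : ℂ) * (conj (Q x) * m x - P x * conj (k x)) := by
  have hl : Continuous (fun w => s w + m w) := hs.add hm
  have hBP : Continuous (cop h P) := cop_continuous hh ch hP
  have hBQ : Continuous (cop h Q) := cop_continuous hh ch hQ
  have hAV : Continuous (cop g V) := cop_continuous hg cg hV
  have hAU : Continuous (cop g U) := cop_continuous hg cg hU
  -- step A
  rw [cop_off (V := V) sg]
  -- step B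
  have B : ∫ w, (g w : ℂ) * conj (V w) * s w =
      (∫ w, (g w : ℂ) * conj (V w) * (s w + m w)) - ∫ w, (g w : ℂ) * conj (V w) * cop g k w := by
    rw [← integral_sub]
    · congr 1
      funext w
      rw [em w]
      ring
    · have := integ hg cg (u := fun w => conj (V w) * (s w + m w)) (by fun_prop)
      simpa only [mul_assoc] using this
    · have hAk : Continuous (cop g k) := cop_continuous hg cg hk
      have := integ hg cg (u := fun w => conj (V w) * cop g k w) (by fun_prop)
      simpa only [mul_assoc] using this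
  have C := cop_anti hg cg hg cg hV hk
  have D : ∫ w, (g w : ℂ) * conj (k w) * cop g V w =
      (∫ w, (g w : ℂ) * conj (k w) * U w) - ∫ w, (g w : ℂ) * conj (k w) * cop h Q w := by
    rw [← integral_sub]
    · congr 1
      funext w
      rw [eU w]
      ring
    · have := integ hg cg (u := fun w => conj (k w) * U w) (by fun_prop)
      simpa only [mul_assoc] using this
    · have := integ hg cg (u := fun w => conj (k w) * cop h Q w) (by fun_prop)
      simpa only [mul_assoc] using this
  have E : ∫ w, (g w : ℂ) * conj (V w) * (s w + m w) =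
      conj (∫ w, (g w : ℂ) * conj (s w + m w) * V w) := by
    rw [← integral_conj]
    congr 1
    funext w
    simp only [map_mul, map_add, conj_conj, conj_ofReal]
    ring
  have F : ∫ w, (g w : ℂ) * conj (s w + m w) * V w =
      (∫ w, (g w : ℂ) * conj (s w + m w) * cop h P w) +
        ∫ w, (g w : ℂ) * conj (s w + m w) * cop g U w := by
    rw [← integral_add]
    · congr 1
      funext w
      rw [eV w]
      ring
    · have := integ hg cg (u := fun w => conj (s w + m w) * cop h P w) (by fun_prop)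
      simpa only [mul_assoc] using this
    · have := integ hg cg (u := fun w => conj (s w + m w) * cop g U w) (by fun_prop)
      simpa only [mul_assoc] using this
  have G := cop_anti hg cg hg cg hl hU
  have H := cop_anti hg cg hh ch hl hP
  have I := cop_anti hg cg hh ch hk hQ
  have G' : ∫ z, (g z : ℂ) * conj (U z) * cop g (fun w => s w + m w) z =
      ∫ z, (g z : ℂ) * conj (U z) * k z := by
    congr 1
    funext z
    rw [ek z]
  have H' : ∫ z, (h z : ℂ) * conj (P z) * cop g (fun w => s w + m w) z =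
      ∫ z, (h z : ℂ) * conj (P z) * k z := by
    congr 1
    funext z
    rw [ek z]
  have I' : ∫ z, (h z : ℂ) * conj (Q z) * cop g k z =
      ∫ z, (h z : ℂ) * conj (Q z) * m z := by
    congr 1
    funext z
    rw [em z]
  have G'' : conj (∫ z, (g z : ℂ) * conj (U z) * k z) = ∫ w, (g w : ℂ) * conj (k w) * U w := by
    rw [← integral_conj]
    congr 1
    funext w
    simp only [map_mul, conj_conj, conj_ofReal]
    ring
  have H'' : conj (∫ z, (h z : ℂ) * conj (P z) * k z) = ∫ w, (h w : ℂ) * (P w * conj (k w)) := by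
    rw [← integral_conj]
    congr 1
    funext w
    simp only [map_mul, conj_conj, conj_ofReal]
    ring
  have R : ∫ x, (h x : ℂ) * (conj (Q x) * m x - P x * conj (k x)) =
      (∫ x, (h x : ℂ) * conj (Q x) * m x) - ∫ x, (h x : ℂ) * (P x * conj (k x)) := by
    rw [← integral_sub]
    · congr 1
      funext w
      ring
    · have := integ hh ch (u := fun w => conj (Q w) * m w) (by fun_prop)
      simpa only [mul_assoc] using this
    · exact integ hh ch (u := fun w => P w * conj (k w)) (by fun_prop)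
  rw [B, C, D, E, F, G, H, I, G', H', I', R, map_add, map_neg, map_neg, G'', H'']
  ring

theorem tsupport_mem {g : ℂ → ℝ} {w : ℂ} (h : g w ≠ 0) : w ∈ tsupport g :=
  subset_tsupport g h

end DuaAux

open DuaAux in
theorem dLK_formula {g h : ℂ → ℝ} (hg : Den g) (hh : Continuous h) (ch : HasCompactSupport h)
    {y : ℂ} (hy : y ∉ tsupport g) (hy' : y ∉ tsupport h) {m k : ℂ → ℂ} (hk : IsKer g y m k) :
    (dLK g h).1 y = (∫ x, (h x : ℂ) *
      (conj ((LK g).2 x) * ((x - y)⁻¹ + m x) - (LK g).1 x * conj (k x))) ∧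
    (dLK g h).2 y = ∫ x, (h x : ℂ) *
      (conj ((LK g).1 x) * ((x - y)⁻¹ + m x) - (LK g).2 x * conj (k x)) := by
  obtain ⟨s, hs, hse⟩ := exists_cut ((isClosed_tsupport g).union (isClosed_tsupport h))
    (y := y) (by simp [hy, hy'])
  have sg : ∀ w, g w ≠ 0 → s w = (w - y)⁻¹ := fun w hw => hse w (Or.inl (tsupport_mem hw))
  have sh : ∀ w, h w ≠ 0 → s w = (w - y)⁻¹ := fun w hw => hse w (Or.inr (tsupport_mem hw))
  have ek : ∀ z, k z = cop g (fun w => s w + m w) z := by
    intro z
    rw [hk.ek z]
    apply cop_congr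
    intro w hw
    rw [sg w hw]
  have hL : Continuous (fun z => (LK g).1 z) := (LK g).1.continuous
  have hK : Continuous (fun z => (LK g).2 z) := (LK g).2.continuous
  have hd := dLK_sol hg hh ch
  have aux : ∀ P Q U V : ℂ → ℂ, Continuous P → Continuous Q → Continuous U → Continuous V →
      (∀ z, U z = cop h Q z + cop g V z) → (∀ z, V z = cop h P z + cop g U z) →
      U y = ∫ x, (h x : ℂ) * (conj (Q x) * ((x - y)⁻¹ + m x) - P x * conj (k x)) := by
    intro P Q U V hP hQ hU hV eU eV
    rw [eU y, gen hg.cont hg.supp hh ch hs hk.cm hk.ck hP hQ hU hV sg hk.em ek eU eV,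
      cop_off (V := Q) sh, ← integral_add]
    · apply integral_congr_ae
      filter_upwards with w
      by_cases hw : h w = 0
      · simp [hw]
      · rw [sh w hw]
        ring
    · have := integ hh ch (u := fun w => conj (Q w) * s w) (by fun_prop)
      simpa only [mul_assoc] using this
    · have hm := hk.cm
      have hkc := hk.ck
      exact integ hh ch (u := fun w => conj (Q w) * m w - P w * conj (k w)) (by fun_prop)
  refine ⟨aux _ _ _ _ hL hK hd.cL hd.cK hd.eL hd.eK, aux _ _ _ _ hK hL hd.cK hd.cL hd.eK hd.eL⟩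

open DuaAux in
theorem QQ_nonpos_disj {g h₁ h₂ : ℂ → ℝ} (hg : Den g) (hh₁ : Den h₁) (hh₂ : Den h₂)
    (d1 : Disjoint (tsupport g) (tsupport h₁)) (d2 : Disjoint (tsupport g) (tsupport h₂))
    (d3 : Disjoint (tsupport h₁) (tsupport h₂)) : QQ g h₁ h₂ ≤ 0 := by
  unfold QQ
  apply integral_nonpos
  intro y
  simp only [Pi.zero_apply]
  by_cases hy : h₂ y = 0
  · simp [hy]
  have hy2 : y ∈ tsupport h₂ := tsupport_mem hy
  have hyg : y ∉ tsupport g := fun h => (Set.disjoint_left.1 d2) h hy2
  have hy1 : y ∉ tsupport h₁ := fun h => (Set.disjoint_left.1 d3) h hy2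
  obtain ⟨m, k, hk⟩ := ker_exists hg hyg
  obtain ⟨f1, f2⟩ := dLK_formula hg hh₁.cont hh₁.supp hyg hy1 hk
  suffices h : (conj ((LK g).1 y) * (dLK g h₁).1 y - conj ((LK g).2 y) * (dLK g h₁).2 y).re ≤ 0 by
    exact mul_nonpos_of_nonneg_of_nonpos (hh₂.nonneg y) (by linarith)
  obtain ⟨s, hs, hse⟩ := exists_cut (isClosed_tsupport h₁) hy1
  have sh : ∀ w, h₁ w ≠ 0 → s w = (w - y)⁻¹ := fun w hw => hse w (tsupport_mem hw)
  have hL : Continuous (fun z => (LK g).1 z) := (LK g).1.continuous
  have hK : Continuous (fun z => (LK g).2 z) := (LK g).2.continuous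
  have hm := hk.cm
  have hkc := hk.ck
  have int1 : ∀ P Q : ℂ → ℂ, Continuous P → Continuous Q → Integrable (fun x => (h₁ x : ℂ) *
      (conj (Q x) * ((x - y)⁻¹ + m x) - P x * conj (k x))) := by
    intro P Q hP hQ
    have := integ hh₁.cont hh₁.supp
      (u := fun x => conj (Q x) * (s x + m x) - P x * conj (k x)) (by fun_prop)
    refine this.congr ?_
    filter_upwards with w
    by_cases hw : h₁ w = 0
    · simp [hw]
    · rw [sh w hw]
  have i1 := int1 _ _ hL hK
  have i2 := int1 _ _ hK hL
  rw [f1, f2, ← integral_const_mul, ← integral_const_mul, ← integral_sub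
    (i1.const_mul _) (i2.const_mul _)]
  have key : ∀ F : ℂ → ℂ, Integrable F → (∀ x, (F x).re ≤ 0) → (∫ x, F x).re ≤ 0 := by
    intro F hF hre
    have : (∫ x, F x).re = ∫ x, (F x).re := by
      have := reCLM.integral_comp_comm hF
      simpa using this.symm
    rw [this]
    exact integral_nonpos hre
  apply key _ ((i1.const_mul _).sub (i2.const_mul _))
  intro x
  by_cases hx : h₁ x = 0
  · simp [hx]
  have hx1 : x ∈ tsupport h₁ := tsupport_mem hx
  have hxg : x ∉ tsupport g := fun h => (Set.disjoint_left.1 d1) h hx1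
  have hxy : x ≠ y := fun h => hy1 (h ▸ hx1)
  have D := D2_inf hg hxy hxg hyg hk
  have e : conj ((LK g).1 y) * ((h₁ x : ℂ) * (conj ((LK g).2 x) * ((x - y)⁻¹ + m x) -
        (LK g).1 x * conj (k x))) -
      conj ((LK g).2 y) * ((h₁ x : ℂ) * (conj ((LK g).1 x) * ((x - y)⁻¹ + m x) -
        (LK g).2 x * conj (k x))) =
      (h₁ x : ℂ) * ((((x - y)⁻¹ + m x) * conj ((LK g).2 x) - conj (k x) * (LK g).1 x) *
          conj ((LK g).1 y)
        - (((x - y)⁻¹ + m x) * conj ((LK g).1 x) - conj (k x) * (LK g).2 x) *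
        conj ((LK g).2 y)) := by ring
  rw [Pi.sub_apply, e, re_ofReal_mul]
  exact mul_nonpos_of_nonneg_of_nonpos (hh₁.nonneg x) D

end Pool.Agent.H352R3.SA
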