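import Pool.Agent.H352R3.SA.Defs
import Pool.Agent.Helper114.MontelSol

/-!
# Outer regularity of analytic capacity
-/

set_option autoImplicit false

open MeasureTheory Complex Filter Topology
open scoped ComplexConjugate BoundedContinuousFunction

namespace Pool.Agent.H352R3.SA

theorem adm_zero (E : Set ℂ) : (0 : ℝ) ∈ adm E := by
  refine ⟨fun _ => 0, 0, differentiableOn_const _, fun z _ => by simp, ?_, by simp⟩
  simp

theorem adm_mono {E F : Set ℂ} (h : E ⊆ F) : adm E ⊆ adm F := by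
  rintro c ⟨f, l, h1, h2, h3, h4⟩
  exact ⟨f, l, h1.mono (Set.compl_subset_compl.2 h), fun z hz => h2 z (fun hE => hz (h hE)), h3, h4⟩

namespace MonAux

/-- estimate at infinity -/
theorem inf_est {f : ℂ → ℂ} {l : ℂ} {ρ : ℝ} (hρ : 0 < ρ)
    (hf : DifferentiableOn ℂ f {z | ρ < ‖z‖}) (hb : ∀ z, ρ < ‖z‖ → ‖f z‖ ≤ 1)
    (hl : Tendsto (fun z => z * f z) (cocompact ℂ) (𝓝 l)) :
    ‖l‖ ≤ 2 * ρ ∧ ∀ z, 2 * ρ < ‖z‖ → ‖z * f z - l‖ ≤ 10 * ρ ^ 2 / ‖z‖ := by
  classical
  set h : ℂ → ℂ := fun w => if w = 0 then l else f w⁻¹ / w with hh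
  have h0 : h 0 = l := by simp [hh]
  have hne : ∀ w, w ≠ 0 → h w = f w⁻¹ / w := fun w hw => by simp [hh, hw]
  have hρi : 0 < ρ⁻¹ := inv_pos.2 hρ
  -- differentiability
  have hd : DifferentiableOn ℂ h (Metric.ball 0 ρ⁻¹) := by
    refine (Complex.differentiableOn_compl_singleton_and_continuousAt_iff
      (Metric.ball_mem_nhds (0:ℂ) hρi)).1 ⟨?_, ?_⟩
    · have : DifferentiableOn ℂ (fun w => f w⁻¹ / w) (Metric.ball 0 ρ⁻¹ \ {0}) := by
        refine DifferentiableOn.div ?_ differentiableOn_id (fun w hw => ?_)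
        · refine hf.comp (t := {z | ρ < ‖z‖}) (fun w hw => ?_) (fun w hw => ?_)
          · exact (differentiableAt_inv (by simpa using hw.2)).differentiableWithinAt
          · have hw0 : w ≠ 0 := by simpa using hw.2
            have hw1 : ‖w‖ < ρ⁻¹ := by simpa using hw.1
            show ρ < ‖w⁻¹‖
            rw [norm_inv]
            exact (lt_inv_comm₀ (norm_pos_iff.2 hw0) hρ).1 hw1
        · simpa using hw.2
      refine this.congr (fun w hw => hne w (by simpa using hw.2))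
    · rw [ContinuousAt, h0]
      have h1 : Tendsto h (𝓝[≠] 0) (𝓝 l) := by
        have h2 : Tendsto (fun w : ℂ => w⁻¹) (𝓝[≠] 0) (cocompact ℂ) := by
          have := Filter.tendsto_inv₀_nhdsNE_zero (α := ℂ)
          rwa [Metric.cobounded_eq_cocompact] at this
        have h3 := hl.comp h2
        refine h3.congr' ?_
        filter_upwards [self_mem_nhdsWithin] with w hw
        have hw0 : w ≠ 0 := hw
        rw [hne w hw0]
        simp only [Function.comp]
        field_simp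
      rw [← h0]
      rw [← h0] at h1
      exact (continuousAt_iff_punctured_nhds).2 h1
  -- bound
  have hR : 0 < (2 * ρ)⁻¹ := by positivity
  have hlt : (2 * ρ)⁻¹ < ρ⁻¹ := by
    apply inv_strictAnti₀ hρ
    linarith
  have hbd : ∀ w ∈ Metric.closedBall (0:ℂ) (2 * ρ)⁻¹, ‖h w‖ ≤ 2 * ρ := by
    intro w hw
    refine Complex.norm_le_of_forall_mem_frontier_norm_le (U := Metric.ball (0:ℂ) (2 * ρ)⁻¹)
      Metric.isBounded_ball ?_ ?_ ?_
    · refine DifferentiableOn.diffContOnCl ?_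
      refine hd.mono ?_
      exact Metric.closure_ball_subset_closedBall.trans (Metric.closedBall_subset_ball hlt)
    · intro z hz
      rw [frontier_ball (0:ℂ) hR.ne'] at hz
      have hz1 : ‖z‖ = (2 * ρ)⁻¹ := by simpa using hz
      have hz0 : z ≠ 0 := by
        intro h0
        rw [h0, norm_zero] at hz1
        exact hR.ne hz1
      rw [hne z hz0, norm_div, hz1]
      have h1 : ‖f z⁻¹‖ ≤ 1 := by
        refine hb _ ?_
        rw [norm_inv, hz1, inv_inv]
        linarith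
      rw [div_inv_eq_mul]
      nlinarith
    · rw [closure_ball (0:ℂ) hR.ne']
      exact hw
  refine ⟨?_, ?_⟩
  · have := hbd 0 (by simp; positivity)
    rwa [h0] at this
  · intro z hz
    have hz0 : z ≠ 0 := by
      intro h0
      rw [h0, norm_zero] at hz
      linarith
    have hzp : 0 < ‖z‖ := norm_pos_iff.2 hz0
    have hzi : z⁻¹ ∈ Metric.ball (0:ℂ) (2 * ρ)⁻¹ := by
      rw [mem_ball_zero_iff, norm_inv]
      exact inv_strictAnti₀ (by positivity) hz
    have hs := Complex.dist_le_div_mul_dist_of_mapsTo_ball (f := h) (c := 0) (z := z⁻¹)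
      (R₁ := (2 * ρ)⁻¹) (R₂ := 5 * ρ)
      (hd.mono (Metric.ball_subset_ball hlt.le)) ?_ hzi
    · rw [dist_eq_norm, dist_zero_right, h0, hne _ (inv_ne_zero hz0), inv_inv, norm_inv] at hs
      have e1 : f z / z⁻¹ = z * f z := by
        rw [div_inv_eq_mul, mul_comm]
      rw [e1] at hs
      refine hs.trans (le_of_eq ?_)
      field_simp
      ring
    · intro w hw
      rw [Metric.mem_closedBall, dist_eq_norm]
      have h1 := hbd w (Metric.ball_subset_closedBall hw)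
      have h2 := hbd 0 (by simp; positivity)
      calc ‖h w - h 0‖ ≤ ‖h w‖ + ‖h 0‖ := norm_sub_le _ _
        _ ≤ 5 * ρ := by linarith

end MonAux

open MonAux

theorem adm_bdd {E : Set ℂ} (hE : IsCompact E) : BddAbove (adm E) := by
  obtain ⟨r, hr⟩ := hE.isBounded.subset_closedBall (0:ℂ)
  refine ⟨2 * (max r 1), ?_⟩
  rintro c ⟨f, l, h1, h2, h3, rfl⟩
  have hsub : {z : ℂ | max r 1 < ‖z‖} ⊆ Eᶜ := by
    intro z hz hzE
    have := hr hzE
    rw [mem_closedBall_zero_iff] at this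
    have hz' : max r 1 < ‖z‖ := hz
    have := le_max_left r 1
    linarith
  exact (inf_est (lt_of_lt_of_le one_pos (le_max_right r 1)) (h1.mono hsub)
    (fun z hz => h2 z (hsub hz)) h3).1

theorem gamma_outer {E : Set ℂ} (hE : IsCompact E) {η : ℝ} (hη : 0 < η) :
    ∃ ε > 0, gamma (Metric.cthickening ε E) ≤ gamma E + η := by
  classical
  by_contra hcon
  push Not at hcon
  -- the thickenings
  set e : ℕ → ℝ := fun n => 1 / ((n:ℝ) + 1) with he
  have hepos : ∀ n, 0 < e n := fun n => by simp only [he]; positivity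
  have heanti : ∀ m n, m ≤ n → e n ≤ e m := by
    intro m n hmn
    simp only [he]
    apply one_div_le_one_div_of_le (by positivity)
    have : (m:ℝ) ≤ n := by exact_mod_cast hmn
    linarith
  set En : ℕ → Set ℂ := fun n => Metric.cthickening (e n) E with hEn
  have hEanti : ∀ m n, m ≤ n → En n ⊆ En m := fun m n hmn =>
    Metric.cthickening_mono (heanti m n hmn) E
  have hex : ∀ n, ∃ (f : ℂ → ℂ) (l : ℂ), DifferentiableOn ℂ f (En n)ᶜ ∧
      (∀ z ∈ (En n)ᶜ, ‖f z‖ ≤ 1) ∧ Tendsto (fun z => z * f z) (cocompact ℂ) (𝓝 l) ∧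
      gamma E + η < ‖l‖ := by
    intro n
    have h1 := hcon (e n) (hepos n)
    obtain ⟨c, hc, hlt⟩ := exists_lt_of_lt_csSup (s := adm (Metric.cthickening (e n) E))
      ⟨0, adm_zero _⟩ h1
    obtain ⟨f, l, h1, h2, h3, rfl⟩ := hc
    exact ⟨f, l, h1, h2, h3, hlt⟩
  choose f l hfd hfb hfl hfg using hex
  -- bounded
  have hbd1 : Bornology.IsBounded (Metric.cthickening 1 E) := hE.isBounded.cthickening
  obtain ⟨r, hr⟩ := hbd1.subset_closedBall (0:ℂ)
  set ρ : ℝ := max r 1 with hρdef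
  have hρ : 0 < ρ := lt_of_lt_of_le one_pos (le_max_right r 1)
  have he1 : ∀ n, e n ≤ 1 := by
    intro n
    have := heanti 0 n (Nat.zero_le n)
    simpa [he] using this
  have hsub : ∀ n, {z : ℂ | ρ < ‖z‖} ⊆ (En n)ᶜ := by
    intro n z hz hzE
    have h1 := hr (Metric.cthickening_mono (he1 n) E hzE)
    rw [mem_closedBall_zero_iff] at h1
    have hz' : max r 1 < ‖z‖ := hz
    have := le_max_left r 1
    linarith
  have hest : ∀ n, ‖l n‖ ≤ 2 * ρ ∧ ∀ z, 2 * ρ < ‖z‖ → ‖z * f n z - l n‖ ≤ 10 * ρ ^ 2 / ‖z‖ :=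
    fun n => inf_est hρ ((hfd n).mono (hsub n)) (fun z hz => hfb n z (hsub n hz)) (hfl n)
  -- ultrafilter
  set 𝒰 : Ultrafilter ℕ := hyperfilter ℕ with h𝒰
  have hge : ∀ k : ℕ, ∀ᶠ n in (𝒰 : Filter ℕ), k ≤ n := by
    intro k
    have h1 : ((𝒰 : Filter ℕ)) ≤ atTop := by
      rw [← Nat.cofinite_eq_atTop]
      exact Filter.hyperfilter_le_cofinite
    exact h1 (eventually_ge_atTop k)
  -- limit of l
  obtain ⟨l0, hl0⟩ : ∃ l0 : ℂ, Tendsto l 𝒰 (𝓝 l0) := by
    have hcomp := isCompact_closedBall (0 : ℂ) (2 * ρ)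
    have hle : ((𝒰.map l : Ultrafilter ℂ) : Filter ℂ) ≤ 𝓟 (Metric.closedBall 0 (2 * ρ)) := by
      rw [le_principal_iff, Ultrafilter.coe_map, Filter.mem_map]
      refine Filter.mem_of_superset Filter.univ_mem ?_
      intro n _
      show l n ∈ Metric.closedBall 0 (2 * ρ)
      rw [mem_closedBall_zero_iff]
      exact (hest n).1
    obtain ⟨v, -, hv⟩ := hcomp.ultrafilter_le_nhds _ hle
    exact ⟨v, hv⟩
  -- local limits
  have hloc : ∀ k, ∃ Φ : ℂ → ℂ, DifferentiableOn ℂ Φ (En k)ᶜ ∧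
      ∀ z ∈ (En k)ᶜ, Tendsto (fun n => f n z) 𝒰 (𝓝 (Φ z)) := by
    intro k
    have hWo : IsOpen ((En k)ᶜ) := (Metric.isClosed_cthickening).isOpen_compl
    have g1 : ∀ n, DifferentiableOn ℂ ((fun n => if k ≤ n then f n else fun _ => 0) n) (En k)ᶜ := by
      intro n
      by_cases hkn : k ≤ n
      · simp only [hkn, if_true]
        exact (hfd n).mono (Set.compl_subset_compl.2 (hEanti k n hkn))
      · simp only [hkn, if_false]
        exact differentiableOn_const _
    have g2 : ∀ n, ∀ z ∈ (En k)ᶜ, ‖(fun n => if k ≤ n then f n else fun _ => 0) n z‖ ≤ 1 := by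
      intro n z hz
      by_cases hkn : k ≤ n
      · simp only [hkn, if_true]
        exact hfb n z (fun h => hz (hEanti k n hkn h))
      · simp [hkn]
    obtain ⟨Φ, hΦ, hlim⟩ := Pool.Agent.Helper114.Montel.montel hWo
      (fun n => if k ≤ n then f n else fun _ => 0) g1 1 g2 𝒰
    refine ⟨Φ, hΦ, fun z hz => ?_⟩
    have h1 := hlim.tendsto_at hz
    refine h1.congr' ?_
    filter_upwards [hge k] with n hn
    simp [hn]
  choose Φk hΦd hΦl using hloc
  -- every point off E is off some En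
  have hoff : ∀ z ∈ Eᶜ, ∃ k, z ∈ (En k)ᶜ := by
    intro z hz
    have h1 : z ∉ closure E := by rwa [hE.isClosed.closure_eq]
    rw [Metric.closure_eq_iInter_cthickening] at h1
    simp only [Set.mem_iInter, not_forall] at h1
    obtain ⟨δ, hδ, hzδ⟩ := h1
    obtain ⟨k, hk⟩ := exists_nat_one_div_lt hδ
    exact ⟨k, fun h => hzδ (Metric.cthickening_mono hk.le E h)⟩
  have hlimex : ∀ z, ∃ v : ℂ, z ∈ Eᶜ → Tendsto (fun n => f n z) 𝒰 (𝓝 v) := by
    intro z
    by_cases hz : z ∈ Eᶜ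
    · obtain ⟨k, hk⟩ := hoff z hz
      exact ⟨Φk k z, fun _ => hΦl k z hk⟩
    · exact ⟨0, fun h => absurd h hz⟩
  choose Φ hΦ using hlimex
  have hsubE : ∀ k, (En k)ᶜ ⊆ Eᶜ := fun k =>
    Set.compl_subset_compl.2 (Metric.self_subset_cthickening E)
  have hΦeq : ∀ k, ∀ z ∈ (En k)ᶜ, Φ z = Φk k z := fun k z hz =>
    tendsto_nhds_unique (hΦ z (hsubE k hz)) (hΦl k z hz)
  have hΦdiff : DifferentiableOn ℂ Φ Eᶜ := by
    intro z hz
    obtain ⟨k, hk⟩ := hoff z hz
    have hWo : IsOpen ((En k)ᶜ) := (Metric.isClosed_cthickening).isOpen_compl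
    have h1 : DifferentiableAt ℂ (Φk k) z := (hΦd k).differentiableAt (hWo.mem_nhds hk)
    have h2 : DifferentiableAt ℂ Φ z := by
      refine h1.congr_of_eventuallyEq ?_
      filter_upwards [hWo.mem_nhds hk] with w hw
      exact hΦeq k w hw
    exact h2.differentiableWithinAt
  have hΦb : ∀ z ∈ Eᶜ, ‖Φ z‖ ≤ 1 := by
    intro z hz
    obtain ⟨k, hk⟩ := hoff z hz
    refine le_of_tendsto (hΦ z hz).norm ?_
    filter_upwards [hge k] with n hn
    exact hfb n z (fun h => hk (hEanti k n hn h))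
  have hΦinf : ∀ z, 2 * ρ < ‖z‖ → ‖z * Φ z - l0‖ ≤ 10 * ρ ^ 2 / ‖z‖ := by
    intro z hz
    have hzE : z ∈ Eᶜ := hsubE 0 (hsub 0 (show ρ < ‖z‖ by linarith))
    have h1 : Tendsto (fun n => ‖z * f n z - l n‖) 𝒰 (𝓝 ‖z * Φ z - l0‖) :=
      (((hΦ z hzE).const_mul z).sub hl0).norm
    refine le_of_tendsto h1 (Eventually.of_forall fun n => (hest n).2 z hz)
  have hΦt : Tendsto (fun z => z * Φ z) (cocompact ℂ) (𝓝 l0) := by
    rw [tendsto_iff_norm_sub_tendsto_zero]
    have h1 : Tendsto (fun z : ℂ => 10 * ρ ^ 2 / ‖z‖) (cocompact ℂ) (𝓝 0) :=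
      Tendsto.const_div_atTop (tendsto_norm_cocompact_atTop) _
    refine squeeze_zero' (Eventually.of_forall fun z => norm_nonneg _) ?_ h1
    have h2 : ∀ᶠ z : ℂ in cocompact ℂ, 2 * ρ < ‖z‖ :=
      (tendsto_norm_cocompact_atTop (E := ℂ)).eventually (eventually_gt_atTop _)
    filter_upwards [h2] with z hz
    exact hΦinf z hz
  have hmem : ‖l0‖ ∈ adm E := ⟨Φ, l0, hΦdiff, hΦb, hΦt, rfl⟩
  have hle : ‖l0‖ ≤ gamma E := le_csSup (adm_bdd hE) hmem
  have hge' : gamma E + η ≤ ‖l0‖ :=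
    ge_of_tendsto hl0.norm (Eventually.of_forall fun n => (hfg n).le)
  linarith

end Pool.Agent.H352R3.SA
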