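import Pool.Agent.H352R3.SA.Defs

/-!
# Quotients of analytic functions give admissible functions (core of module QUO)
-/

set_option autoImplicit false

open MeasureTheory Complex Filter Topology
open scoped ComplexConjugate BoundedContinuousFunction

namespace Pool.Agent.H352R3.SA.QuoAux

/-- a quotient `K / L` of analytic functions with `|K| ≤ |L|` is, after correction at the zeros of
`L`, analytic and bounded by `1` -/
theorem exists_quot {U : Set ℂ} (hU : IsOpen U) {L K : ℂ → ℂ} (dL : DifferentiableOn ℂ L U)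
    (dK : DifferentiableOn ℂ K U) (hle : ∀ z, ‖K z‖ ≤ ‖L z‖) :
    ∃ f : ℂ → ℂ, DifferentiableOn ℂ f U ∧ (∀ z ∈ U, ‖f z‖ ≤ 1) ∧
      ∀ z ∈ U, L z ≠ 0 → f z = K z / L z := by
  have aL : AnalyticOnNhd ℂ L U := dL.analyticOnNhd hU
  have aK : AnalyticOnNhd ℂ K U := dK.analyticOnNhd hU
  have hq : MeromorphicOn (K / L) U := fun z hz =>
    (aK z hz).meromorphicAt.div (aL z hz).meromorphicAt
  have hb : ∀ z, ‖(K / L) z‖ ≤ 1 := by
    intro z
    rw [Pi.div_apply, norm_div]
    exact div_le_one_of_le₀ (hle z) (norm_nonneg _)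
  have hord : ∀ z ∈ U, 0 ≤ meromorphicOrderAt (K / L) z := by
    intro z _
    by_contra hneg
    have h1 := tendsto_cobounded_of_meromorphicOrderAt_neg (not_le.1 hneg)
    rw [← tendsto_norm_atTop_iff_cobounded] at h1
    obtain ⟨w, hw⟩ := (h1.eventually (eventually_gt_atTop (1 : ℝ))).exists
    exact absurd (hb w) (not_le.2 hw)
  have han : ∀ z ∈ U, AnalyticAt ℂ (toMeromorphicNFOn (K / L) U) z := by
    intro z hz
    rw [← (meromorphicNFOn_toMeromorphicNFOn (K / L) U hz).meromorphicOrderAt_nonneg_iff_analyticAt,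
      meromorphicOrderAt_toMeromorphicNFOn hq hz]
    exact hord z hz
  refine ⟨toMeromorphicNFOn (K / L) U,
    fun z hz => (han z hz).differentiableAt.differentiableWithinAt, ?_, ?_⟩
  · intro z hz
    have h1 : Tendsto (fun w => ‖toMeromorphicNFOn (K / L) U w‖) (𝓝[≠] z)
        (𝓝 ‖toMeromorphicNFOn (K / L) U z‖) :=
      ((han z hz).continuousAt.norm.tendsto).mono_left nhdsWithin_le_nhds
    refine le_of_tendsto h1 ?_
    filter_upwards [hq.toMeromorphicNFOn_eq_self_on_nhdsNE hz] with w hw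
    rw [hw]
    exact hb w
  · intro z hz hLz
    have h1 : Tendsto (toMeromorphicNFOn (K / L) U) (𝓝[≠] z)
        (𝓝 (toMeromorphicNFOn (K / L) U z)) :=
      ((han z hz).continuousAt.tendsto).mono_left nhdsWithin_le_nhds
    have h2 : Tendsto (K / L) (𝓝[≠] z) (𝓝 ((K / L) z)) :=
      (((aK z hz).continuousAt.div (aL z hz).continuousAt hLz).tendsto).mono_left
        nhdsWithin_le_nhds
    have h3 := h2.congr' (hq.toMeromorphicNFOn_eq_self_on_nhdsNE hz).symm
    exact tendsto_nhds_unique h1 h3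

theorem quot_adm {E : Set ℂ} (hE : IsCompact E) {L K : ℂ → ℂ} (dL : DifferentiableOn ℂ L Eᶜ)
    (dK : DifferentiableOn ℂ K Eᶜ) (hle : ∀ z, ‖K z‖ ≤ ‖L z‖) (l : ℂ)
    (tL : Tendsto L (cocompact ℂ) (𝓝 1))
    (tK : Tendsto (fun z => z * K z) (cocompact ℂ) (𝓝 l)) : ‖l‖ ∈ adm E := by
  obtain ⟨f, h1, h2, h3⟩ := exists_quot hE.isClosed.isOpen_compl dL dK hle
  refine ⟨f, l, h1, h2, ?_, rfl⟩
  have h4 : Tendsto (fun z => z * K z / L z) (cocompact ℂ) (𝓝 (l / 1)) :=
    tK.div tL one_ne_zero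
  rw [div_one] at h4
  refine h4.congr' ?_
  have h5 : ∀ᶠ z in cocompact ℂ, L z ≠ 0 := tL.eventually_ne one_ne_zero
  have h6 : ∀ᶠ z in cocompact ℂ, z ∈ Eᶜ := hE.compl_mem_cocompact
  filter_upwards [h5, h6] with z hz hz'
  rw [h3 z hz' hz, mul_div_assoc]

end Pool.Agent.H352R3.SA.QuoAux
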