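import Pool.Agent.H352R3.SA.Defs
import Pool.Agent.H761R2.SV.Pomp
import Pool.Agent.H761R2.SV.Quad

/-!
# Module OSC (helper690): oscillating weights
-/

set_option autoImplicit false

open MeasureTheory Complex Filter Topology
open scoped ComplexConjugate BoundedContinuousFunction

namespace Pool.Agent.H352R3.SA

/-- oscillation weights -/
structure Osc (θ : ℝ → ℝ) : Prop where
  cont : Continuous θ
  per : Function.Periodic θ 1
  nonneg : ∀ x, 0 ≤ θ x
  mean : ∫ x in (0:ℝ)..1, θ x = 1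

namespace OscA

/-! ### Existence -/

/-- unnormalised bump -/
noncomputable def bmp (i : ℝ) (x : ℝ) : ℝ := max 0 (Real.cos (2 * Real.pi * (x - i)) - 3 / 4)

theorem bmp_cont (i : ℝ) : Continuous (bmp i) := by
  unfold bmp
  fun_prop

theorem bmp_nonneg (i x : ℝ) : 0 ≤ bmp i x := le_max_left _ _

theorem bmp_per (i : ℝ) : Function.Periodic (bmp i) 1 := by
  intro x
  unfold bmp
  have : 2 * Real.pi * (x + 1 - i) = 2 * Real.pi * (x - i) + 2 * Real.pi := by ring
  rw [this, Real.cos_add_two_pi]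

theorem bmp_int_pos {i : ℝ} (h0 : 0 ≤ i) (h1 : i ≤ 1) : 0 < ∫ x in (0:ℝ)..1, bmp i x := by
  apply intervalIntegral.integral_pos one_pos (bmp_cont i).continuousOn
    (fun x _ => bmp_nonneg i x)
  refine ⟨i, ⟨h0, h1⟩, ?_⟩
  unfold bmp
  rw [sub_self, mul_zero, Real.cos_zero]
  norm_num

theorem tsupport_bmp (c i : ℝ) : tsupport (fun x => c * bmp i x) ⊆
    {x | 3 / 4 ≤ Real.cos (2 * Real.pi * (x - i))} := by
  apply closure_minimal
  · intro x hx
    have h : bmp i x ≠ 0 := fun h => hx (by simp [h])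
    show 3 / 4 ≤ Real.cos (2 * Real.pi * (x - i))
    by_contra hcon
    apply h
    unfold bmp
    apply max_eq_left
    have := not_le.mp hcon
    linarith
  · exact isClosed_le continuous_const (by fun_prop)

theorem disj {i j x : ℝ} (hi : 3 / 4 ≤ Real.cos (2 * Real.pi * (x - i)))
    (hj : 3 / 4 ≤ Real.cos (2 * Real.pi * (x - j))) :
    1 / 8 ≤ Real.cos (2 * Real.pi * (i - j)) := by
  have e : 2 * Real.pi * (i - j) = 2 * Real.pi * (x - j) - 2 * Real.pi * (x - i) := by ring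
  rw [e, Real.cos_sub]
  set a := 2 * Real.pi * (x - i)
  set b := 2 * Real.pi * (x - j)
  have ha := Real.sin_sq_add_cos_sq a
  have hb := Real.sin_sq_add_cos_sq b
  nlinarith [sq_nonneg (Real.sin a + Real.sin b), mul_nonneg (sub_nonneg.mpr hi)
    (sub_nonneg.mpr hj)]

theorem cos_third : Real.cos (2 * Real.pi * (1 / 3)) = -1 / 2 := by
  have : 2 * Real.pi * (1 / 3) = Real.pi - Real.pi / 3 := by ring
  rw [this, Real.cos_pi_sub, Real.cos_pi_div_three]
  norm_num

theorem cos_two_third : Real.cos (2 * Real.pi * (2 / 3)) = -1 / 2 := by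
  have : 2 * Real.pi * (2 / 3) = Real.pi / 3 + Real.pi := by ring
  rw [this, Real.cos_add_pi, Real.cos_pi_div_three]
  norm_num

theorem cos_neg' (x : ℝ) : Real.cos (2 * Real.pi * (-x)) = Real.cos (2 * Real.pi * x) := by
  have : 2 * Real.pi * (-x) = -(2 * Real.pi * x) := by ring
  rw [this, Real.cos_neg]

/-- positions -/
noncomputable def pos (i : Fin 3) : ℝ := (i : ℕ) / 3

theorem pos_cos {i j : Fin 3} (h : i ≠ j) : Real.cos (2 * Real.pi * (pos i - pos j)) = -1 / 2 := by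
  have h1 := cos_third
  have h2 := cos_two_third
  have h3 := cos_neg' (1 / 3)
  have h4 := cos_neg' (2 / 3)
  have key : pos i - pos j = 1 / 3 ∨ pos i - pos j = -(1 / 3) ∨ pos i - pos j = 2 / 3 ∨
      pos i - pos j = -(2 / 3) := by
    unfold pos
    fin_cases i <;> fin_cases j <;> first | exact absurd rfl h | norm_num
  rcases key with e | e | e | e
  · rw [e, h1]
  · rw [e, h3, h1]
  · rw [e, h2]
  · rw [e, h4, h2]

end OscA

open OscA in
theorem osc_exists : ∃ θ : Fin 3 → ℝ → ℝ, (∀ i, Osc (θ i)) ∧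
    ∀ i j, i ≠ j → Disjoint (tsupport (θ i)) (tsupport (θ j)) := by
  have hp : ∀ i : Fin 3, 0 ≤ pos i ∧ pos i ≤ 1 := by
    intro i
    unfold pos
    fin_cases i <;> norm_num
  refine ⟨fun i x => (∫ y in (0:ℝ)..1, bmp (pos i) y)⁻¹ * bmp (pos i) x, fun i => ?_, ?_⟩
  · have h := bmp_int_pos (hp i).1 (hp i).2
    refine ⟨by have := bmp_cont (pos i); fun_prop, fun x => ?_, fun x => ?_, ?_⟩
    · simp only [bmp_per (pos i) x]
    · exact mul_nonneg (inv_nonneg.mpr h.le) (bmp_nonneg _ _)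
    · rw [intervalIntegral.integral_const_mul]
      exact inv_mul_cancel₀ h.ne'
  · intro i j hij
    rw [Set.disjoint_left]
    intro x hx hx'
    have h1 := tsupport_bmp _ _ hx
    have h2 := tsupport_bmp _ _ hx'
    have h3 := disj h1 h2
    rw [pos_cos hij] at h3
    norm_num at h3

namespace OscA

/-! ### The change of variables -/

/-- the primitive of `θ` -/
noncomputable def prim (θ : ℝ → ℝ) (y : ℝ) : ℝ := ∫ s in (0:ℝ)..y, θ s

theorem prim_deriv {θ : ℝ → ℝ} (hθ : Osc θ) (y : ℝ) : HasDerivAt (prim θ) (θ y) y :=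
  (hθ.cont.integral_hasStrictDerivAt 0 y).hasDerivAt

theorem prim_cont {θ : ℝ → ℝ} (hθ : Osc θ) : Continuous (prim θ) :=
  continuous_iff_continuousAt.mpr fun y => (prim_deriv hθ y).continuousAt

theorem per_bound {f : ℝ → ℝ} (hf : Continuous f) (hp : Function.Periodic f 1) :
    ∃ C : ℝ, 0 < C ∧ ∀ y, |f y| ≤ C := by
  obtain ⟨C, hC⟩ := isCompact_Icc.exists_bound_of_continuousOn (s := Set.Icc (0:ℝ) 1)
    hf.continuousOn
  refine ⟨max 1 C, by positivity, fun y => ?_⟩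
  obtain ⟨y', hy', e⟩ := hp.exists_mem_Ico₀ one_pos y
  rw [e]
  exact (hC y' ⟨hy'.1, hy'.2.le⟩).trans (le_max_right _ _)

theorem prim_close {θ : ℝ → ℝ} (hθ : Osc θ) : ∃ C : ℝ, 0 < C ∧ ∀ y, |prim θ y - y| ≤ C := by
  apply per_bound ((prim_cont hθ).sub continuous_id)
  intro y
  have h1 : prim θ (y + 1) = prim θ y + 1 := by
    unfold prim
    rw [← intervalIntegral.integral_add_adjacent_intervals (hθ.cont.intervalIntegrable 0 y)
      (hθ.cont.intervalIntegrable y (y + 1)), hθ.per.intervalIntegral_add_eq y 0, zero_add,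
      hθ.mean]
  show prim θ (y + 1) - (y + 1) = prim θ y - y
  rw [h1]
  ring

/-- the change of variables -/
noncomputable def T (θ : ℝ → ℝ) (r x : ℝ) : ℝ := r * prim θ (x / r)

theorem T_deriv {θ : ℝ → ℝ} (hθ : Osc θ) {r : ℝ} (hr : 0 < r) (x : ℝ) :
    HasDerivAt (T θ r) (θ (x / r)) x := by
  have h1 : HasDerivAt (fun x : ℝ => x / r) (1 / r) x := (hasDerivAt_id x).div_const r
  have h2 := ((prim_deriv hθ (x / r)).comp x h1).const_mul r
  have e : r * (θ (x / r) * (1 / r)) = θ (x / r) := by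
    field_simp
  rw [e] at h2
  exact h2

theorem T_cont {θ : ℝ → ℝ} (hθ : Osc θ) {r : ℝ} (hr : 0 < r) : Continuous (T θ r) :=
  continuous_iff_continuousAt.mpr fun y => (T_deriv hθ hr y).continuousAt

theorem T_close {θ : ℝ → ℝ} {C r : ℝ} (hC : ∀ y, |prim θ y - y| ≤ C) (hr : 0 < r) (x : ℝ) :
    |T θ r x - x| ≤ C * r := by
  have e : T θ r x - x = r * (prim θ (x / r) - x / r) := by
    unfold T
    field_simp
  rw [e, abs_mul, abs_of_pos hr, mul_comm]
  exact mul_le_mul_of_nonneg_right (hC _) hr.le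

theorem line_cv {θ : ℝ → ℝ} (hθ : Osc θ) {C r R : ℝ} (hC0 : 0 < C)
    (hC : ∀ y, |prim θ y - y| ≤ C) (hr : 0 < r) (hR : 0 < R) {H : ℝ → ℂ} (hH : Continuous H)
    (hs : ∀ u, R < |u| → H u = 0) : ∫ x, H (T θ r x) * (θ (x / r) : ℂ) = ∫ u, H u := by
  have hCr : 0 < C * r := mul_pos hC0 hr
  set N : ℝ := R + C * r + 1 with hN
  have hNp := abs_le.mp (T_close hC hr N)
  have hNm := abs_le.mp (T_close hC hr (-N))
  have e1 : ∫ x in (-N)..N, H (T θ r x) * (θ (x / r) : ℂ) =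
      ∫ x, H (T θ r x) * (θ (x / r) : ℂ) := by
    apply intervalIntegral.integral_eq_integral_of_support_subset
    intro x hx
    by_contra hcon
    apply hx
    have : R < |T θ r x| := by
      have hx1 := abs_le.mp (T_close hC hr x)
      rw [Set.mem_Ioc, not_and_or, not_lt, not_le] at hcon
      rcases hcon with h | h
      · have : T θ r x < -R := by linarith
        rw [abs_of_neg (by linarith)]
        linarith
      · exact lt_of_lt_of_le (by linarith) (le_abs_self _)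
    show H (T θ r x) * (θ (x / r) : ℂ) = 0
    rw [hs _ this, zero_mul]
  have e2 : ∫ u in (T θ r (-N))..(T θ r N), H u = ∫ u, H u := by
    apply intervalIntegral.integral_eq_integral_of_support_subset
    intro u hu
    by_contra hcon
    apply hu
    apply hs
    rw [Set.mem_Ioc, not_and_or, not_lt, not_le] at hcon
    rcases hcon with h | h
    · have : u < -R := by linarith
      rw [abs_of_neg (by linarith)]
      linarith
    · exact lt_of_lt_of_le (by linarith) (le_abs_self _)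
  rw [← e1, ← e2]
  have h3 := intervalIntegral.integral_deriv_smul_comp (a := -N) (b := N) (f := T θ r)
    (f' := fun x => θ (x / r)) (g := H) (fun x _ => T_deriv hθ hr x)
    (by have := hθ.cont; fun_prop) hH
  rw [← h3]
  apply intervalIntegral.integral_congr
  intro x _
  simp only [Function.comp, real_smul]
  ring

/-- the change of variables in the plane -/
noncomputable def Ph (θ : ℝ → ℝ) (r : ℝ) (w : ℂ) : ℂ := ⟨T θ r w.re, w.im⟩

theorem Ph_cont {θ : ℝ → ℝ} (hθ : Osc θ) {r : ℝ} (hr : 0 < r) : Continuous (Ph θ r) := by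
  have e : Ph θ r = fun w => ((T θ r w.re : ℝ) : ℂ) + (w.im : ℂ) * I := by
    funext w
    apply Complex.ext <;> simp [Ph]
  rw [e]
  have := T_cont hθ hr
  fun_prop

theorem Ph_close {θ : ℝ → ℝ} {C r : ℝ} (hC : ∀ y, |prim θ y - y| ≤ C) (hr : 0 < r) (w : ℂ) :
    ‖w - Ph θ r w‖ ≤ C * r := by
  have e : w - Ph θ r w = ((w.re - T θ r w.re : ℝ) : ℂ) := by
    apply Complex.ext <;> simp [Ph]
  rw [e, Complex.norm_real, Real.norm_eq_abs, abs_sub_comm]
  exact T_close hC hr _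

theorem plane_cv {θ : ℝ → ℝ} (hθ : Osc θ) {C r R : ℝ} (hC0 : 0 < C)
    (hC : ∀ y, |prim θ y - y| ≤ C) (hr : 0 < r) (hR : 0 < R) {F : ℂ → ℂ} (hF : Continuous F)
    (hs : ∀ u, R < ‖u‖ → F u = 0) :
    ∫ w, F (Ph θ r w) * (θ (w.re / r) : ℂ) = ∫ w, F w := by
  have hCr : 0 < C * r := mul_pos hC0 hr
  have ce : ∀ (G : ℂ → ℂ) (R' : ℝ), Continuous G → (∀ w, R' < ‖w‖ → G w = 0) →
      ∫ w, G w = ∫ y : ℝ, ∫ x : ℝ, G ⟨x, y⟩ := by
    intro G R' hG hs'
    have hc : HasCompactSupport G := by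
      apply HasCompactSupport.intro (isCompact_closedBall (0:ℂ) R')
      intro w hw
      apply hs'
      rw [mem_closedBall_zero_iff, not_le] at hw
      exact hw
    have hi : Integrable G := hG.integrable_of_hasCompactSupport hc
    have hmp := Complex.volume_preserving_equiv_real_prod.symm Complex.measurableEquivRealProd
    have h1 := hmp.integral_comp Complex.measurableEquivRealProd.symm.measurableEmbedding G
    have h2 : Integrable (fun p : ℝ × ℝ => G (Complex.measurableEquivRealProd.symm p))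
        (volume.prod volume) :=
      (hmp.integrable_comp_emb
        Complex.measurableEquivRealProd.symm.measurableEmbedding).mpr hi
    rw [← h1]
    exact integral_prod_symm _ h2
  have hG : Continuous fun w : ℂ => F (Ph θ r w) * (θ (w.re / r) : ℂ) := by
    have h1 := Ph_cont hθ hr
    have h2 := hθ.cont
    fun_prop
  rw [ce _ (R + C * r) hG ?_, ce F R hF hs]
  · apply integral_congr_ae
    refine ae_of_all _ fun y => ?_
    have h := line_cv hθ hC0 hC hr hR (H := fun u => F ⟨u, y⟩)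
      (by
        have e : (fun u : ℝ => F ⟨u, y⟩) = fun u : ℝ => F ((u : ℂ) + (y : ℂ) * I) := by
          funext u
          congr 1
          apply Complex.ext <;> simp
        rw [e]
        fun_prop)
      (fun u hu => hs _ (lt_of_lt_of_le hu (Complex.abs_re_le_norm ⟨u, y⟩)))
    exact h
  · intro w hw
    have h1 := Ph_close hC hr w
    have h2 : ‖w‖ ≤ ‖w - Ph θ r w‖ + ‖Ph θ r w‖ := by
      calc ‖w‖ = ‖(w - Ph θ r w) + Ph θ r w‖ := by rw [sub_add_cancel]
        _ ≤ _ := norm_add_le _ _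
    show F (Ph θ r w) * (θ (w.re / r) : ℂ) = 0
    rw [hs _ (by linarith), zero_mul]

theorem main_bound {θ : ℝ → ℝ} (hθ : Osc θ) {C r R M' η : ℝ} (hC0 : 0 < C)
    (hC : ∀ y, |prim θ y - y| ≤ C) (hr : 0 < r) (hR : 0 < R) (hM' : ∀ x, |θ x| ≤ M')
    {F : ℂ → ℂ} (hF : Continuous F) (hs : ∀ u, R < ‖u‖ → F u = 0) (hη : 0 ≤ η)
    (hCr : C * r ≤ 1) (hmod : ∀ w w', ‖w - w'‖ ≤ C * r → ‖F w - F w'‖ ≤ η) :
    ‖(∫ w, F w * (θ (w.re / r) : ℂ)) - ∫ w, F w‖ ≤
      (volume : Measure ℂ).real (Metric.closedBall (0:ℂ) (R + 1)) * (η * M') := by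
  have hM0 : 0 ≤ M' := (abs_nonneg _).trans (hM' 0)
  have hc : ∀ G : ℂ → ℂ, Continuous G → (∀ w, R + 1 < ‖w‖ → G w = 0) → Integrable G := by
    intro G hG hs'
    apply hG.integrable_of_hasCompactSupport
    apply HasCompactSupport.intro (isCompact_closedBall (0:ℂ) (R + 1))
    intro w hw
    apply hs'
    rw [mem_closedBall_zero_iff, not_le] at hw
    exact hw
  have hP : ∀ w, R + 1 < ‖w‖ → F (Ph θ r w) = 0 := by
    intro w hw
    have h1 := Ph_close hC hr w
    have h2 : ‖w‖ ≤ ‖w - Ph θ r w‖ + ‖Ph θ r w‖ := by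
      calc ‖w‖ = ‖(w - Ph θ r w) + Ph θ r w‖ := by rw [sub_add_cancel]
        _ ≤ _ := norm_add_le _ _
    exact hs _ (by linarith)
  have h1 := Ph_cont hθ hr
  have h2 := hθ.cont
  rw [← plane_cv hθ hC0 hC hr hR hF hs, ← integral_sub]
  · rw [← smul_eq_mul (a := (volume : Measure ℂ).real (Metric.closedBall (0:ℂ) (R + 1))),
      ← integral_indicator_const (η * M') measurableSet_closedBall]
    apply norm_integral_le_of_norm_le
    · exact (integrableOn_const (isCompact_closedBall (0:ℂ) (R + 1)).measure_lt_top.ne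
        ).integrable_indicator measurableSet_closedBall
    · refine ae_of_all _ fun w => ?_
      rw [← sub_mul]
      by_cases hw : w ∈ Metric.closedBall (0:ℂ) (R + 1)
      · rw [Set.indicator_of_mem hw, norm_mul, Complex.norm_real, Real.norm_eq_abs]
        exact mul_le_mul (hmod _ _ (Ph_close hC hr w)) (hM' _) (abs_nonneg _) hη
      · rw [Set.indicator_of_notMem hw]
        rw [mem_closedBall_zero_iff, not_le] at hw
        rw [hP w hw, hs w (by linarith), sub_zero, zero_mul, norm_zero]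
  · apply hc
    · fun_prop
    · intro w hw
      rw [hs w (by linarith), zero_mul]
  · apply hc
    · fun_prop
    · intro w hw
      rw [hP w hw, zero_mul]

end OscA

open OscA in
theorem osc_int {θ : ℝ → ℝ} (hθ : Osc θ) {φ : ℂ → ℂ} (hφ : Continuous φ)
    (cφ : HasCompactSupport φ) :
    Tendsto (fun r : ℝ => ∫ w, φ w * (θ (w.re / r) : ℂ)) (𝓝[>] 0) (𝓝 (∫ w, φ w)) := by
  obtain ⟨R, hR, hs⟩ := Pool.Agent.H761R2.SV.Quad.exists_supp cφ
  obtain ⟨C, hC0, hC⟩ := prim_close hθ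
  obtain ⟨M', hM0, hM'⟩ := per_bound hθ.cont hθ.per
  have huc := cφ.uniformContinuous_of_continuous hφ
  rw [Metric.tendsto_nhds]
  intro ε hε
  set V := (volume : Measure ℂ).real (Metric.closedBall (0:ℂ) (R + 1)) with hV
  have hV0 : 0 ≤ V := measureReal_nonneg
  set η : ℝ := ε / 2 / ((V + 1) * M') with hη
  have hη0 : 0 < η := by positivity
  obtain ⟨δ, hδ, hd⟩ := Metric.uniformContinuous_iff.mp huc η hη0
  have h1 : ∀ᶠ r : ℝ in 𝓝[>] 0, r < min (δ / 2) 1 / C :=
    nhdsWithin_le_nhds (Iio_mem_nhds (by positivity))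
  filter_upwards [h1, self_mem_nhdsWithin] with r hr1 hr0
  have hr0' : (0:ℝ) < r := hr0
  have hCr : C * r < min (δ / 2) 1 := by
    rw [lt_div_iff₀ hC0] at hr1
    linarith
  rw [dist_eq_norm]
  have hb := main_bound hθ hC0 hC hr0' hR hM' hφ hs hη0.le (hCr.le.trans (min_le_right _ _)) ?_
  · have h3 : V * (η * M') ≤ ε / 2 := by
      have : (V + 1) * (η * M') = ε / 2 := by
        rw [hη]
        field_simp
      nlinarith [mul_pos hη0 hM0]
    linarith
  · intro w w' hw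
    rw [← dist_eq_norm] at hw ⊢
    exact (hd (by have := min_le_left (δ / 2) (1:ℝ); linarith)).le

namespace OscA

/-! ### Truncated Cauchy kernel -/

/-- truncated Cauchy kernel -/
noncomputable def ck (δ : ℝ) (u : ℂ) : ℂ := conj u * (((max ‖u‖ δ) ^ 2 : ℝ) : ℂ)⁻¹

theorem ck_cont {δ : ℝ} (hδ : 0 < δ) : Continuous (ck δ) := by
  unfold ck
  apply Continuous.mul (by fun_prop)
  apply Continuous.inv₀ (by fun_prop)
  intro u
  have : 0 < max ‖u‖ δ := lt_max_of_lt_right hδ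
  exact_mod_cast (by positivity : (max ‖u‖ δ) ^ 2 ≠ 0)

theorem ck_norm (δ : ℝ) (u : ℂ) : ‖ck δ u‖ = ‖u‖ * ((max ‖u‖ δ) ^ 2)⁻¹ := by
  unfold ck
  rw [norm_mul, norm_inv, Complex.norm_real, RCLike.norm_conj, Real.norm_eq_abs, abs_of_nonneg
    (sq_nonneg _)]

theorem ck_le {δ : ℝ} (hδ : 0 < δ) (u : ℂ) : ‖ck δ u‖ ≤ δ⁻¹ := by
  have h : 0 < max ‖u‖ δ := lt_max_of_lt_right hδ
  have h1 : ‖u‖ ≤ max ‖u‖ δ := le_max_left _ _
  have h2 : δ ≤ max ‖u‖ δ := le_max_right _ _
  rw [ck_norm, ← div_eq_mul_inv, div_le_iff₀ (by positivity), inv_mul_eq_div,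
    le_div_iff₀ hδ]
  nlinarith [norm_nonneg u]

theorem ck_le' {δ : ℝ} (hδ : 0 < δ) (u : ℂ) : ‖ck δ u‖ ≤ ‖u‖⁻¹ := by
  rcases eq_or_ne u 0 with rfl | hu
  · rw [ck_norm, norm_zero, zero_mul, inv_zero]
  · have h0 : 0 < ‖u‖ := norm_pos_iff.mpr hu
    have h : 0 < max ‖u‖ δ := lt_max_of_lt_right hδ
    have h1 : ‖u‖ ≤ max ‖u‖ δ := le_max_left _ _
    rw [ck_norm, ← div_eq_mul_inv, div_le_iff₀ (by positivity), inv_mul_eq_div,
      le_div_iff₀ h0]
    nlinarith

theorem ck_uc {δ : ℝ} (hδ : 0 < δ) : UniformContinuous (ck δ) := by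
  apply (ck_cont hδ).uniformContinuous_of_tendsto_cocompact (x := 0)
  apply squeeze_zero_norm (ck_le' hδ)
  exact tendsto_inv_atTop_zero.comp tendsto_norm_cocompact_atTop

theorem ck_diff {δ : ℝ} (hδ : 0 < δ) (y w : ℂ) :
    ‖(y - w)⁻¹ - ck δ (y - w)‖ ≤ Pool.Agent.H761R2.SV.Quad.sing δ y w := by
  set u := y - w with hu
  have hinv : u⁻¹ = conj u * ((‖u‖ ^ 2 : ℝ) : ℂ)⁻¹ := by
    rw [Complex.inv_def, Complex.normSq_eq_norm_sq]
    push_cast
    ring
  rcases lt_or_ge ‖u‖ δ with h | h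
  · rw [Pool.Agent.H761R2.SV.Quad.sing_eq h]
    rcases eq_or_ne u 0 with h0 | h0
    · rw [h0]
      simp [ck]
    · have hp : 0 < ‖u‖ := norm_pos_iff.mpr h0
      have e : u⁻¹ - ck δ u = conj u * ((((‖u‖ ^ 2)⁻¹ - (δ ^ 2)⁻¹ : ℝ)) : ℂ) := by
        rw [hinv]
        unfold ck
        rw [max_eq_right h.le]
        push_cast
        ring
      rw [e, norm_mul, RCLike.norm_conj, Complex.norm_real, Real.norm_eq_abs, norm_inv]
      have h2 : (δ ^ 2)⁻¹ ≤ (‖u‖ ^ 2)⁻¹ := by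
        apply inv_anti₀ (by positivity)
        exact pow_le_pow_left₀ hp.le h.le 2
      rw [abs_of_nonneg (sub_nonneg.mpr h2)]
      have h3 : ‖u‖ * ((‖u‖ ^ 2)⁻¹ - (δ ^ 2)⁻¹) ≤ ‖u‖ * (‖u‖ ^ 2)⁻¹ := by
        apply mul_le_mul_of_nonneg_left _ hp.le
        have : 0 ≤ (δ ^ 2)⁻¹ := by positivity
        linarith
      refine h3.trans (le_of_eq ?_)
      rw [← hu]
      field_simp
  · have e : u⁻¹ - ck δ u = 0 := by
      rw [hinv]
      unfold ck
      rw [max_eq_left h, sub_self]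
    rw [e, norm_zero]
    exact Pool.Agent.H761R2.SV.Quad.sing_nonneg _ _ _

theorem trunc {δ M : ℝ} (hδ : 0 < δ) {ψ : ℂ → ℂ} (hψ : Continuous ψ) (cψ : HasCompactSupport ψ)
    (hM : ∀ w, ‖ψ w‖ ≤ M) (z : ℂ) :
    ‖pot ψ z - ∫ w, ψ w * ck δ (z - w)‖ ≤ M * (2 * Real.pi * δ) := by
  have hM0 : 0 ≤ M := (norm_nonneg _).trans (hM 0)
  have h1 : Integrable fun w => ψ w * (z - w)⁻¹ :=
    Pool.Agent.H761R2.SV.integrable_mul_cauchy hψ cψ z
  have h2 : Integrable fun w => ψ w * ck δ (z - w) := by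
    apply Continuous.integrable_of_hasCompactSupport
    · have := ck_cont hδ
      fun_prop
    · exact cψ.mul_right
  unfold pot
  rw [← integral_sub h1 h2, ← Pool.Agent.H761R2.SV.Quad.integral_sing hδ.le z,
    ← integral_const_mul]
  apply norm_integral_le_of_norm_le ((Pool.Agent.H761R2.SV.Quad.integrable_sing δ z).const_mul M)
  refine ae_of_all _ fun w => ?_
  rw [← mul_sub, norm_mul]
  exact mul_le_mul (hM w) (ck_diff hδ z w) (norm_nonneg _) hM0

end OscA

open OscA in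
theorem osc_pot {θ : ℝ → ℝ} (hθ : Osc θ) {φ : ℂ → ℂ} (hφ : Continuous φ)
    (cφ : HasCompactSupport φ) {ε : ℝ} (hε : 0 < ε) :
    ∀ᶠ r : ℝ in 𝓝[>] 0, ∀ z, ‖pot (fun w => φ w * (θ (w.re / r) : ℂ)) z - pot φ z‖ ≤ ε := by
  obtain ⟨R, hR, hs⟩ := Pool.Agent.H761R2.SV.Quad.exists_supp cφ
  obtain ⟨M, hM, hMφ⟩ := Pool.Agent.H761R2.SV.Quad.exists_bound hφ cφ
  obtain ⟨C, hC0, hC⟩ := prim_close hθ
  obtain ⟨M', hM0, hM'⟩ := per_bound hθ.cont hθ.per
  set δ : ℝ := ε / 2 / (2 * Real.pi * (M * (1 + M'))) with hδ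
  have hpi := Real.pi_pos
  have hδ0 : 0 < δ := by positivity
  have hδe : M * (2 * Real.pi * δ) + M * M' * (2 * Real.pi * δ) = ε / 2 := by
    rw [hδ]
    field_simp
  have huc := cφ.uniformContinuous_of_continuous hφ
  have huk := ck_uc hδ0
  set V := (volume : Measure ℂ).real (Metric.closedBall (0:ℂ) (R + 1)) with hV
  have hV0 : 0 ≤ V := measureReal_nonneg
  set η : ℝ := ε / 2 / ((V + 1) * M' * (δ⁻¹ + M)) with hη
  have hη0 : 0 < η := by positivity
  obtain ⟨d1, hd1, hm1⟩ := Metric.uniformContinuous_iff.mp huc η hη0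
  obtain ⟨d2, hd2, hm2⟩ := Metric.uniformContinuous_iff.mp huk η hη0
  have h1 : ∀ᶠ r : ℝ in 𝓝[>] 0, r < min (min (d1 / 2) (d2 / 2)) 1 / C :=
    nhdsWithin_le_nhds (Iio_mem_nhds (by positivity))
  filter_upwards [h1, self_mem_nhdsWithin] with r hr1 hr0 z
  have hr0' : (0:ℝ) < r := hr0
  have hCr : C * r < min (min (d1 / 2) (d2 / 2)) 1 := by
    rw [lt_div_iff₀ hC0] at hr1
    linarith
  have hCr1 : C * r ≤ 1 := hCr.le.trans (min_le_right _ _)
  have hCrd1 : C * r < d1 := by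
    have h2 := min_le_left (min (d1 / 2) (d2 / 2)) (1:ℝ)
    have h3 := min_le_left (d1 / 2) (d2 / 2)
    linarith
  have hCrd2 : C * r < d2 := by
    have h2 := min_le_left (min (d1 / 2) (d2 / 2)) (1:ℝ)
    have h3 := min_le_right (d1 / 2) (d2 / 2)
    linarith
  have hck := ck_cont hδ0
  have hθc := hθ.cont
  set F : ℂ → ℂ := fun w => φ w * ck δ (z - w) with hF
  have hFc : Continuous F := by
    rw [hF]
    fun_prop
  have hFs : ∀ u, R < ‖u‖ → F u = 0 := fun u hu => by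
    show φ u * ck δ (z - u) = 0
    rw [hs u hu, zero_mul]
  have hFm : ∀ w w', ‖w - w'‖ ≤ C * r → ‖F w - F w'‖ ≤ η * (δ⁻¹ + M) := by
    intro w w' hw
    have e : F w - F w' = (φ w - φ w') * ck δ (z - w) + φ w' * (ck δ (z - w) - ck δ (z - w')) := by
      show φ w * ck δ (z - w) - φ w' * ck δ (z - w') = _
      ring
    have b1 : ‖φ w - φ w'‖ ≤ η := by
      rw [← dist_eq_norm] at hw ⊢
      exact (hm1 (lt_of_le_of_lt hw hCrd1)).le
    have b2 : ‖ck δ (z - w) - ck δ (z - w')‖ ≤ η := by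
      rw [← dist_eq_norm]
      apply le_of_lt
      apply hm2
      rw [dist_eq_norm]
      have : z - w - (z - w') = -(w - w') := by ring
      rw [this, norm_neg]
      exact lt_of_le_of_lt hw hCrd2
    rw [e]
    refine (norm_add_le _ _).trans ?_
    rw [norm_mul, norm_mul, mul_add, mul_comm η M]
    exact add_le_add (mul_le_mul b1 (ck_le hδ0 _) (norm_nonneg _) hη0.le)
      (mul_le_mul (hMφ _) b2 (norm_nonneg _) hM.le)
  have hmain := main_bound hθ hC0 hC hr0' hR hM' hFc hFs (η := η * (δ⁻¹ + M)) (by positivity)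
    hCr1 hFm
  have hmain2 : V * (η * (δ⁻¹ + M) * M') ≤ ε / 2 := by
    have e : (V + 1) * (η * (δ⁻¹ + M) * M') = ε / 2 := by
      rw [hη]
      field_simp
    have : 0 < η * (δ⁻¹ + M) * M' := by positivity
    nlinarith
  have cφθ : HasCompactSupport fun w : ℂ => φ w * (θ (w.re / r) : ℂ) := cφ.mul_right
  have t1 := trunc hδ0 (ψ := fun w : ℂ => φ w * (θ (w.re / r) : ℂ)) (M := M * M')
    (by fun_prop) cφθ (fun w => by
      rw [norm_mul, Complex.norm_real, Real.norm_eq_abs]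
      exact mul_le_mul (hMφ w) (hM' _) (abs_nonneg _) hM.le) z
  have t2 := trunc hδ0 hφ cφ hMφ z
  have e1 : ∫ w, φ w * (θ (w.re / r) : ℂ) * ck δ (z - w) = ∫ w, F w * (θ (w.re / r) : ℂ) := by
    congr 1
    funext w
    rw [hF]
    ring
  rw [e1] at t1
  have e2 : pot (fun w => φ w * (θ (w.re / r) : ℂ)) z - pot φ z =
      (pot (fun w => φ w * (θ (w.re / r) : ℂ)) z - ∫ w, F w * (θ (w.re / r) : ℂ)) +
      ((∫ w, F w * (θ (w.re / r) : ℂ)) - ∫ w, F w) - (pot φ z - ∫ w, F w) := by ring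
  rw [e2]
  refine (norm_sub_le _ _).trans ?_
  have n1 := norm_add_le (pot (fun w => φ w * (θ (w.re / r) : ℂ)) z - ∫ w, F w *
    (θ (w.re / r) : ℂ)) ((∫ w, F w * (θ (w.re / r) : ℂ)) - ∫ w, F w)
  linarith

end Pool.Agent.H352R3.SA
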