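import Pool.Agent.H352R3.SA.Pot
import Pool.Agent.H352R3.SA.Bnd
import Pool.Agent.H352R3.SA.Ene
import Pool.Agent.H352R3.SA.Opr
import Pool.Agent.H352R3.SA.Dua
import Pool.Agent.H352R3.SA.Osc

/-!
# Module LIM: the second derivative `QQ` is nonpositive for all densities

The densities are replaced by oscillating densities with disjoint supports.
-/

set_option autoImplicit false

open MeasureTheory Complex Filter Topology
open scoped ComplexConjugate BoundedContinuousFunction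

namespace Pool.Agent.H352R3.SA
namespace LimAux

/-- weighted energy -/
noncomputable def N (p : ℂ → ℝ) (f : ℂ → ℂ) : ℝ := ∫ z, p z * ‖f z‖ ^ 2

theorem int_mul {p : ℂ → ℝ} (hp : Den p) {F : ℂ → ℝ} (hF : Continuous F) :
    Integrable (fun z => p z * F z) :=
  (hp.cont.mul hF).integrable_of_hasCompactSupport hp.supp.mul_right

theorem N_nonneg {p : ℂ → ℝ} (hp : Den p) (f : ℂ → ℂ) : 0 ≤ N p f :=
  integral_nonneg (fun z => mul_nonneg (hp.nonneg z) (by positivity))

theorem N_add {p : ℂ → ℝ} (hp : Den p) {f g : ℂ → ℂ} (hf : Continuous f) (hg : Continuous g) :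
    N p (fun z => f z + g z) ≤ 2 * N p f + 2 * N p g := by
  unfold N
  rw [← integral_const_mul, ← integral_const_mul, ← integral_add]
  · apply integral_mono
    · exact int_mul hp ((hf.add hg).norm.pow 2)
    · exact ((int_mul hp (hf.norm.pow 2)).const_mul 2).add
        ((int_mul hp (hg.norm.pow 2)).const_mul 2)
    · intro z
      have h1 : ‖f z + g z‖ ≤ ‖f z‖ + ‖g z‖ := norm_add_le _ _
      have h2 : ‖f z + g z‖ ^ 2 ≤ 2 * ‖f z‖ ^ 2 + 2 * ‖g z‖ ^ 2 := by
        have h3 : 0 ≤ ‖f z + g z‖ := norm_nonneg _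
        nlinarith [sq_nonneg (‖f z‖ - ‖g z‖)]
      have h4 := mul_le_mul_of_nonneg_left h2 (hp.nonneg z)
      show p z * ‖f z + g z‖ ^ 2 ≤ 2 * (p z * ‖f z‖ ^ 2) + 2 * (p z * ‖g z‖ ^ 2)
      linarith
  · exact (int_mul hp (hf.norm.pow 2)).const_mul 2
  · exact (int_mul hp (hg.norm.pow 2)).const_mul 2

theorem N_sup {p : ℂ → ℝ} (hp : Den p) {f : ℂ → ℂ} (hf : Continuous f) {δ : ℝ}
    (h : ∀ z, ‖f z‖ ≤ δ) : N p f ≤ δ ^ 2 * ∫ z, p z * 1 := by
  unfold N
  rw [← integral_const_mul]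
  apply integral_mono
  · exact int_mul hp (hf.norm.pow 2)
  · exact (int_mul hp continuous_const).const_mul _
  · intro z
    have h2 : ‖f z‖ ^ 2 ≤ δ ^ 2 := pow_le_pow_left₀ (norm_nonneg _) (h z) 2
    have h4 := mul_le_mul_of_nonneg_left h2 (hp.nonneg z)
    show p z * ‖f z‖ ^ 2 ≤ δ ^ 2 * (p z * 1)
    linarith

theorem cs {p : ℂ → ℝ} (hp : Den p) {f g : ℂ → ℂ} (hf : Continuous f) (hg : Continuous g) :
    (∫ z, p z * (‖f z‖ * ‖g z‖)) ^ 2 ≤ N p f * N p g := by
  have key : ∀ t : ℝ, 0 ≤ N p f * (t * t) + (2 * ∫ z, p z * (‖f z‖ * ‖g z‖)) * t + N p g := by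
    intro t
    have h1 : N p f * (t * t) + (2 * ∫ z, p z * (‖f z‖ * ‖g z‖)) * t + N p g
        = ∫ z, p z * (t * ‖f z‖ + ‖g z‖) ^ 2 := by
      unfold N
      have e1 : (∫ z, p z * ‖f z‖ ^ 2) * (t * t) = ∫ z, (t * t) * (p z * ‖f z‖ ^ 2) := by
        rw [integral_const_mul]; ring
      have e2 : (2 * ∫ z, p z * (‖f z‖ * ‖g z‖)) * t
          = ∫ z, (2 * t) * (p z * (‖f z‖ * ‖g z‖)) := by
        rw [integral_const_mul]; ring
      rw [e1, e2, ← integral_add, ← integral_add]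
      · refine integral_congr_ae (Eventually.of_forall fun z => ?_)
        show (t * t) * (p z * ‖f z‖ ^ 2) + (2 * t) * (p z * (‖f z‖ * ‖g z‖)) + p z * ‖g z‖ ^ 2
          = p z * (t * ‖f z‖ + ‖g z‖) ^ 2
        ring
      · exact ((int_mul hp (hf.norm.pow 2)).const_mul _).add
          ((int_mul hp (hf.norm.mul hg.norm)).const_mul _)
      · exact int_mul hp (hg.norm.pow 2)
      · exact (int_mul hp (hf.norm.pow 2)).const_mul _
      · exact (int_mul hp (hf.norm.mul hg.norm)).const_mul _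
    rw [h1]
    exact integral_nonneg (fun z => mul_nonneg (hp.nonneg z) (sq_nonneg _))
  have h2 := discrim_le_zero key
  unfold discrim at h2
  nlinarith

/-- families of densities converging weakly -/
structure Fam (R M : ℝ) (p : ℝ → ℂ → ℝ) (P : ℂ → ℝ) : Prop where
  den : ∀ r, 0 < r → Den (p r)
  out : ∀ r, 0 < r → ∀ z, R < ‖z‖ → p r z = 0
  le : ∀ r, 0 < r → ∀ z, p r z ≤ M
  int : ∀ F : ℂ → ℝ, Continuous F →
    Tendsto (fun r => ∫ z, p r z * F z) (𝓝[>] 0) (𝓝 (∫ z, P z * F z))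
  pt : ∀ f : ℂ → ℂ, Continuous f → ∀ ε : ℝ, 0 < ε →
    ∀ᶠ r in 𝓝[>] 0, ∀ z, ‖cop (p r) f z - cop P f z‖ ≤ ε

theorem ev_pos : ∀ᶠ r : ℝ in 𝓝[>] 0, 0 < r := self_mem_nhdsWithin

theorem tend_sup {R M : ℝ} {p : ℝ → ℂ → ℝ} {P : ℂ → ℝ} (hp : Fam R M p P)
    {f : ℝ → ℂ → ℂ} (cf : ∀ r, 0 < r → Continuous (f r))
    (h : ∀ ε : ℝ, 0 < ε → ∀ᶠ r in 𝓝[>] 0, ∀ z, ‖f r z‖ ≤ ε) :
    Tendsto (fun r => N (p r) (f r)) (𝓝[>] 0) (𝓝 0) := by
  have h1 := hp.int (fun _ => 1) continuous_const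
  set A : ℝ := ∫ z, P z * 1 with hA
  have hB : 0 < |A| + 1 := by positivity
  have h2 : ∀ᶠ r in 𝓝[>] (0:ℝ), ∫ z, p r z * 1 < |A| + 1 := by
    apply h1.eventually_lt_const
    have := le_abs_self A
    linarith
  rw [Metric.tendsto_nhds]
  intro ε hε
  have hδ : 0 < Real.sqrt (ε / (2 * (|A| + 1))) := Real.sqrt_pos.2 (by positivity)
  filter_upwards [ev_pos, h2, h _ hδ] with r hr h3 h4
  have h5 := N_sup (hp.den r hr) (cf r hr) h4
  rw [Real.sq_sqrt (by positivity)] at h5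
  have h6 := N_nonneg (hp.den r hr) (f r)
  rw [Real.dist_eq, sub_zero, abs_of_nonneg h6]
  have h7 : ε / (2 * (|A| + 1)) * ∫ z, p r z * 1 ≤ ε / (2 * (|A| + 1)) * (|A| + 1) := by
    apply mul_le_mul_of_nonneg_left h3.le (by positivity)
  have h8 : ε / (2 * (|A| + 1)) * (|A| + 1) = ε / 2 := by
    field_simp
  linarith

theorem tend_le {p : ℝ → ℝ} {q : ℝ → ℝ} (h0 : ∀ r, 0 < r → 0 ≤ p r)
    (h1 : ∀ r, 0 < r → p r ≤ q r) (h : Tendsto q (𝓝[>] 0) (𝓝 0)) :
    Tendsto p (𝓝[>] 0) (𝓝 0) := by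
  refine tendsto_of_tendsto_of_tendsto_of_le_of_le' tendsto_const_nhds h ?_ ?_
  · filter_upwards [ev_pos] with r hr using h0 r hr
  · filter_upwards [ev_pos] with r hr using h1 r hr

theorem tend_add {R M : ℝ} {p : ℝ → ℂ → ℝ} {P : ℂ → ℝ} (hp : Fam R M p P)
    {f g : ℝ → ℂ → ℂ} (cf : ∀ r, 0 < r → Continuous (f r))
    (cg : ∀ r, 0 < r → Continuous (g r))
    (hf : Tendsto (fun r => N (p r) (f r)) (𝓝[>] 0) (𝓝 0))
    (hg : Tendsto (fun r => N (p r) (g r)) (𝓝[>] 0) (𝓝 0)) :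
    Tendsto (fun r => N (p r) (fun z => f r z + g r z)) (𝓝[>] 0) (𝓝 0) := by
  refine tend_le (q := fun r => 2 * N (p r) (f r) + 2 * N (p r) (g r))
    (fun r hr => N_nonneg (hp.den r hr) _)
    (fun r hr => N_add (hp.den r hr) (cf r hr) (cg r hr)) ?_
  have := (hf.const_mul 2).add (hg.const_mul 2)
  simpa using this

theorem tend_cop {R M : ℝ} {p q : ℝ → ℂ → ℝ} {P Q : ℂ → ℝ} (hp : Fam R M p P)
    (hq : Fam R M q Q)
    {f : ℝ → ℂ → ℂ} (cf : ∀ r, 0 < r → Continuous (f r))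
    (hf : Tendsto (fun r => N (q r) (f r)) (𝓝[>] 0) (𝓝 0)) :
    Tendsto (fun r => N (p r) (cop (q r) (f r))) (𝓝[>] 0) (𝓝 0) := by
  obtain ⟨C, hC, hsch⟩ := schur R M
  refine tend_le (q := fun r => C * N (q r) (f r))
    (fun r hr => N_nonneg (hp.den r hr) _) ?_ ?_
  · intro r hr
    have h1 := hsch (p r) (q r) (fun z => conj (f r z)) (hp.den r hr) (hq.den r hr)
      (Complex.continuous_conj.comp (cf r hr)) (hp.out r hr) (hq.out r hr) (hp.le r hr)
      (hq.le r hr)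
    have e1 : N (p r) (cop (q r) (f r)) = ∫ z, p r z *
        ‖pot (fun w => (q r w : ℂ) * conj (f r w)) z‖ ^ 2 := by
      unfold N cop
      simp only [norm_neg]
    have e2 : N (q r) (f r) = ∫ z, q r z * ‖conj (f r z)‖ ^ 2 := by
      unfold N
      simp only [RCLike.norm_conj]
    rw [e1, e2]
    exact h1
  · have := hf.const_mul C
    simpa using this

theorem tend_step {R M : ℝ} {p q : ℝ → ℂ → ℝ} {P Q : ℂ → ℝ} (hp : Fam R M p P)
    (hq : Fam R M q Q) {s t L K : ℝ → ℂ → ℂ}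
    (hs : ∀ r, 0 < r → Sol (q r) (s r) (t r) (L r) (K r))
    (cs : ∀ r, 0 < r → Continuous (s r)) (ct : ∀ r, 0 < r → Continuous (t r))
    (h1 : Tendsto (fun r => N (q r) (s r)) (𝓝[>] 0) (𝓝 0))
    (h2 : Tendsto (fun r => N (q r) (t r)) (𝓝[>] 0) (𝓝 0))
    (h3 : Tendsto (fun r => N (p r) (s r)) (𝓝[>] 0) (𝓝 0))
    (h4 : Tendsto (fun r => N (p r) (t r)) (𝓝[>] 0) (𝓝 0)) :
    Tendsto (fun r => N (p r) (L r)) (𝓝[>] 0) (𝓝 0) ∧
    Tendsto (fun r => N (p r) (K r)) (𝓝[>] 0) (𝓝 0) := by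
  have hsum : ∀ r, 0 < r → N (q r) (L r) + N (q r) (K r) ≤ N (q r) (s r) + N (q r) (t r) := by
    intro r hr
    have hE := sol_energy (hq.den r hr) (hs r hr)
    have e1 : N (q r) (L r) + N (q r) (K r) = ∫ z, q r z * (‖L r z‖ ^ 2 + ‖K r z‖ ^ 2) := by
      unfold N
      rw [← integral_add]
      · refine integral_congr_ae (Eventually.of_forall fun z => ?_)
        show q r z * ‖L r z‖ ^ 2 + q r z * ‖K r z‖ ^ 2 = q r z * (‖L r z‖ ^ 2 + ‖K r z‖ ^ 2)
        ring
      · exact int_mul (hq.den r hr) ((hs r hr).cL.norm.pow 2)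
      · exact int_mul (hq.den r hr) ((hs r hr).cK.norm.pow 2)
    have e2 : N (q r) (s r) + N (q r) (t r) = ∫ z, q r z * (‖s r z‖ ^ 2 + ‖t r z‖ ^ 2) := by
      unfold N
      rw [← integral_add]
      · refine integral_congr_ae (Eventually.of_forall fun z => ?_)
        show q r z * ‖s r z‖ ^ 2 + q r z * ‖t r z‖ ^ 2 = q r z * (‖s r z‖ ^ 2 + ‖t r z‖ ^ 2)
        ring
      · exact int_mul (hq.den r hr) ((cs r hr).norm.pow 2)
      · exact int_mul (hq.den r hr) ((ct r hr).norm.pow 2)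
    rw [e1, e2]
    exact hE
  have h12 : Tendsto (fun r => N (q r) (s r) + N (q r) (t r)) (𝓝[>] 0) (𝓝 0) := by
    simpa using h1.add h2
  have hqL : Tendsto (fun r => N (q r) (L r)) (𝓝[>] 0) (𝓝 0) := by
    refine tend_le (fun r hr => N_nonneg (hq.den r hr) _) (fun r hr => ?_) h12
    have := hsum r hr
    have := N_nonneg (hq.den r hr) (K r)
    linarith
  have hqK : Tendsto (fun r => N (q r) (K r)) (𝓝[>] 0) (𝓝 0) := by
    refine tend_le (fun r hr => N_nonneg (hq.den r hr) _) (fun r hr => ?_) h12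
    have := hsum r hr
    have := N_nonneg (hq.den r hr) (L r)
    linarith
  constructor
  · have h5 := tend_cop hp hq (fun r hr => (hs r hr).cK) hqK
    have h6 := tend_add hp cs (fun r hr => cop_continuous (hq.den r hr).cont (hq.den r hr).supp
      (hs r hr).cK) h3 h5
    refine h6.congr' ?_
    filter_upwards [ev_pos] with r hr
    congr 1
    funext z
    exact ((hs r hr).eL z).symm
  · have h5 := tend_cop hp hq (fun r hr => (hs r hr).cL) hqL
    have h6 := tend_add hp ct (fun r hr => cop_continuous (hq.den r hr).cont (hq.den r hr).supp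
      (hs r hr).cL) h4 h5
    refine h6.congr' ?_
    filter_upwards [ev_pos] with r hr
    congr 1
    funext z
    exact ((hs r hr).eK z).symm

theorem sol_resid {g : ℂ → ℝ} (hg : Den g) {s t L K L' K' : ℂ → ℂ} (h : Sol g s t L K)
    (cL : Continuous L') (cK : Continuous K') :
    Sol g (fun z => s z - (L' z - cop g K' z)) (fun z => t z - (K' z - cop g L' z))
      (fun z => L z - L' z) (fun z => K z - K' z) := by
  have h' : Sol g (fun z => L' z - cop g K' z) (fun z => K' z - cop g L' z) L' K' :=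
    ⟨cL, cK, fun z => by ring, fun z => by ring⟩
  exact sol_sub hg.cont hg.supp h h'

theorem cop_sub {g : ℂ → ℝ} (hg : Den g) {u v : ℂ → ℂ} (hu : Continuous u)
    (hv : Continuous v) (z : ℂ) :
    cop g (fun w => u w - v w) z = cop g u z - cop g v z := by
  unfold cop
  have key : ∀ {f : ℂ → ℂ}, Continuous f →
      Integrable (fun w => (g w : ℂ) * conj (f w) * (z - w)⁻¹) := by
    intro f hf
    refine pot_integrable (φ := fun w => (g w : ℂ) * conj (f w)) ?_ ?_ z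
    · exact (Complex.continuous_ofReal.comp hg.cont).mul (Complex.continuous_conj.comp hf)
    · exact HasCompactSupport.mul_right (hg.supp.comp_left (g := fun x : ℝ => (x : ℂ)) (by simp))
  have e : pot (fun w => (g w : ℂ) * conj (u w - v w)) z
      = pot (fun w => (g w : ℂ) * conj (u w)) z - pot (fun w => (g w : ℂ) * conj (v w)) z := by
    unfold pot
    rw [← integral_sub (key hu) (key hv)]
    refine integral_congr_ae (Eventually.of_forall fun w => ?_)
    show (g w : ℂ) * conj (u w - v w) * (z - w)⁻¹ = (g w : ℂ) * conj (u w) * (z - w)⁻¹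
      - (g w : ℂ) * conj (v w) * (z - w)⁻¹
    rw [map_sub]
    ring
  rw [e]
  ring

theorem tend_prod {R M : ℝ} {p : ℝ → ℂ → ℝ} {P : ℂ → ℝ} (hp : Fam R M p P)
    {u v : ℝ → ℂ → ℂ} {U V : ℂ → ℂ} (cu : ∀ r, 0 < r → Continuous (u r))
    (cv : ∀ r, 0 < r → Continuous (v r)) (cU : Continuous U) (cV : Continuous V)
    (hu : Tendsto (fun r => N (p r) (fun z => u r z - U z)) (𝓝[>] 0) (𝓝 0))
    (hv : Tendsto (fun r => N (p r) (fun z => v r z - V z)) (𝓝[>] 0) (𝓝 0)) :
    Tendsto (fun r => ∫ z, p r z * (conj (u r z) * v r z).re) (𝓝[>] 0)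
      (𝓝 (∫ z, P z * (conj (U z) * V z).re)) := by
  have h0 := hp.int (fun z => (conj (U z) * V z).re)
    (Complex.continuous_re.comp ((Complex.continuous_conj.comp cU).mul cV))
  have hN : Tendsto (fun r => N (p r) V) (𝓝[>] 0) (𝓝 (N P V)) :=
    hp.int (fun z => ‖V z‖ ^ 2) (cV.norm.pow 2)
  have hNU : Tendsto (fun r => N (p r) U) (𝓝[>] 0) (𝓝 (N P U)) :=
    hp.int (fun z => ‖U z‖ ^ 2) (cU.norm.pow 2)
  -- the three cross terms
  have key : ∀ {a b : ℝ → ℂ → ℂ} {B : ℝ}, (∀ r, 0 < r → Continuous (a r)) →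
      (∀ r, 0 < r → Continuous (b r)) →
      Tendsto (fun r => N (p r) (a r)) (𝓝[>] 0) (𝓝 0) →
      Tendsto (fun r => N (p r) (b r)) (𝓝[>] 0) (𝓝 B) →
      Tendsto (fun r => ∫ z, p r z * (‖a r z‖ * ‖b r z‖)) (𝓝[>] 0) (𝓝 0) := by
    intro a b B ca cb ha hb
    have h1 : Tendsto (fun r => N (p r) (a r) * N (p r) (b r)) (𝓝[>] 0) (𝓝 0) := by
      simpa using ha.mul hb
    have h2 : Tendsto (fun r => Real.sqrt (N (p r) (a r) * N (p r) (b r))) (𝓝[>] 0) (𝓝 0) := by
      have h3 := (Real.continuous_sqrt.tendsto 0).comp h1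
      rw [Real.sqrt_zero] at h3
      exact h3
    refine tend_le (fun r hr => integral_nonneg fun z =>
      mul_nonneg ((hp.den r hr).nonneg z) (by positivity)) (fun r hr => ?_) h2
    exact Real.le_sqrt_of_sq_le (cs (hp.den r hr) (ca r hr) (cb r hr))
  have cu' : ∀ r, 0 < r → Continuous (fun z => u r z - U z) := fun r hr => (cu r hr).sub cU
  have cv' : ∀ r, 0 < r → Continuous (fun z => v r z - V z) := fun r hr => (cv r hr).sub cV
  have k1 := key cu' (b := fun _ => V) (fun r _ => cV) hu hN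
  have k2 := key cu' cv' hu hv
  have k3 := key cv' (b := fun _ => U) (fun r _ => cU) hv hNU
  have k := (k1.add k2).add k3
  simp only [add_zero] at k
  have hdiff : Tendsto (fun r => (∫ z, p r z * (conj (u r z) * v r z).re)
      - ∫ z, p r z * (conj (U z) * V z).re) (𝓝[>] 0) (𝓝 0) := by
    rw [tendsto_zero_iff_abs_tendsto_zero]
    refine tend_le (fun r _ => abs_nonneg _) (fun r hr => ?_) k
    have I : ∀ {F : ℂ → ℝ}, Continuous F → Integrable (fun z => p r z * F z) :=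
      fun hF => int_mul (hp.den r hr) hF
    have cur := cu r hr
    have cvr := cv r hr
    have c1 : Continuous fun z => (conj (u r z) * v r z).re :=
      Complex.continuous_re.comp ((Complex.continuous_conj.comp cur).mul cvr)
    have c2 : Continuous fun z => (conj (U z) * V z).re :=
      Complex.continuous_re.comp ((Complex.continuous_conj.comp cU).mul cV)
    simp only [Function.comp_apply]
    rw [← integral_sub (I c1) (I c2)]
    have i1 : Integrable (fun z => p r z * (‖u r z - U z‖ * ‖V z‖)) :=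
      I ((cu' r hr).norm.mul cV.norm)
    have i2 : Integrable (fun z => p r z * (‖u r z - U z‖ * ‖v r z - V z‖)) :=
      I ((cu' r hr).norm.mul (cv' r hr).norm)
    have i3 : Integrable (fun z => p r z * (‖v r z - V z‖ * ‖U z‖)) :=
      I ((cv' r hr).norm.mul cU.norm)
    have i12 : Integrable (fun z => p r z * (‖u r z - U z‖ * ‖V z‖)
        + p r z * (‖u r z - U z‖ * ‖v r z - V z‖)) := i1.add i2
    rw [← integral_add i1 i2, ← integral_add i12 i3]
    refine le_trans (abs_integral_le_integral_abs) ?_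
    apply integral_mono
    · exact ((I c1).sub (I c2)).abs
    · exact i12.add i3
    · intro z
      show |p r z * (conj (u r z) * v r z).re - p r z * (conj (U z) * V z).re| ≤
        p r z * (‖u r z - U z‖ * ‖V z‖) + p r z * (‖u r z - U z‖ * ‖v r z - V z‖)
        + p r z * (‖v r z - V z‖ * ‖U z‖)
      have hz := (hp.den r hr).nonneg z
      rw [← mul_sub, abs_mul, abs_of_nonneg hz, ← mul_add, ← mul_add]
      apply mul_le_mul_of_nonneg_left _ hz
      rw [← Complex.sub_re]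
      refine le_trans (Complex.abs_re_le_norm _) ?_
      have e : conj (u r z) * v r z - conj (U z) * V z
          = conj (u r z - U z) * V z + conj (u r z - U z) * (v r z - V z)
            + conj (U z) * (v r z - V z) := by
        rw [map_sub]; ring
      rw [e]
      refine le_trans (norm_add_le _ _) ?_
      have n1 : ‖conj (u r z - U z) * V z + conj (u r z - U z) * (v r z - V z)‖
          ≤ ‖u r z - U z‖ * ‖V z‖ + ‖u r z - U z‖ * ‖v r z - V z‖ := by
        refine le_trans (norm_add_le _ _) ?_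
        rw [norm_mul, norm_mul, RCLike.norm_conj]
      have n2 : ‖conj (U z) * (v r z - V z)‖ = ‖v r z - V z‖ * ‖U z‖ := by
        rw [norm_mul, RCLike.norm_conj, mul_comm]
      linarith
  have := hdiff.add h0
  simpa using this

theorem QQ_eq {g h₁ h₂ : ℂ → ℝ} (hh₂ : Den h₂) : QQ g h₁ h₂ =
    2 * (∫ z, h₂ z * (conj ((LK g).1 z) * (dLK g h₁).1 z).re)
      - 2 * ∫ z, h₂ z * (conj ((LK g).2 z) * (dLK g h₁).2 z).re := by
  unfold QQ
  rw [← integral_const_mul, ← integral_const_mul, ← integral_sub]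
  · refine integral_congr_ae (Eventually.of_forall fun z => ?_)
    show h₂ z * (2 * (conj ((LK g).1 z) * (dLK g h₁).1 z
      - conj ((LK g).2 z) * (dLK g h₁).2 z).re)
      = 2 * (h₂ z * (conj ((LK g).1 z) * (dLK g h₁).1 z).re)
      - 2 * (h₂ z * (conj ((LK g).2 z) * (dLK g h₁).2 z).re)
    rw [Complex.sub_re]
    ring
  · refine (int_mul hh₂ ?_).const_mul 2
    exact Complex.continuous_re.comp ((Complex.continuous_conj.comp
      (LK g).1.continuous).mul (dLK g h₁).1.continuous)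
  · refine (int_mul hh₂ ?_).const_mul 2
    exact Complex.continuous_re.comp ((Complex.continuous_conj.comp
      (LK g).2.continuous).mul (dLK g h₁).2.continuous)

theorem tend_QQ {R M : ℝ} {gr ar br : ℝ → ℂ → ℝ} {g h₁ h₂ : ℂ → ℝ} (hg : Den g)
    (hh₁ : Den h₁) (hh₂ : Den h₂) (Hg : Fam R M gr g) (Ha : Fam R M ar h₁)
    (Hb : Fam R M br h₂) :
    Tendsto (fun r => QQ (gr r) (ar r) (br r)) (𝓝[>] 0) (𝓝 (QQ g h₁ h₂)) := by
  have cL : Continuous (LK g).1 := (LK g).1.continuous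
  have cK : Continuous (LK g).2 := (LK g).2.continuous
  have cL1 : Continuous (dLK g h₁).1 := (dLK g h₁).1.continuous
  have cK1 : Continuous (dLK g h₁).2 := (dLK g h₁).2.continuous
  have S := LK_sol hg
  have S1 := dLK_sol hg hh₁.cont hh₁.supp
  -- step 1
  have E : ∀ r, 0 < r → Sol (gr r)
      (fun z => cop (gr r) (LK g).2 z - cop g (LK g).2 z)
      (fun z => cop (gr r) (LK g).1 z - cop g (LK g).1 z)
      (fun z => (LK (gr r)).1 z - (LK g).1 z) (fun z => (LK (gr r)).2 z - (LK g).2 z) := by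
    intro r hr
    have h := sol_resid (Hg.den r hr) (LK_sol (Hg.den r hr)) cL cK
    have e1 : (fun z => cop (gr r) (LK g).2 z - cop g (LK g).2 z)
        = fun z => (1:ℂ) - ((LK g).1 z - cop (gr r) (LK g).2 z) := by
      funext z
      rw [S.eL z]; ring
    have e2 : (fun z => cop (gr r) (LK g).1 z - cop g (LK g).1 z)
        = fun z => (0:ℂ) - ((LK g).2 z - cop (gr r) (LK g).1 z) := by
      funext z
      rw [S.eK z]; ring
    rw [e1, e2]
    exact h
  have cρ : ∀ {f : ℂ → ℂ}, Continuous f → ∀ r, 0 < r →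
      Continuous (fun z => cop (gr r) f z - cop g f z) := fun {f} hf r hr =>
    (cop_continuous (Hg.den r hr).cont (Hg.den r hr).supp hf).sub
      (cop_continuous hg.cont hg.supp hf)
  have cα : ∀ {f : ℂ → ℂ}, Continuous f → ∀ r, 0 < r →
      Continuous (fun z => cop (ar r) f z - cop h₁ f z) := fun {f} hf r hr =>
    (cop_continuous (Ha.den r hr).cont (Ha.den r hr).supp hf).sub
      (cop_continuous hh₁.cont hh₁.supp hf)
  have ρ : ∀ {p : ℝ → ℂ → ℝ} {P : ℂ → ℝ}, Fam R M p P → ∀ {f : ℂ → ℂ}, Continuous f →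
      Tendsto (fun r => N (p r) (fun z => cop (gr r) f z - cop g f z)) (𝓝[>] 0) (𝓝 0) :=
    fun {p} {P} hp {f} hf => tend_sup hp (cρ hf) (Hg.pt f hf)
  have α : ∀ {p : ℝ → ℂ → ℝ} {P : ℂ → ℝ}, Fam R M p P → ∀ {f : ℂ → ℂ}, Continuous f →
      Tendsto (fun r => N (p r) (fun z => cop (ar r) f z - cop h₁ f z)) (𝓝[>] 0) (𝓝 0) :=
    fun {p} {P} hp {f} hf => tend_sup hp (cα hf) (Ha.pt f hf)
  have e : ∀ {p : ℝ → ℂ → ℝ} {P : ℂ → ℝ}, Fam R M p P →
      Tendsto (fun r => N (p r) (fun z => (LK (gr r)).1 z - (LK g).1 z)) (𝓝[>] 0) (𝓝 0) ∧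
      Tendsto (fun r => N (p r) (fun z => (LK (gr r)).2 z - (LK g).2 z)) (𝓝[>] 0) (𝓝 0) :=
    fun hp => tend_step hp Hg E (cρ cK) (cρ cL) (ρ Hg cK) (ρ Hg cL) (ρ hp cK) (ρ hp cL)
  -- step 2
  have cE1 : ∀ r, 0 < r → Continuous (fun z => (LK (gr r)).1 z - (LK g).1 z) :=
    fun r hr => (E r hr).cL
  have cE2 : ∀ r, 0 < r → Continuous (fun z => (LK (gr r)).2 z - (LK g).2 z) :=
    fun r hr => (E r hr).cK
  have D : ∀ r, 0 < r → Sol (gr r)
      (fun z => (cop (gr r) (dLK g h₁).2 z - cop g (dLK g h₁).2 z)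
        + ((cop (ar r) (LK g).2 z - cop h₁ (LK g).2 z)
          + cop (ar r) (fun z => (LK (gr r)).2 z - (LK g).2 z) z))
      (fun z => (cop (gr r) (dLK g h₁).1 z - cop g (dLK g h₁).1 z)
        + ((cop (ar r) (LK g).1 z - cop h₁ (LK g).1 z)
          + cop (ar r) (fun z => (LK (gr r)).1 z - (LK g).1 z) z))
      (fun z => (dLK (gr r) (ar r)).1 z - (dLK g h₁).1 z)
      (fun z => (dLK (gr r) (ar r)).2 z - (dLK g h₁).2 z) := by
    intro r hr
    have h := sol_resid (Hg.den r hr)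
      (dLK_sol (Hg.den r hr) (Ha.den r hr).cont (Ha.den r hr).supp) cL1 cK1
    have e1 : (fun z => (cop (gr r) (dLK g h₁).2 z - cop g (dLK g h₁).2 z)
        + ((cop (ar r) (LK g).2 z - cop h₁ (LK g).2 z)
          + cop (ar r) (fun z => (LK (gr r)).2 z - (LK g).2 z) z))
        = fun z => cop (ar r) (LK (gr r)).2 z
          - ((dLK g h₁).1 z - cop (gr r) (dLK g h₁).2 z) := by
      funext z
      rw [S1.eL z, cop_sub (Ha.den r hr) (LK (gr r)).2.continuous cK]
      ring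
    have e2 : (fun z => (cop (gr r) (dLK g h₁).1 z - cop g (dLK g h₁).1 z)
        + ((cop (ar r) (LK g).1 z - cop h₁ (LK g).1 z)
          + cop (ar r) (fun z => (LK (gr r)).1 z - (LK g).1 z) z))
        = fun z => cop (ar r) (LK (gr r)).1 z
          - ((dLK g h₁).2 z - cop (gr r) (dLK g h₁).1 z) := by
      funext z
      rw [S1.eK z, cop_sub (Ha.den r hr) (LK (gr r)).1.continuous cL]
      ring
    rw [e1, e2]
    exact h
  have cc1 : ∀ r, 0 < r → Continuous
      (cop (ar r) (fun z => (LK (gr r)).1 z - (LK g).1 z)) := fun r hr =>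
    cop_continuous (Ha.den r hr).cont (Ha.den r hr).supp (cE1 r hr)
  have cc2 : ∀ r, 0 < r → Continuous
      (cop (ar r) (fun z => (LK (gr r)).2 z - (LK g).2 z)) := fun r hr =>
    cop_continuous (Ha.den r hr).cont (Ha.den r hr).supp (cE2 r hr)
  have cσ1 : ∀ r, 0 < r → Continuous
      (fun z => (cop (gr r) (dLK g h₁).2 z - cop g (dLK g h₁).2 z)
        + ((cop (ar r) (LK g).2 z - cop h₁ (LK g).2 z)
          + cop (ar r) (fun z => (LK (gr r)).2 z - (LK g).2 z) z)) := fun r hr =>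
    (cρ cK1 r hr).add ((cα cK r hr).add (cc2 r hr))
  have cσ2 : ∀ r, 0 < r → Continuous
      (fun z => (cop (gr r) (dLK g h₁).1 z - cop g (dLK g h₁).1 z)
        + ((cop (ar r) (LK g).1 z - cop h₁ (LK g).1 z)
          + cop (ar r) (fun z => (LK (gr r)).1 z - (LK g).1 z) z)) := fun r hr =>
    (cρ cL1 r hr).add ((cα cL r hr).add (cc1 r hr))
  have tσ1 : ∀ {p : ℝ → ℂ → ℝ} {P : ℂ → ℝ}, Fam R M p P → Tendsto (fun r => N (p r)
      (fun z => (cop (gr r) (dLK g h₁).2 z - cop g (dLK g h₁).2 z)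
        + ((cop (ar r) (LK g).2 z - cop h₁ (LK g).2 z)
          + cop (ar r) (fun z => (LK (gr r)).2 z - (LK g).2 z) z))) (𝓝[>] 0) (𝓝 0) :=
    fun hp => tend_add hp (cρ cK1) (fun r hr => (cα cK r hr).add (cc2 r hr)) (ρ hp cK1)
      (tend_add hp (cα cK) cc2 (α hp cK) (tend_cop hp Ha cE2 (e Ha).2))
  have tσ2 : ∀ {p : ℝ → ℂ → ℝ} {P : ℂ → ℝ}, Fam R M p P → Tendsto (fun r => N (p r)
      (fun z => (cop (gr r) (dLK g h₁).1 z - cop g (dLK g h₁).1 z)
        + ((cop (ar r) (LK g).1 z - cop h₁ (LK g).1 z)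
          + cop (ar r) (fun z => (LK (gr r)).1 z - (LK g).1 z) z))) (𝓝[>] 0) (𝓝 0) :=
    fun hp => tend_add hp (cρ cL1) (fun r hr => (cα cL r hr).add (cc1 r hr)) (ρ hp cL1)
      (tend_add hp (cα cL) cc1 (α hp cL) (tend_cop hp Ha cE1 (e Ha).1))
  have d := tend_step Hb Hg D cσ1 cσ2 (tσ1 Hg) (tσ2 Hg) (tσ1 Hb) (tσ2 Hb)
  -- step 3
  have f1 := tend_prod Hb (u := fun r => (LK (gr r)).1) (v := fun r => (dLK (gr r) (ar r)).1)
    (fun r _ => (LK (gr r)).1.continuous) (fun r _ => (dLK (gr r) (ar r)).1.continuous)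
    cL cL1 (e Hb).1 d.1
  have f2 := tend_prod Hb (u := fun r => (LK (gr r)).2) (v := fun r => (dLK (gr r) (ar r)).2)
    (fun r _ => (LK (gr r)).2.continuous) (fun r _ => (dLK (gr r) (ar r)).2.continuous)
    cK cK1 (e Hb).2 d.2
  rw [QQ_eq hh₂]
  refine ((f1.const_mul 2).sub (f2.const_mul 2)).congr' ?_
  filter_upwards [ev_pos] with r hr
  exact (QQ_eq (Hb.den r hr)).symm

theorem osc_fam {θ : ℝ → ℝ} (hθ : Osc θ) {P : ℂ → ℝ} (hP : Den P) :
    ∃ R₀ M₀ : ℝ, ∀ R M : ℝ, R₀ ≤ R → M₀ ≤ M →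
      Fam R M (fun r z => P z * θ (z.re / r)) P := by
  obtain ⟨R₀, hR₀⟩ := hP.supp.isCompact.isBounded.exists_norm_le
  have hbθ := (hθ.per.isBounded_of_continuous one_ne_zero hθ.cont).exists_norm_le
  obtain ⟨A, hA⟩ := hbθ
  obtain ⟨B, hB⟩ := hP.cont.bounded_above_of_compact_support hP.supp
  have hB' : ∀ z, |P z| ≤ B := hB
  have hA' : ∀ x, |θ x| ≤ A := fun x => hA _ (Set.mem_range_self x)
  have hA0 : 0 ≤ A := le_trans (abs_nonneg _) (hA' 0)
  have hB0 : 0 ≤ B := le_trans (abs_nonneg _) (hB' 0)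
  refine ⟨R₀, B * A, fun R M hR hM => ⟨?_, ?_, ?_, ?_, ?_⟩⟩
  · intro r hr
    refine ⟨?_, ?_, ?_⟩
    · exact hP.cont.mul (hθ.cont.comp (Complex.continuous_re.div_const r))
    · exact hP.supp.mul_right
    · exact fun z => mul_nonneg (hP.nonneg z) (hθ.nonneg _)
  · intro r hr z hz
    have : P z = 0 := by
      by_contra hne
      have h1 := hR₀ z (subset_tsupport _ hne)
      linarith
    show P z * θ (z.re / r) = 0
    rw [this, zero_mul]
  · intro r hr z
    refine le_trans ?_ hM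
    exact mul_le_mul (le_trans (le_abs_self _) (hB' z)) (le_trans (le_abs_self _) (hA' _))
      (hθ.nonneg _) hB0
  · intro F hF
    have hφ : Continuous (fun z => ((P z * F z : ℝ) : ℂ)) :=
      Complex.continuous_ofReal.comp (hP.cont.mul hF)
    have cφ : HasCompactSupport (fun z => ((P z * F z : ℝ) : ℂ)) :=
      (HasCompactSupport.mul_right (f := P) (f' := F) hP.supp).comp_left
        (g := fun x : ℝ => (x : ℂ)) (by simp)
    have h := osc_int hθ hφ cφ
    have h2 := (Complex.continuous_re.tendsto _).comp h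
    have e1 : (∫ z, ((P z * F z : ℝ) : ℂ)).re = ∫ z, P z * F z := by
      have h3 : (∫ z, ((P z * F z : ℝ) : ℂ)) = ((∫ z, P z * F z : ℝ) : ℂ) := integral_ofReal
      rw [h3, Complex.ofReal_re]
    rw [e1] at h2
    refine h2.congr fun r => ?_
    show (∫ w : ℂ, ((P w * F w : ℝ) : ℂ) * (θ (w.re / r) : ℂ)).re
      = ∫ z : ℂ, P z * θ (z.re / r) * F z
    have e2 : (fun w : ℂ => ((P w * F w : ℝ) : ℂ) * (θ (w.re / r) : ℂ))
        = fun w : ℂ => (((P w * θ (w.re / r) * F w : ℝ)) : ℂ) := by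
      funext w
      push_cast
      ring
    have h3 : (∫ w : ℂ, ((P w * θ (w.re / r) * F w : ℝ) : ℂ))
        = ((∫ w : ℂ, P w * θ (w.re / r) * F w : ℝ) : ℂ) := integral_ofReal
    rw [e2, h3, Complex.ofReal_re]
  · intro f hf ε hε
    have hφ : Continuous (fun w => (P w : ℂ) * conj (f w)) :=
      (Complex.continuous_ofReal.comp hP.cont).mul (Complex.continuous_conj.comp hf)
    have cφ : HasCompactSupport (fun w => (P w : ℂ) * conj (f w)) :=
      HasCompactSupport.mul_right (hP.supp.comp_left (g := fun x : ℝ => (x : ℂ)) (by simp))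
    filter_upwards [osc_pot hθ hφ cφ hε] with r hr z
    have h := hr z
    unfold cop
    have e1 : (fun w : ℂ => ((P w * θ (w.re / r) : ℝ) : ℂ) * conj (f w))
        = fun w : ℂ => (P w : ℂ) * conj (f w) * (θ (w.re / r) : ℂ) := by
      funext w
      push_cast
      ring
    rw [e1, neg_sub_neg, norm_sub_rev]
    exact h

theorem tsupport_osc {θ : ℝ → ℝ} (P : ℂ → ℝ) (r : ℝ) :
    tsupport (fun z : ℂ => P z * θ (z.re / r)) ⊆ (fun z : ℂ => z.re / r) ⁻¹' tsupport θ := by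
  apply closure_minimal
  · intro z hz
    apply subset_tsupport
    intro h0
    apply hz
    show P z * θ (z.re / r) = 0
    rw [h0, mul_zero]
  · exact (isClosed_tsupport θ).preimage (Complex.continuous_re.div_const r)

theorem disj_osc {θ θ' : ℝ → ℝ} (h : Disjoint (tsupport θ) (tsupport θ')) (P P' : ℂ → ℝ)
    (r : ℝ) : Disjoint (tsupport (fun z : ℂ => P z * θ (z.re / r)))
      (tsupport (fun z : ℂ => P' z * θ' (z.re / r))) := by
  rw [Set.disjoint_left] at h ⊢
  intro z h1 h2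
  exact h (tsupport_osc P r h1) (tsupport_osc P' r h2)

end LimAux

open LimAux in
theorem QQ_nonpos {g h₁ h₂ : ℂ → ℝ} (hg : Den g) (hh₁ : Den h₁) (hh₂ : Den h₂) :
    QQ g h₁ h₂ ≤ 0 := by
  obtain ⟨θ, hθ, hd⟩ := osc_exists
  obtain ⟨R0, M0, F0⟩ := osc_fam (hθ 0) hg
  obtain ⟨R1, M1, F1⟩ := osc_fam (hθ 1) hh₁
  obtain ⟨R2, M2, F2⟩ := osc_fam (hθ 2) hh₂
  have a0 := F0 (max R0 (max R1 R2)) (max M0 (max M1 M2)) (by simp) (by simp)
  have a1 := F1 (max R0 (max R1 R2)) (max M0 (max M1 M2)) (by simp) (by simp)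
  have a2 := F2 (max R0 (max R1 R2)) (max M0 (max M1 M2)) (by simp) (by simp)
  have T := tend_QQ hg hh₁ hh₂ a0 a1 a2
  refine le_of_tendsto T ?_
  filter_upwards [ev_pos] with r hr
  exact QQ_nonpos_disj (a0.den r hr) (a1.den r hr) (a2.den r hr)
    (disj_osc (hd 0 1 (by decide)) _ _ r) (disj_osc (hd 0 2 (by decide)) _ _ r)
    (disj_osc (hd 1 2 (by decide)) _ _ r)

end Pool.Agent.H352R3.SA
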