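import Pool.Agent.H352R3.SA.Defs
import Pool.Agent.H352R3.SA.Gam
import Pool.Agent.H352R3.SA.Lim

/-!
# Module SUB: subadditivity of the soft capacity, positivity of the first derivative
-/

set_option autoImplicit false

open MeasureTheory Complex Filter Topology
open scoped ComplexConjugate BoundedContinuousFunction

namespace Pool.Agent.H352R3.SA

namespace SUBx

theorem den_zero : Den (fun _ : ℂ => (0 : ℝ)) :=
  ⟨continuous_const, HasCompactSupport.zero, fun _ => le_rfl⟩

theorem den_add {g h : ℂ → ℝ} (hg : Den g) (hh : Den h) {t : ℝ} (ht : 0 ≤ t) :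
    Den (fun z => g z + t * h z) := by
  refine ⟨hg.cont.add (continuous_const.mul hh.cont), ?_, fun z => ?_⟩
  · exact hg.supp.add (hh.supp.mul_left (f := fun _ => t))
  · have := hg.nonneg z
    have := hh.nonneg z
    positivity

/-- the first derivative decreases in every direction -/
theorem PP_anti {g h₁ h₂ : ℂ → ℝ} (hg : Den g) (hh₁ : Den h₁) (hh₂ : Den h₂) :
    AntitoneOn (fun τ : ℝ => PP (fun z => g z + τ * h₁ z) h₂) (Set.Ici 0) := by
  apply antitoneOn_of_deriv_nonpos (convex_Ici 0) (PP_continuousOn hg hh₁ hh₂)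
  · intro t ht
    rw [interior_Ici] at ht
    exact (PP_hasDerivAt hg hh₁ hh₂ ht).differentiableAt.differentiableWithinAt
  · intro t ht
    rw [interior_Ici] at ht
    rw [(PP_hasDerivAt hg hh₁ hh₂ ht).deriv]
    exact QQ_nonpos (den_add hg hh₁ (le_of_lt ht)) hh₁ hh₂

end SUBx

open SUBx

theorem Gam_add_le {h₁ h₂ : ℂ → ℝ} (hh₁ : Den h₁) (hh₂ : Den h₂) :
    Gam (fun z => h₁ z + h₂ z) ≤ Gam h₁ + Gam h₂ := by
  set φ : ℝ → ℝ := fun s => Gam (fun z => h₂ z + s * h₁ z) - Gam (fun z => 0 + s * h₁ z) with hφ
  have hc : ContinuousOn φ (Set.Ici 0) :=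
    (Gam_continuousOn hh₂ hh₁).sub (Gam_continuousOn den_zero hh₁)
  have hanti : AntitoneOn φ (Set.Ici 0) := by
    apply antitoneOn_of_deriv_nonpos (convex_Ici 0) hc
    · intro t ht
      rw [interior_Ici] at ht
      exact ((Gam_hasDerivAt hh₂ hh₁ ht).sub
        (Gam_hasDerivAt den_zero hh₁ ht)).differentiableAt.differentiableWithinAt
    · intro t ht
      rw [interior_Ici] at ht
      have hd := (Gam_hasDerivAt hh₂ hh₁ ht).sub (Gam_hasDerivAt den_zero hh₁ ht)
      have hd' : deriv φ t = PP (fun z => h₂ z + t * h₁ z) h₁ - PP (fun z => 0 + t * h₁ z) h₁ :=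
        hd.deriv
      rw [hd']
      have h1 := PP_anti (den_add den_zero hh₁ (le_of_lt ht)) hh₂ hh₁ (a := 0) (b := 1)
        (Set.mem_Ici.mpr le_rfl) (Set.mem_Ici.mpr zero_le_one) zero_le_one
      have e1 : (fun z => 0 + t * h₁ z + 1 * h₂ z) = fun z => h₂ z + t * h₁ z := by
        funext z
        ring
      have e0 : (fun z => 0 + t * h₁ z + 0 * h₂ z) = fun z => 0 + t * h₁ z := by
        funext z
        ring
      simp only at h1
      rw [e1, e0] at h1
      linarith
  have h1 := hanti (Set.mem_Ici.mpr le_rfl) (Set.mem_Ici.mpr zero_le_one) zero_le_one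
  simp only [hφ] at h1
  have e1 : (fun z => h₂ z + 1 * h₁ z) = fun z => h₁ z + h₂ z := by
    funext z
    ring
  have e2 : (fun z => 0 + 1 * h₁ z) = h₁ := by
    funext z
    ring
  have e3 : (fun z => h₂ z + 0 * h₁ z) = h₂ := by
    funext z
    ring
  have e4 : (fun z => 0 + 0 * h₁ z) = fun _ => 0 := by
    funext z
    ring
  rw [e1, e2, e3, e4, Gam_zero] at h1
  linarith

theorem PP_nonneg {g h : ℂ → ℝ} (hg : Den g) (hh : Den h) : 0 ≤ PP g h := by
  by_contra hcon
  push Not at hcon
  set d : ℝ := -PP g h with hd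
  have hdpos : 0 < d := by linarith
  have hc : ContinuousOn (fun s : ℝ => Gam (fun z => g z + s * h z) + d * s) (Set.Ici 0) :=
    (Gam_continuousOn hg hh).add (continuous_const.mul continuous_id).continuousOn
  have hanti : AntitoneOn (fun s : ℝ => Gam (fun z => g z + s * h z) + d * s) (Set.Ici 0) := by
    apply antitoneOn_of_deriv_nonpos (convex_Ici 0) hc
    · intro t ht
      rw [interior_Ici] at ht
      exact ((Gam_hasDerivAt hg hh ht).add
        ((hasDerivAt_id t).const_mul d)).differentiableAt.differentiableWithinAt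
    · intro t ht
      rw [interior_Ici] at ht
      have hder := (Gam_hasDerivAt hg hh ht).add ((hasDerivAt_id t).const_mul d)
      have hd' : deriv (fun s : ℝ => Gam (fun z => g z + s * h z) + d * s) t =
          PP (fun z => g z + t * h z) h + d * 1 := hder.deriv
      rw [hd']
      have h1 := PP_anti hg hh hh (a := 0) (b := t) (Set.mem_Ici.mpr le_rfl)
        (Set.mem_Ici.mpr (le_of_lt ht)) (le_of_lt ht)
      have e0 : (fun z => g z + 0 * h z) = g := by
        funext z
        ring
      simp only at h1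
      rw [e0] at h1
      linarith
  have hs : 0 ≤ (Gam g + 1) / d := div_nonneg (by linarith [Gam_nonneg hg]) hdpos.le
  have h1 := hanti (Set.mem_Ici.mpr le_rfl) (Set.mem_Ici.mpr hs) hs
  simp only at h1
  have e0 : (fun z => g z + 0 * h z) = g := by
    funext z
    ring
  rw [e0, mul_div_cancel₀ _ hdpos.ne'] at h1
  have h2 := Gam_nonneg (den_add hg hh hs)
  linarith

theorem norm_K_le {g : ℂ → ℝ} (hg : Den g) (z : ℂ) : ‖(LK g).2 z‖ ≤ ‖(LK g).1 z‖ := by
  by_contra hcon
  push Not at hcon
  set f : ℂ → ℝ := fun w => ‖(LK g).1 w‖ ^ 2 - ‖(LK g).2 w‖ ^ 2 with hf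
  have hfc : Continuous f :=
    ((LK g).1.continuous.norm.pow 2).sub ((LK g).2.continuous.norm.pow 2)
  have hfz : f z < 0 := by
    simp only [hf]
    have := pow_lt_pow_left₀ hcon (norm_nonneg _) (two_ne_zero)
    linarith
  have hev : ∀ᶠ w in 𝓝 z, f w < 0 := hfc.continuousAt.eventually_lt_const hfz
  obtain ⟨r, hr, hball⟩ := Metric.eventually_nhds_iff.mp hev
  set h : ℂ → ℝ := fun w => max 0 (r - dist w z) with hh
  have hDen : Den h := by
    refine ⟨continuous_const.max (continuous_const.sub (continuous_id.dist continuous_const)),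
      ?_, fun w => le_max_left _ _⟩
    apply HasCompactSupport.intro (isCompact_closedBall z r)
    intro w hw
    rw [Metric.mem_closedBall, not_le] at hw
    exact max_eq_left (by linarith)
  have h1 := PP_nonneg hg hDen
  have h2 : 0 < ∫ w, -(h w * f w) := by
    apply Continuous.integral_pos_of_hasCompactSupport_nonneg_nonzero (x := z)
    · exact (hDen.cont.mul hfc).neg
    · exact (hDen.supp.mul_right).neg
    · intro w
      change 0 ≤ -(h w * f w)
      by_cases hw : dist w z < r
      · have := hball hw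
        have := hDen.nonneg w
        nlinarith
      · have : h w = 0 := max_eq_left (by linarith)
        rw [this]
        simp
    · have h3 : h z = r := by
        simp only [hh, dist_self, sub_zero]
        exact max_eq_right hr.le
      rw [h3]
      have : r * f z < 0 := mul_neg_of_pos_of_neg hr hfz
      linarith
  rw [integral_neg] at h2
  unfold PP at h1
  linarith

end Pool.Agent.H352R3.SA
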