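import Pool.Agent.H352R3.SA.Pot
import Pool.Agent.H352R3.SA.Opr
import Pool.Agent.H352R3.SA.Gam
import Pool.Agent.H352R3.SA.Sub
import Pool.Agent.H352R3.SA.Quo0

set_option autoImplicit false

open MeasureTheory Complex Filter Topology
open scoped ComplexConjugate BoundedContinuousFunction

namespace Pool.Agent.H352R3.SA

theorem Gam_mem_adm {g : ℂ → ℝ} {E : Set ℂ} (hg : Den g) (hE : IsCompact E)
    (h : tsupport g ⊆ E) : Gam g ∈ adm E := by
  have hs := LK_sol hg
  have key : ∀ u : ℂ → ℂ, Continuous u → Continuous (fun w => (g w : ℂ) * conj (u w)) ∧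
      HasCompactSupport (fun w => (g w : ℂ) * conj (u w)) ∧
      tsupport (fun w => (g w : ℂ) * conj (u w)) ⊆ E := by
    intro u hu
    have hsub : Function.support (fun w => (g w : ℂ) * conj (u w)) ⊆ Function.support g := by
      intro w hw hgw
      apply hw
      show (g w : ℂ) * conj (u w) = 0
      rw [hgw, Complex.ofReal_zero, zero_mul]
    have hts : tsupport (fun w => (g w : ℂ) * conj (u w)) ⊆ tsupport g := closure_mono hsub
    refine ⟨(Complex.continuous_ofReal.comp hg.cont).mul (Complex.continuous_conj.comp hu), ?_,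
      hts.trans h⟩
    exact hg.supp.mono' (hsub.trans subset_closure)
  obtain ⟨c1, s1, t1⟩ := key _ hs.cL
  obtain ⟨c2, s2, t2⟩ := key _ hs.cK
  have hL : ∀ z, (LK g).1 z = 1 - pot (fun w => (g w : ℂ) * conj ((LK g).2 w)) z := by
    intro z
    rw [hs.eL z, cop, sub_eq_add_neg]
  have hK : ∀ z, (LK g).2 z = - pot (fun w => (g w : ℂ) * conj ((LK g).1 w)) z := by
    intro z
    rw [hs.eK z, cop, zero_add]
  have dL : DifferentiableOn ℂ (LK g).1 Eᶜ := by
    refine ((differentiableOn_const (1 : ℂ)).sub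
      ((pot_differentiableOn c2 s2).mono (Set.compl_subset_compl.2 t2))).congr ?_
    intro z _
    exact hL z
  have dK : DifferentiableOn ℂ (LK g).2 Eᶜ := by
    refine (((pot_differentiableOn c1 s1).mono (Set.compl_subset_compl.2 t1)).neg).congr ?_
    intro z _
    exact hK z
  have tL : Tendsto (LK g).1 (cocompact ℂ) (𝓝 1) := by
    have h1 := (tendsto_const_nhds (x := (1 : ℂ))).sub (pot_zero c2 s2)
    rw [sub_zero] at h1
    exact h1.congr fun z => (hL z).symm
  have tK : Tendsto (fun z => z * (LK g).2 z) (cocompact ℂ) (𝓝 (-(Gam g : ℂ))) := by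
    have h1 := (pot_tendsto c1 s1).neg
    rw [Gam_complex hg] at h1
    refine h1.congr fun z => ?_
    rw [hK z, mul_neg]
  have hfin := QuoAux.quot_adm hE dL dK (norm_K_le hg) _ tL tK
  have hn : ‖(-(Gam g : ℂ))‖ = Gam g := by
    rw [norm_neg, Complex.norm_real, Real.norm_eq_abs, abs_of_nonneg (Gam_nonneg hg)]
  rw [hn] at hfin
  exact hfin

end Pool.Agent.H352R3.SA
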