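import Pool.Agent.H352R3.SA.Defs
import Pool.Agent.H352R3.SA.Sub
import Pool.Agent.H352R3.SA.Quo
import Pool.Agent.H352R3.SA.App
import Pool.Agent.H352R3.SA.Mon

/-!
# Module FIN: analytic capacity is subadditive; removal of compact sets of capacity zero
-/

set_option autoImplicit false

open MeasureTheory Complex Filter Topology
open scoped ComplexConjugate BoundedContinuousFunction

namespace Pool.Agent.H352R3.SA

namespace FinAux

theorem gamma_mono {E F : Set ℂ} (hF : IsCompact F) (h : E ⊆ F) : gamma E ≤ gamma F :=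
  csSup_le_csSup (adm_bdd hF) ⟨0, adm_zero E⟩ (adm_mono h)

/-- distance to the complement of the `ε`-neighbourhood -/
noncomputable def dd (ε : ℝ) (A : Set ℂ) (z : ℂ) : ℝ :=
  Metric.infDist z (Metric.thickening ε A)ᶜ

theorem dd_cont (ε : ℝ) (A : Set ℂ) : Continuous (dd ε A) := Metric.continuous_infDist_pt _

theorem dd_nonneg (ε : ℝ) (A : Set ℂ) (z : ℂ) : 0 ≤ dd ε A z := Metric.infDist_nonneg

theorem dd_zero (ε : ℝ) (A : Set ℂ) (z : ℂ) (hz : z ∉ Metric.thickening ε A) : dd ε A z = 0 :=
  Metric.infDist_zero_of_mem hz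

theorem compl_nonempty (ε : ℝ) {A : Set ℂ} (hA : IsCompact A) :
    (Metric.thickening ε A)ᶜ.Nonempty := by
  rw [Set.nonempty_compl]
  intro h
  have h1 : Bornology.IsBounded (Metric.thickening ε A) := hA.isBounded.thickening
  rw [h] at h1
  exact NormedSpace.unbounded_univ ℂ ℂ h1

theorem dd_pos (ε : ℝ) {A : Set ℂ} (hA : IsCompact A) (z : ℂ)
    (hz : z ∈ Metric.thickening ε A) : 0 < dd ε A z := by
  have hcl : IsClosed (Metric.thickening ε A)ᶜ := Metric.isOpen_thickening.isClosed_compl
  rw [dd, ← hcl.notMem_iff_infDist_pos (compl_nonempty ε hA)]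
  exact fun h => h hz

/-- one of the two pieces of a density -/
noncomputable def piece (χ a b : ℂ → ℝ) (z : ℂ) : ℝ := χ z * (a z / (a z + b z))

theorem piece_den {χ a b : ℂ → ℝ} (hχ : Den χ) (ha : Continuous a) (hb : Continuous b)
    (ha0 : ∀ z, 0 ≤ a z) (hb0 : ∀ z, 0 ≤ b z) (hpos : ∀ z ∈ tsupport χ, 0 < a z + b z) :
    Den (piece χ a b) where
  cont := by
    rw [continuous_iff_continuousAt]
    intro z
    by_cases hz : z ∈ tsupport χ
    · have h1 := hpos z hz
      exact hχ.cont.continuousAt.mul (ha.continuousAt.div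
        (ha.continuousAt.add hb.continuousAt) h1.ne')
    · have h1 : χ =ᶠ[𝓝 z] 0 := notMem_tsupport_iff_eventuallyEq.1 hz
      have h2 : piece χ a b =ᶠ[𝓝 z] fun _ => 0 := by
        filter_upwards [h1] with w hw
        simp only [piece, hw, Pi.zero_apply, zero_mul]
      exact continuousAt_const.congr h2.symm
  supp := hχ.supp.mul_right
  nonneg := fun z => mul_nonneg (hχ.nonneg z) (div_nonneg (ha0 z) (add_nonneg (ha0 z) (hb0 z)))

theorem piece_tsupport {χ a b : ℂ → ℝ} {ε : ℝ} {A : Set ℂ}
    (h : ∀ z, z ∉ Metric.thickening ε A → a z = 0) :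
    tsupport (piece χ a b) ⊆ Metric.cthickening ε A := by
  apply closure_minimal _ Metric.isClosed_cthickening
  intro z hz
  by_contra hz'
  apply hz
  have : z ∉ Metric.thickening ε A := fun h' => hz' (Metric.thickening_subset_cthickening _ _ h')
  simp only [piece, h z this, zero_div, mul_zero]

theorem den_smul {χ : ℂ → ℝ} (hχ : Den χ) {t : ℝ} (ht : 0 ≤ t) : Den (fun z => t * χ z) where
  cont := continuous_const.mul hχ.cont
  supp := hχ.supp.mul_left
  nonneg := fun z => mul_nonneg ht (hχ.nonneg z)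

theorem tsupport_smul (χ : ℂ → ℝ) (t : ℝ) : tsupport (fun z => t * χ z) ⊆ tsupport χ := by
  apply closure_mono
  intro z hz hz'
  apply hz
  simp only [hz', mul_zero]

theorem Gam_le_gamma {g : ℂ → ℝ} {E : Set ℂ} (hg : Den g) (hE : IsCompact E)
    (h : tsupport g ⊆ E) : Gam g ≤ gamma E :=
  le_csSup (adm_bdd hE) (Gam_mem_adm hg hE h)

theorem union_aux {A B : Set ℂ} (hA : IsCompact A) (hB : IsCompact B) {ε : ℝ} (hε : 0 < ε)
    {c : ℝ} (hc : c ∈ adm (A ∪ B)) :
    c ≤ gamma (Metric.cthickening ε A) + gamma (Metric.cthickening ε B) := by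
  have hU : IsOpen (Metric.thickening ε A ∪ Metric.thickening ε B) :=
    Metric.isOpen_thickening.union Metric.isOpen_thickening
  have hEU : A ∪ B ⊆ Metric.thickening ε A ∪ Metric.thickening ε B :=
    Set.union_subset_union (Metric.self_subset_thickening hε A)
      (Metric.self_subset_thickening hε B)
  obtain ⟨χ, hχ, hχU, hle⟩ := adm_le (hA.union hB) hU hEU
  have hpos : ∀ z ∈ tsupport χ, 0 < dd ε A z + dd ε B z := by
    intro z hz
    rcases hχU hz with h | h
    · have := dd_pos ε hA z h
      have := dd_nonneg ε B z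
      linarith
    · have := dd_pos ε hB z h
      have := dd_nonneg ε A z
      linarith
  have hpos' : ∀ z ∈ tsupport χ, 0 < dd ε B z + dd ε A z := by
    intro z hz
    have := hpos z hz
    linarith
  have dA := piece_den hχ (dd_cont ε A) (dd_cont ε B) (dd_nonneg ε A) (dd_nonneg ε B) hpos
  have dB := piece_den hχ (dd_cont ε B) (dd_cont ε A) (dd_nonneg ε B) (dd_nonneg ε A) hpos'
  have sA : tsupport (piece χ (dd ε A) (dd ε B)) ⊆ Metric.cthickening ε A :=
    piece_tsupport (dd_zero ε A)
  have sB : tsupport (piece χ (dd ε B) (dd ε A)) ⊆ Metric.cthickening ε B :=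
    piece_tsupport (dd_zero ε B)
  set S : ℝ := gamma (Metric.cthickening ε A) + gamma (Metric.cthickening ε B) with hS
  have hsum : ∀ z, χ z = piece χ (dd ε A) (dd ε B) z + piece χ (dd ε B) (dd ε A) z := by
    intro z
    by_cases hz : χ z = 0
    · simp only [piece, hz, zero_mul, add_zero]
    · have h1 := hpos z (subset_tsupport χ hz)
      unfold piece
      rw [add_comm (dd ε B z) (dd ε A z), ← mul_add, ← add_div, div_self h1.ne', mul_one]
  have hG : ∀ t : ℝ, 0 < t → c ≤ (1 + 1 / t) * S := by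
    intro t ht
    have h1 := hle c hc t ht
    have h2 : (fun z => t * χ z) = fun z => t * piece χ (dd ε A) (dd ε B) z +
        t * piece χ (dd ε B) (dd ε A) z := by
      funext z
      rw [← mul_add, ← hsum z]
    have h3 : Gam (fun z => t * χ z) ≤ S := by
      rw [h2]
      refine (Gam_add_le (den_smul dA ht.le) (den_smul dB ht.le)).trans ?_
      apply add_le_add
      · exact Gam_le_gamma (den_smul dA ht.le) hA.cthickening
          ((tsupport_smul _ t).trans sA)
      · exact Gam_le_gamma (den_smul dB ht.le) hB.cthickening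
          ((tsupport_smul _ t).trans sB)
    exact h1.trans (mul_le_mul_of_nonneg_left h3 (by positivity))
  have hlim : Tendsto (fun t : ℝ => (1 + 1 / t) * S) atTop (𝓝 ((1 + 0) * S)) := by
    apply Tendsto.mul_const
    apply Tendsto.const_add
    exact tendsto_const_nhds.div_atTop tendsto_id
  rw [add_zero, one_mul] at hlim
  apply ge_of_tendsto hlim
  filter_upwards [eventually_gt_atTop 0] with t ht
  exact hG t ht

end FinAux

open FinAux

/-- **Analytic capacity is subadditive.** -/
theorem gamma_union_le {A B : Set ℂ} (hA : IsCompact A) (hB : IsCompact B) :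
    gamma (A ∪ B) ≤ gamma A + gamma B := by
  apply le_of_forall_pos_le_add
  intro η hη
  obtain ⟨ε₁, h1, e1⟩ := gamma_outer hA (half_pos hη)
  obtain ⟨ε₂, h2, e2⟩ := gamma_outer hB (half_pos hη)
  have m1 : gamma (Metric.cthickening (min ε₁ ε₂) A) ≤ gamma (Metric.cthickening ε₁ A) :=
    gamma_mono hA.cthickening (Metric.cthickening_mono (min_le_left _ _) A)
  have m2 : gamma (Metric.cthickening (min ε₁ ε₂) B) ≤ gamma (Metric.cthickening ε₂ B) :=
    gamma_mono hB.cthickening (Metric.cthickening_mono (min_le_right _ _) B)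
  apply csSup_le ⟨0, adm_zero _⟩
  intro c hc
  have := union_aux hA hB (lt_min h1 h2) hc
  linarith

/-- compact sets of capacity zero can be removed -/
theorem gamma_remove {E K : Set ℂ} (hE : IsCompact E) (hK : IsCompact K) (h0 : gamma K = 0) :
    sSup {c : ℝ | ∃ L : Set ℂ, IsCompact L ∧ L ⊆ E \ K ∧ c = gamma L} = gamma E := by
  have hb : ∀ c ∈ {c : ℝ | ∃ L : Set ℂ, IsCompact L ∧ L ⊆ E \ K ∧ c = gamma L},
      c ≤ gamma E := by
    rintro c ⟨L, _, hLE, rfl⟩
    exact gamma_mono hE (hLE.trans Set.sdiff_subset)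
  apply le_antisymm
  · exact csSup_le ⟨gamma ∅, ∅, isCompact_empty, Set.empty_subset _, rfl⟩ hb
  · apply le_of_forall_pos_le_add
    intro η hη
    obtain ⟨ε, hε, he⟩ := gamma_outer hK hη
    rw [h0, zero_add] at he
    have hL : IsCompact (E \ Metric.thickening ε K) := hE.diff Metric.isOpen_thickening
    have hLE : E \ Metric.thickening ε K ⊆ E \ K :=
      Set.sdiff_subset_sdiff_right (Metric.self_subset_thickening hε K)
    have hcov : E ⊆ (E \ Metric.thickening ε K) ∪ Metric.cthickening ε K := by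
      intro z hz
      by_cases h : z ∈ Metric.thickening ε K
      · exact Or.inr (Metric.thickening_subset_cthickening _ _ h)
      · exact Or.inl ⟨hz, h⟩
    have h1 : gamma E ≤ gamma (E \ Metric.thickening ε K) + gamma (Metric.cthickening ε K) :=
      (gamma_mono (hL.union hK.cthickening) hcov).trans (gamma_union_le hL hK.cthickening)
    have h2 : gamma (E \ Metric.thickening ε K) ≤
        sSup {c : ℝ | ∃ L : Set ℂ, IsCompact L ∧ L ⊆ E \ K ∧ c = gamma L} :=
      le_csSup ⟨gamma E, hb⟩ ⟨_, hL, hLE, rfl⟩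
    linarith

end Pool.Agent.H352R3.SA
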