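import Pool.Agent.H352R3.SA.Fin

/-!
# Analytic capacity is strongly subadditive (submodular)
-/

set_option autoImplicit false

open MeasureTheory Complex Filter Topology
open scoped ComplexConjugate BoundedContinuousFunction

namespace Pool.Agent.H352R3.SA

open SUBx FinAux

/-- the soft capacity is submodular -/
theorem Gam_submod {g h₁ h₂ : ℂ → ℝ} (hg : Den g) (hh₁ : Den h₁) (hh₂ : Den h₂) :
    Gam (fun z => g z + h₂ z + h₁ z) + Gam g ≤
      Gam (fun z => g z + h₁ z) + Gam (fun z => g z + h₂ z) := by
  have hg2 : Den (fun z => g z + h₂ z) := by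
    have := den_add hg hh₂ zero_le_one
    simpa only [one_mul] using this
  set φ : ℝ → ℝ := fun s => Gam (fun z => (g z + h₂ z) + s * h₁ z) -
    Gam (fun z => g z + s * h₁ z) with hφ
  have hc : ContinuousOn φ (Set.Ici 0) :=
    (Gam_continuousOn hg2 hh₁).sub (Gam_continuousOn hg hh₁)
  have hanti : AntitoneOn φ (Set.Ici 0) := by
    apply antitoneOn_of_deriv_nonpos (convex_Ici 0) hc
    · intro t ht
      rw [interior_Ici] at ht
      exact ((Gam_hasDerivAt hg2 hh₁ ht).sub
        (Gam_hasDerivAt hg hh₁ ht)).differentiableAt.differentiableWithinAt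
    · intro t ht
      rw [interior_Ici] at ht
      have hd := (Gam_hasDerivAt hg2 hh₁ ht).sub (Gam_hasDerivAt hg hh₁ ht)
      have hd' : deriv φ t = PP (fun z => (g z + h₂ z) + t * h₁ z) h₁ -
          PP (fun z => g z + t * h₁ z) h₁ := hd.deriv
      rw [hd']
      have h1 := PP_anti (den_add hg hh₁ (le_of_lt ht)) hh₂ hh₁ (a := 0) (b := 1)
        (Set.mem_Ici.mpr le_rfl) (Set.mem_Ici.mpr zero_le_one) zero_le_one
      have e1 : (fun z => g z + t * h₁ z + 1 * h₂ z) = fun z => (g z + h₂ z) + t * h₁ z := by
        funext z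
        ring
      have e0 : (fun z => g z + t * h₁ z + 0 * h₂ z) = fun z => g z + t * h₁ z := by
        funext z
        ring
      simp only at h1
      rw [e1, e0] at h1
      linarith
  have h1 := hanti (Set.mem_Ici.mpr le_rfl) (Set.mem_Ici.mpr zero_le_one) zero_le_one
  simp only [hφ] at h1
  have e1 : (fun z => (g z + h₂ z) + 1 * h₁ z) = fun z => g z + h₂ z + h₁ z := by
    funext z
    ring
  have e2 : (fun z => g z + 1 * h₁ z) = fun z => g z + h₁ z := by
    funext z
    ring
  have e3 : (fun z => (g z + h₂ z) + 0 * h₁ z) = fun z => g z + h₂ z := by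
    funext z
    ring
  have e4 : (fun z => g z + 0 * h₁ z) = g := by
    funext z
    ring
  rw [e1, e2, e3, e4] at h1
  linarith

/-- the soft capacity is increasing -/
theorem Gam_mono {g h : ℂ → ℝ} (hg : Den g) (hh : Den h) :
    Gam g ≤ Gam (fun z => g z + h z) := by
  have hmono : MonotoneOn (fun s : ℝ => Gam (fun z => g z + s * h z)) (Set.Ici 0) := by
    apply monotoneOn_of_deriv_nonneg (convex_Ici 0) (Gam_continuousOn hg hh)
    · intro t ht
      rw [interior_Ici] at ht
      exact (Gam_hasDerivAt hg hh ht).differentiableAt.differentiableWithinAt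
    · intro t ht
      rw [interior_Ici] at ht
      rw [(Gam_hasDerivAt hg hh ht).deriv]
      exact PP_nonneg (den_add hg hh (le_of_lt ht)) hh
  have h1 := hmono (Set.mem_Ici.mpr le_rfl) (Set.mem_Ici.mpr zero_le_one) zero_le_one
  simp only at h1
  have e0 : (fun z => g z + 0 * h z) = g := by
    funext z
    ring
  have e1 : (fun z => g z + 1 * h z) = fun z => g z + h z := by
    funext z
    ring
  rwa [e0, e1] at h1

namespace StrongAux

theorem den_add' {g h : ℂ → ℝ} (hg : Den g) (hh : Den h) : Den (fun z => g z + h z) := by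
  have := den_add hg hh zero_le_one
  simpa only [one_mul] using this

theorem tsupport_add_subset {g h : ℂ → ℝ} {E : Set ℂ} (hE : IsClosed E) (h1 : tsupport g ⊆ E)
    (h2 : tsupport h ⊆ E) : tsupport (fun z => g z + h z) ⊆ E := by
  apply closure_minimal _ hE
  intro z hz
  by_contra hzE
  apply hz
  have a1 : g z = 0 := by
    by_contra h0
    exact hzE (h1 (subset_tsupport g h0))
  have a2 : h z = 0 := by
    by_contra h0
    exact hzE (h2 (subset_tsupport h h0))
  simp only [a1, a2, add_zero]

theorem strong_aux {A B : Set ℂ} (hA : IsCompact A) (hB : IsCompact B) {ε : ℝ} (hε : 0 < ε)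
    {c d : ℝ} (hc : c ∈ adm (A ∪ B)) (hd : d ∈ adm (A ∩ B)) :
    c + d ≤ gamma (Metric.cthickening ε A) + gamma (Metric.cthickening ε B) := by
  have hU : IsOpen (Metric.thickening ε A ∪ Metric.thickening ε B) :=
    Metric.isOpen_thickening.union Metric.isOpen_thickening
  have hEU : A ∪ B ⊆ Metric.thickening ε A ∪ Metric.thickening ε B :=
    Set.union_subset_union (Metric.self_subset_thickening hε A)
      (Metric.self_subset_thickening hε B)
  have hU' : IsOpen (Metric.thickening ε A ∩ Metric.thickening ε B) :=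
    Metric.isOpen_thickening.inter Metric.isOpen_thickening
  have hEU' : A ∩ B ⊆ Metric.thickening ε A ∩ Metric.thickening ε B :=
    Set.inter_subset_inter (Metric.self_subset_thickening hε A)
      (Metric.self_subset_thickening hε B)
  obtain ⟨χ, hχ, hχU, hle⟩ := adm_le (hA.union hB) hU hEU
  obtain ⟨χ', hχ', hχU', hle'⟩ := adm_le (hA.inter hB) hU' hEU'
  have hpos : ∀ z ∈ tsupport χ, 0 < dd ε A z + dd ε B z := by
    intro z hz
    rcases hχU hz with h | h
    · have := dd_pos ε hA z h
      have := dd_nonneg ε B z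
      linarith
    · have := dd_pos ε hB z h
      have := dd_nonneg ε A z
      linarith
  have hpos' : ∀ z ∈ tsupport χ, 0 < dd ε B z + dd ε A z := by
    intro z hz
    have := hpos z hz
    linarith
  have dA := piece_den hχ (dd_cont ε A) (dd_cont ε B) (dd_nonneg ε A) (dd_nonneg ε B) hpos
  have dB := piece_den hχ (dd_cont ε B) (dd_cont ε A) (dd_nonneg ε B) (dd_nonneg ε A) hpos'
  have sA : tsupport (piece χ (dd ε A) (dd ε B)) ⊆ Metric.cthickening ε A :=
    piece_tsupport (dd_zero ε A)
  have sB : tsupport (piece χ (dd ε B) (dd ε A)) ⊆ Metric.cthickening ε B :=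
    piece_tsupport (dd_zero ε B)
  have tA : tsupport χ' ⊆ Metric.cthickening ε A :=
    hχU'.trans (Set.inter_subset_left.trans (Metric.thickening_subset_cthickening _ _))
  have tB : tsupport χ' ⊆ Metric.cthickening ε B :=
    hχU'.trans (Set.inter_subset_right.trans (Metric.thickening_subset_cthickening _ _))
  set S : ℝ := gamma (Metric.cthickening ε A) + gamma (Metric.cthickening ε B) with hS
  have hsum : ∀ z, χ z = piece χ (dd ε A) (dd ε B) z + piece χ (dd ε B) (dd ε A) z := by
    intro z
    by_cases hz : χ z = 0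
    · simp only [piece, hz, zero_mul, add_zero]
    · have h1 := hpos z (subset_tsupport χ hz)
      unfold piece
      rw [add_comm (dd ε B z) (dd ε A z), ← mul_add, ← add_div, div_self h1.ne', mul_one]
  have hG : ∀ t : ℝ, 0 < t → c + d ≤ (1 + 1 / t) * S := by
    intro t ht
    have h1 := hle c hc t ht
    have h1' := hle' d hd t ht
    have eg := den_smul hχ' ht.le
    have e1 := den_smul dA ht.le
    have e2 := den_smul dB ht.le
    have h2 : (fun z => t * χ z) = fun z => t * piece χ (dd ε B) (dd ε A) z +
        t * piece χ (dd ε A) (dd ε B) z := by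
      funext z
      rw [← mul_add, add_comm (piece χ (dd ε B) (dd ε A) z), ← hsum z]
    have h3 : Gam (fun z => t * χ z) ≤ Gam (fun z => t * χ' z +
        t * piece χ (dd ε B) (dd ε A) z + t * piece χ (dd ε A) (dd ε B) z) := by
      have h4 := Gam_mono (den_add' e2 e1) eg
      rw [h2]
      refine h4.trans (le_of_eq ?_)
      congr 1
      funext z
      ring
    have h5 := Gam_submod eg e1 e2
    have h6 : Gam (fun z => t * χ' z + t * piece χ (dd ε A) (dd ε B) z) ≤
        gamma (Metric.cthickening ε A) :=
      Gam_le_gamma (den_add' eg e1) hA.cthickening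
        (tsupport_add_subset Metric.isClosed_cthickening ((tsupport_smul _ t).trans tA)
          ((tsupport_smul _ t).trans sA))
    have h7 : Gam (fun z => t * χ' z + t * piece χ (dd ε B) (dd ε A) z) ≤
        gamma (Metric.cthickening ε B) :=
      Gam_le_gamma (den_add' eg e2) hB.cthickening
        (tsupport_add_subset Metric.isClosed_cthickening ((tsupport_smul _ t).trans tB)
          ((tsupport_smul _ t).trans sB))
    have h8 : Gam (fun z => t * χ z) + Gam (fun z => t * χ' z) ≤ S := by linarith
    calc c + d ≤ (1 + 1 / t) * Gam (fun z => t * χ z) + (1 + 1 / t) * Gam (fun z => t * χ' z) :=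
          add_le_add h1 h1'
      _ = (1 + 1 / t) * (Gam (fun z => t * χ z) + Gam (fun z => t * χ' z)) := by ring
      _ ≤ (1 + 1 / t) * S := mul_le_mul_of_nonneg_left h8 (by positivity)
  have hlim : Tendsto (fun t : ℝ => (1 + 1 / t) * S) atTop (𝓝 ((1 + 0) * S)) := by
    apply Tendsto.mul_const
    apply Tendsto.const_add
    exact tendsto_const_nhds.div_atTop tendsto_id
  rw [add_zero, one_mul] at hlim
  apply ge_of_tendsto hlim
  filter_upwards [eventually_gt_atTop 0] with t ht
  exact hG t ht

end StrongAux

open StrongAux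

/-- **Analytic capacity is strongly subadditive.** -/
theorem gamma_strong {A B : Set ℂ} (hA : IsCompact A) (hB : IsCompact B) :
    gamma (A ∪ B) + gamma (A ∩ B) ≤ gamma A + gamma B := by
  apply le_of_forall_pos_le_add
  intro η hη
  obtain ⟨ε₁, h1, e1⟩ := gamma_outer hA (half_pos hη)
  obtain ⟨ε₂, h2, e2⟩ := gamma_outer hB (half_pos hη)
  have m1 : gamma (Metric.cthickening (min ε₁ ε₂) A) ≤ gamma (Metric.cthickening ε₁ A) :=
    gamma_mono hA.cthickening (Metric.cthickening_mono (min_le_left _ _) A)
  have m2 : gamma (Metric.cthickening (min ε₁ ε₂) B) ≤ gamma (Metric.cthickening ε₂ B) :=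
    gamma_mono hB.cthickening (Metric.cthickening_mono (min_le_right _ _) B)
  have key : ∀ c ∈ adm (A ∪ B), ∀ d ∈ adm (A ∩ B), c + d ≤ gamma A + gamma B + η := by
    intro c hc d hd
    have := strong_aux hA hB (lt_min h1 h2) hc hd
    linarith
  have k1 : ∀ d ∈ adm (A ∩ B), gamma (A ∪ B) ≤ gamma A + gamma B + η - d := by
    intro d hd
    apply csSup_le ⟨0, adm_zero _⟩
    intro c hc
    have := key c hc d hd
    linarith
  have k2 : gamma (A ∩ B) ≤ gamma A + gamma B + η - gamma (A ∪ B) := by
    apply csSup_le ⟨0, adm_zero _⟩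
    intro d hd
    have := k1 d hd
    linarith
  linarith

end Pool.Agent.H352R3.SA
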