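import Pool.Agent.H352R3.SA.Defs

/-!
# Blueprint: all module statements (with `sorry`).  DO NOT import this file in final proofs.
Each module proves its statements under the same names in its own file
`Pool/Agent/H352R3/SA/<Module>.lean`, namespace `Pool.Agent.H352R3.SA`.
-/

set_option autoImplicit false

open MeasureTheory Complex Filter Topology
open scoped ComplexConjugate BoundedContinuousFunction

namespace Pool.Agent.H352R3.SA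

/-! ## Module POT (file Pot.lean) -/

theorem pot_integrable {φ : ℂ → ℂ} (hφ : Continuous φ) (hc : HasCompactSupport φ) (z : ℂ) :
    Integrable (fun w => φ w * (z - w)⁻¹) := sorry
theorem pot_continuous {φ : ℂ → ℂ} (hφ : Continuous φ) (hc : HasCompactSupport φ) :
    Continuous (pot φ) := sorry
theorem pot_tendsto {φ : ℂ → ℂ} (hφ : Continuous φ) (hc : HasCompactSupport φ) :
    Tendsto (fun z => z * pot φ z) (cocompact ℂ) (𝓝 (∫ w, φ w)) := sorry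
theorem pot_zero {φ : ℂ → ℂ} (hφ : Continuous φ) (hc : HasCompactSupport φ) :
    Tendsto (pot φ) (cocompact ℂ) (𝓝 0) := sorry
theorem pot_differentiableOn {φ : ℂ → ℂ} (hφ : Continuous φ) (hc : HasCompactSupport φ) :
    DifferentiableOn ℂ (pot φ) (tsupport φ)ᶜ := sorry

/-! ## Module BND (file Bnd.lean) -/

theorem pot_bound (R : ℝ) : ∃ C : ℝ, 0 ≤ C ∧ ∀ (φ : ℂ → ℂ) (M : ℝ), Continuous φ →
    (∀ z, R < ‖z‖ → φ z = 0) → (∀ z, ‖φ z‖ ≤ M) → ∀ z, ‖pot φ z‖ ≤ C * M := sorry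
theorem pot_holder (R : ℝ) : ∃ C : ℝ, 0 ≤ C ∧ ∀ (φ : ℂ → ℂ) (M : ℝ), Continuous φ →
    (∀ z, R < ‖z‖ → φ z = 0) → (∀ z, ‖φ z‖ ≤ M) →
    ∀ z z', ‖pot φ z - pot φ z'‖ ≤ C * M * ‖z - z'‖ ^ (1 / 2 : ℝ) := sorry
theorem schur (R M : ℝ) : ∃ C : ℝ, 0 ≤ C ∧ ∀ (p q : ℂ → ℝ) (f : ℂ → ℂ), Den p → Den q →
    Continuous f → (∀ z, R < ‖z‖ → p z = 0) → (∀ z, R < ‖z‖ → q z = 0) →
    (∀ z, p z ≤ M) → (∀ z, q z ≤ M) →
    ∫ z, p z * ‖pot (fun w => (q w : ℂ) * f w) z‖ ^ 2 ≤ C * ∫ z, q z * ‖f z‖ ^ 2 := sorry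

/-! ## Module FUB (file Fub.lean) -/

theorem anti {φ ψ : ℂ → ℂ} (hφ : Continuous φ) (cφ : HasCompactSupport φ)
    (hψ : Continuous ψ) (cψ : HasCompactSupport ψ) :
    ∫ z, φ z * pot ψ z = - ∫ z, ψ z * pot φ z := sorry
theorem pot_sq {κ : ℂ → ℂ} (hκ : Continuous κ) (cκ : HasCompactSupport κ) (z : ℂ) :
    pot κ z ^ 2 = 2 * pot (fun w => κ w * pot κ w) z := sorry

/-! ## Module ENE (file Ene.lean, imports Pot, Fub) -/

theorem cop_anti {g h : ℂ → ℝ} {u v : ℂ → ℂ} (hg : Continuous g) (cg : HasCompactSupport g)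
    (hh : Continuous h) (ch : HasCompactSupport h) (hu : Continuous u) (hv : Continuous v) :
    ∫ z, (g z : ℂ) * conj (u z) * cop h v z = - ∫ z, (h z : ℂ) * conj (v z) * cop g u z := sorry
theorem sol_energy {g : ℂ → ℝ} (hg : Den g) {s t L K : ℂ → ℂ} (h : Sol g s t L K) :
    ∫ z, g z * (‖L z‖ ^ 2 + ‖K z‖ ^ 2) ≤ ∫ z, g z * (‖s z‖ ^ 2 + ‖t z‖ ^ 2) := sorry
theorem sol_unique {g : ℂ → ℝ} (hg : Den g) {s t L K L' K' : ℂ → ℂ} (h : Sol g s t L K)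
    (h' : Sol g s t L' K') : L = L' ∧ K = K' := sorry
theorem sol_sub {g : ℂ → ℝ} (hg : Continuous g) (cg : HasCompactSupport g)
    {s t L K s' t' L' K' : ℂ → ℂ} (h : Sol g s t L K) (h' : Sol g s' t' L' K') :
    Sol g (s - s') (t - t') (L - L') (K - K') := sorry
theorem cop_continuous {g : ℂ → ℝ} (hg : Continuous g) (cg : HasCompactSupport g) {f : ℂ → ℂ}
    (hf : Continuous f) : Continuous (cop g f) := sorry

/-! ## Module OPR (file Opr.lean, imports Pot, Bnd, Ene) -/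

theorem sol_exists {g : ℂ → ℝ} (hg : Den g) (s t : ℂ →ᵇ ℂ) : ∃ p : Y, Sol g s t p.1 p.2 := sorry
theorem sol_bound {g : ℂ → ℝ} (hg : Den g) : ∃ C : ℝ, 0 ≤ C ∧ ∀ (s t L K : ℂ → ℂ) (M : ℝ),
    Sol g s t L K → (∀ z, ‖s z‖ ≤ M) → (∀ z, ‖t z‖ ≤ M) →
    ∀ z, ‖L z‖ ≤ C * M ∧ ‖K z‖ ≤ C * M := sorry
theorem LK_sol {g : ℂ → ℝ} (hg : Den g) :
    Sol g (fun _ => 1) (fun _ => 0) (LK g).1 (LK g).2 := sorry
theorem dLK_sol {g h : ℂ → ℝ} (hg : Den g) (hh : Continuous h) (ch : HasCompactSupport h) :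
    Sol g (cop h (LK g).2) (cop h (LK g).1) (dLK g h).1 (dLK g h).2 := sorry
theorem LK_hasDerivAt {g h : ℂ → ℝ} (hg : Den g) (hh : Den h) {t : ℝ} (ht : 0 < t) :
    HasDerivAt (fun τ : ℝ => LK (fun z => g z + τ * h z)) (dLK (fun z => g z + t * h z) h) t :=
  sorry
theorem LK_continuousOn {g h : ℂ → ℝ} (hg : Den g) (hh : Den h) :
    ContinuousOn (fun τ : ℝ => LK (fun z => g z + τ * h z)) (Set.Ici 0) := sorry

/-! ## Module GAM (file Gam.lean, imports Ene, Opr) -/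

theorem Gam_eq {g : ℂ → ℝ} (hg : Den g) :
    Gam g = ∫ z, g z * (‖(LK g).1 z‖ ^ 2 + ‖(LK g).2 z‖ ^ 2) := sorry
theorem Gam_complex {g : ℂ → ℝ} (hg : Den g) :
    ∫ z, (g z : ℂ) * conj ((LK g).1 z) = (Gam g : ℂ) := sorry
theorem Gam_nonneg {g : ℂ → ℝ} (hg : Den g) : 0 ≤ Gam g := sorry
theorem Gam_zero : Gam (fun _ => 0) = 0 := sorry
theorem Gam_hasDerivAt {g h : ℂ → ℝ} (hg : Den g) (hh : Den h) {t : ℝ} (ht : 0 < t) :
    HasDerivAt (fun τ : ℝ => Gam (fun z => g z + τ * h z)) (PP (fun z => g z + t * h z) h) t :=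
  sorry
theorem Gam_continuousOn {g h : ℂ → ℝ} (hg : Den g) (hh : Den h) :
    ContinuousOn (fun τ : ℝ => Gam (fun z => g z + τ * h z)) (Set.Ici 0) := sorry
theorem PP_hasDerivAt {g h₁ h₂ : ℂ → ℝ} (hg : Den g) (hh₁ : Den h₁) (hh₂ : Den h₂) {t : ℝ}
    (ht : 0 < t) : HasDerivAt (fun τ : ℝ => PP (fun z => g z + τ * h₁ z) h₂)
      (QQ (fun z => g z + t * h₁ z) h₁ h₂) t := sorry
theorem PP_continuousOn {g h₁ h₂ : ℂ → ℝ} (hg : Den g) (hh₁ : Den h₁) (hh₂ : Den h₂) :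
    ContinuousOn (fun τ : ℝ => PP (fun z => g z + τ * h₁ z) h₂) (Set.Ici 0) := sorry

/-! ## Module KER (file Ker.lean, imports Pot, Opr, Pool.Agent.H761R2.SV.Disc) -/

theorem ker_exists {g : ℂ → ℝ} (hg : Den g) {q : ℂ} (hq : q ∉ tsupport g) :
    ∃ m k, IsKer g q m k := sorry
theorem D2_ker {g : ℂ → ℝ} (hg : Den g) {a b c : ℂ} (hab : a ≠ b) (hac : a ≠ c) (hbc : b ≠ c)
    (ha : a ∉ tsupport g) (hb : b ∉ tsupport g) (hc : c ∉ tsupport g) {mb kb mc kc : ℂ → ℂ}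
    (hB : IsKer g b mb kb) (hC : IsKer g c mc kc) :
    ((((a - b)⁻¹ + mb a) * conj (kc a) - conj (kb a) * ((a - c)⁻¹ + mc a)) *
        conj ((b - c)⁻¹ + mc b)
      - (((a - b)⁻¹ + mb a) * conj ((a - c)⁻¹ + mc a) - conj (kb a) * kc a) *
        conj (kc b)).re ≤ 0 := sorry

/-! ## Module INF (file Inf.lean, imports Ene, Opr, Ker): the third point goes to infinity -/

theorem D2_inf {g : ℂ → ℝ} (hg : Den g) {a b : ℂ} (hab : a ≠ b)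
    (ha : a ∉ tsupport g) (hb : b ∉ tsupport g) {m k : ℂ → ℂ} (hB : IsKer g b m k) :
    ((((a - b)⁻¹ + m a) * conj ((LK g).2 a) - conj (k a) * (LK g).1 a) * conj ((LK g).1 b)
      - (((a - b)⁻¹ + m a) * conj ((LK g).1 a) - conj (k a) * (LK g).2 a) *
        conj ((LK g).2 b)).re ≤ 0 := sorry

/-! ## Module DUA (file Dua.lean, imports Ene, Opr, Ker, Inf) -/

theorem dLK_formula {g h : ℂ → ℝ} (hg : Den g) (hh : Continuous h) (ch : HasCompactSupport h)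
    {y : ℂ} (hy : y ∉ tsupport g) (hy' : y ∉ tsupport h) {m k : ℂ → ℂ} (hk : IsKer g y m k) :
    (dLK g h).1 y = (∫ x, (h x : ℂ) *
      (conj ((LK g).2 x) * ((x - y)⁻¹ + m x) - (LK g).1 x * conj (k x))) ∧
    (dLK g h).2 y = ∫ x, (h x : ℂ) *
      (conj ((LK g).1 x) * ((x - y)⁻¹ + m x) - (LK g).2 x * conj (k x)) := sorry
theorem QQ_nonpos_disj {g h₁ h₂ : ℂ → ℝ} (hg : Den g) (hh₁ : Den h₁) (hh₂ : Den h₂)
    (d1 : Disjoint (tsupport g) (tsupport h₁)) (d2 : Disjoint (tsupport g) (tsupport h₂))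
    (d3 : Disjoint (tsupport h₁) (tsupport h₂)) : QQ g h₁ h₂ ≤ 0 := sorry

/-! ## Module OSC (file Osc.lean, imports Bnd): oscillating weights -/

/-- oscillation weights -/
structure Osc (θ : ℝ → ℝ) : Prop where
  cont : Continuous θ
  per : Function.Periodic θ 1
  nonneg : ∀ x, 0 ≤ θ x
  mean : ∫ x in (0:ℝ)..1, θ x = 1

theorem osc_exists : ∃ θ : Fin 3 → ℝ → ℝ, (∀ i, Osc (θ i)) ∧
    ∀ i j, i ≠ j → Disjoint (tsupport (θ i)) (tsupport (θ j)) := sorry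
theorem osc_int {θ : ℝ → ℝ} (hθ : Osc θ) {φ : ℂ → ℂ} (hφ : Continuous φ)
    (cφ : HasCompactSupport φ) :
    Tendsto (fun r : ℝ => ∫ w, φ w * (θ (w.re / r) : ℂ)) (𝓝[>] 0) (𝓝 (∫ w, φ w)) := sorry
theorem osc_pot {θ : ℝ → ℝ} (hθ : Osc θ) {φ : ℂ → ℂ} (hφ : Continuous φ)
    (cφ : HasCompactSupport φ) {ε : ℝ} (hε : 0 < ε) :
    ∀ᶠ r : ℝ in 𝓝[>] 0, ∀ z, ‖pot (fun w => φ w * (θ (w.re / r) : ℂ)) z - pot φ z‖ ≤ ε := sorry

/-! ## Module LIM (file Lim.lean, imports Bnd, Ene, Opr, Dua, Osc) -/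

theorem QQ_nonpos {g h₁ h₂ : ℂ → ℝ} (hg : Den g) (hh₁ : Den h₁) (hh₂ : Den h₂) :
    QQ g h₁ h₂ ≤ 0 := sorry

/-! ## Module SUB (file Sub.lean, imports Gam, Lim) -/

theorem Gam_add_le {h₁ h₂ : ℂ → ℝ} (hh₁ : Den h₁) (hh₂ : Den h₂) :
    Gam (fun z => h₁ z + h₂ z) ≤ Gam h₁ + Gam h₂ := sorry
theorem PP_nonneg {g h : ℂ → ℝ} (hg : Den g) (hh : Den h) : 0 ≤ PP g h := sorry
theorem norm_K_le {g : ℂ → ℝ} (hg : Den g) (z : ℂ) : ‖(LK g).2 z‖ ≤ ‖(LK g).1 z‖ := sorry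

/-! ## Module QUO (file Quo.lean, imports Pot, Opr, Gam, Sub) -/

theorem Gam_mem_adm {g : ℂ → ℝ} {E : Set ℂ} (hg : Den g) (hE : IsCompact E)
    (h : tsupport g ⊆ E) : Gam g ∈ adm E := sorry

/-! ## Module APP (file App.lean, imports Pot, Fub, Ene, Opr, Gam, Pool.Agent.H761R2.SV.Pomp) -/

theorem app_le {g : ℂ → ℝ} (hg : Den g) {D : ℂ → ℂ} (hD : Continuous D)
    (cD : HasCompactSupport D) (h1 : ∀ z, g z ≠ 0 → ‖pot D z‖ ≤ 1) :
    ‖∫ z, D z‖ ≤ (∫ z, ‖D z‖ * ‖(LK g).1 z‖ ^ 2) + Gam g := sorry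
theorem adm_le {E U : Set ℂ} (hE : IsCompact E) (hU : IsOpen U) (hEU : E ⊆ U) :
    ∃ χ : ℂ → ℝ, Den χ ∧ tsupport χ ⊆ U ∧ ∀ c ∈ adm E, ∀ t : ℝ, 0 < t →
      c ≤ (1 + 1 / t) * Gam (fun z => t * χ z) := sorry

/-! ## Module MON (file Mon.lean; Montel: Pool.Agent.Helper114.MontelSol, KPlane) -/

theorem adm_zero (E : Set ℂ) : (0 : ℝ) ∈ adm E := sorry
theorem adm_mono {E F : Set ℂ} (h : E ⊆ F) : adm E ⊆ adm F := sorry
theorem adm_bdd {E : Set ℂ} (hE : IsCompact E) : BddAbove (adm E) := sorry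
theorem gamma_outer {E : Set ℂ} (hE : IsCompact E) {η : ℝ} (hη : 0 < η) :
    ∃ ε > 0, gamma (Metric.cthickening ε E) ≤ gamma E + η := sorry

/-! ## Module FIN (file Fin.lean, imports Sub, Quo, App, Mon) -/

/-- **Analytic capacity is subadditive.** -/
theorem gamma_union_le {A B : Set ℂ} (hA : IsCompact A) (hB : IsCompact B) :
    gamma (A ∪ B) ≤ gamma A + gamma B := sorry
/-- compact sets of capacity zero can be removed -/
theorem gamma_remove {E K : Set ℂ} (hE : IsCompact E) (hK : IsCompact K) (h0 : gamma K = 0) :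
    sSup {c : ℝ | ∃ L : Set ℂ, IsCompact L ∧ L ⊆ E \ K ∧ c = gamma L} = gamma E := sorry

end Pool.Agent.H352R3.SA
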